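import Pool.Agent.Y316.PC.Equi

set_option autoImplicit false
set_option linter.unusedSectionVars false

/-!
# The law of the Poisson maps
-/

namespace Pool.Agent.Y316.PC

open MeasureTheory Set Filter Topology ProbabilityTheory Pointwise
open scoped ENNReal NNReal symmDiff BoundedContinuousFunction

/-- a neighbourhood of a probability measure contains a neighbourhood given by finitely many test
functions -/
theorem weak_nbhd {Y : Type} [TopologicalSpace Y] [MeasurableSpace Y] [OpensMeasurableSpace Y]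
    {ν : ProbabilityMeasure Y} {O : Set (ProbabilityMeasure Y)} (hO : IsOpen O) (hν : ν ∈ O) :
    ∃ (J : Type) (_ : Fintype J) (f : J → (Y →ᵇ ℝ)) (η : ℝ), 0 < η ∧
      ∀ κ : ProbabilityMeasure Y,
        (∀ j, |∫ y, f j y ∂(κ : Measure Y) - ∫ y, f j y ∂(ν : Measure Y)| < η) → κ ∈ O := by
  set L : Filter (ProbabilityMeasure Y) := ⨅ f : (Y →ᵇ ℝ),
    comap (fun κ : ProbabilityMeasure Y => ∫ y, f y ∂(κ : Measure Y))
      (𝓝 (∫ y, f y ∂(ν : Measure Y))) with hL
  have h1 : Tendsto (fun κ : ProbabilityMeasure Y => κ) L (𝓝 ν) := by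
    rw [ProbabilityMeasure.tendsto_iff_forall_integral_tendsto]
    intro f
    rw [tendsto_iff_comap]
    exact iInf_le _ f
  have h2 : O ∈ L := h1 (hO.mem_nhds hν)
  rw [hL, mem_iInf] at h2
  obtain ⟨I, hI, V, hV, rfl⟩ := h2
  choose T hT hTV using fun i => mem_comap.mp (hV i)
  choose e he heT using fun i => Metric.mem_nhds_iff.mp (hT i)
  have := hI.fintype
  obtain ⟨n, ⟨φ⟩⟩ := Finite.exists_equiv_fin I
  obtain ⟨η, hη, hηe⟩ : ∃ η > 0, ∀ j : Fin n, η ≤ e (φ.symm j) := by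
    by_cases hn : (Finset.univ : Finset (Fin n)).Nonempty
    · refine ⟨Finset.univ.inf' hn (fun j => e (φ.symm j)), ?_,
        fun j => Finset.inf'_le _ (Finset.mem_univ j)⟩
      rw [gt_iff_lt, Finset.lt_inf'_iff]
      exact fun j _ => he _
    · exact ⟨1, one_pos, fun j => absurd ⟨j, Finset.mem_univ j⟩ hn⟩
  refine ⟨Fin n, inferInstance, fun j => (φ.symm j : (Y →ᵇ ℝ)), η, hη, ?_⟩
  intro κ hκ
  rw [mem_iInter]
  intro i
  apply hTV i
  show (fun κ : ProbabilityMeasure Y => ∫ y, (i : (Y →ᵇ ℝ)) y ∂(κ : Measure Y)) κ ∈ T i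
  apply heT i
  rw [Metric.mem_ball, Real.dist_eq]
  have h3 := hκ (φ i)
  have h4 := hηe (φ i)
  rw [Equiv.symm_apply_apply] at h4
  simp only [Equiv.symm_apply_apply] at h3
  exact h3.trans_le h4

section weak

variable {G M Ω : Type} [Group G] [TopologicalSpace G] [IsTopologicalGroup G] [T2Space G]
  [LocallyCompactSpace G] [SecondCountableTopology G]
  [MeasurableSpace G] [BorelSpace G] [TopologicalSpace M] [MeasurableSpace M] [BorelSpace M]
  [SecondCountableTopology M] [LocallyCompactSpace M] [T2Space M] [MeasurableSpace Ω]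
  {S : LocalSpace G M} {R U : Set G} {haar : Measure G} [haar.IsHaarMeasure]
  [haar.IsMulRightInvariant] {v : Measure M} [IsFiniteMeasure v] {t : ℝ≥0}
  {P : Measure (Measure G)} {Q : Measure Ω} {N : Ω → Set M → ℕ}
  {Y : Type} [TopologicalSpace Y] [MeasurableSpace Y] [BorelSpace Y]

/-- one test function -/
theorem weak_one (hB : Big R U) (hv : S.IsVol haar v) (hP : IsPoisson haar t P)
    (ht : t ≠ 0) (hN : PRM (t • v) Q N) (hJ : Jm N) {ι : Type} [Fintype ι] {E : ι → Set G}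
    (hE : ∀ i, IsCompact (E i)) (hER : ∀ i, (E i)⁻¹ ⊆ R) (F : (ι → ℕ) → Y) (f : Y →ᵇ ℝ)
    {m κ : ℝ} (hκ : |∫ ω, f (F (fun i => cnt (E i) ω)) ∂P - m| ≤ κ) {b : ℝ} (hb : 0 ≤ b)
    (hgood : v (S.good U)ᶜ ≤ ENNReal.ofReal b) {δ : ℝ} (hδ : 0 < δ)
    (hV : 0 < (v univ).toReal) :
    Q {ω | (δ + κ) * (v univ).toReal + 2 * ‖f‖ * b ≤
      |∫ p, f (F (cv S R U N (fun i => (E i)⁻¹) ω p)) ∂v - m * (v univ).toReal|} ≤
      ENNReal.ofReal ((2 * ‖f‖) ^ 2 * (haar (R ^ 4)).toReal / (δ ^ 2 * (v univ).toReal)) := by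
  have := hP.isProb
  set K : ι → Set G := fun i => (E i)⁻¹ with hK
  have hKc : ∀ i, IsCompact (K i) := fun i => (hE i).inv
  have hKR : ∀ i, K i ⊆ R ^ 2 := by
    intro i a ha
    refine pw_mono hB.one' (by norm_num : 1 ≤ 2) ?_
    rw [pow_one]
    exact hER i ha
  have hKR' : ∀ i, K i ⊆ R ^ 11 := fun i => (hKR i).trans (pw_mono hB.one' (by norm_num))
  have hnm : MeasurableSet (nb S R U) := (isOpen_nb (S := S) hB).measurableSet
  have h1 := lln hB hv hP ht hN hJ hKc hKR hnm (le_refl _) (H := fun c => f (F c))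
    (norm_nonneg f) (fun c => f.norm_coe_le_norm _) hδ hV
  refine (measure_mono ?_).trans h1
  intro ω hω
  have hFm : Measurable F := Measurable.of_discrete
  have hfi : Integrable (fun p => f (F (cv S R U N K ω p))) v := by
    refine Integrable.of_bound ?_ ‖f‖ (Eventually.of_forall fun p => f.norm_coe_le_norm _)
    have h2 : Measurable (fun p => cv S R U N K ω p) :=
      (measurable_cv (S := S) hB hJ hKc hKR').comp (measurable_id.prodMk measurable_const)
    exact (f.continuous.measurable.comp (hFm.comp h2)).aestronglyMeasurable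
  set m1 := ∫ ω, f (F (fun i => cnt (K i) ω)) ∂P with hm1
  have e0 : m1 = ∫ ω, f (F (fun i => cnt (E i) ω)) ∂P :=
    integral_inv_law hP ht hE (fun c => f (F c))
  have e0' : |m1| ≤ ‖f‖ := by
    have h2 := norm_integral_le_of_norm_le_const (μ := P) (C := ‖f‖)
      (f := fun ω => f (F (fun i => cnt (K i) ω))) (Eventually.of_forall fun ω =>
        f.norm_coe_le_norm _)
    rwa [probReal_univ, mul_one, Real.norm_eq_abs] at h2
  have e1 : ∫ p, f (F (cv S R U N K ω p)) ∂v = ∫ p in nb S R U, f (F (cv S R U N K ω p)) ∂v +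
      ∫ p in (nb S R U)ᶜ, f (F (cv S R U N K ω p)) ∂v := (integral_add_compl hnm hfi).symm
  have e2 : (v (nb S R U)ᶜ).toReal ≤ b := by
    have h3 : v (nb S R U)ᶜ ≤ ENNReal.ofReal b :=
      (measure_mono (compl_subset_compl.mpr fun p hp => nb_of_good hB hp)).trans hgood
    have := ENNReal.toReal_mono ENNReal.ofReal_ne_top h3
    rwa [ENNReal.toReal_ofReal hb] at this
  have e3 : |∫ p in (nb S R U)ᶜ, f (F (cv S R U N K ω p)) ∂v| ≤ ‖f‖ * b := by
    have h3 := norm_integral_le_of_norm_le_const (μ := v.restrict (nb S R U)ᶜ) (C := ‖f‖)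
      (f := fun p => f (F (cv S R U N K ω p))) (Eventually.of_forall fun ω =>
        f.norm_coe_le_norm _)
    rw [Real.norm_eq_abs] at h3
    refine h3.trans (mul_le_mul_of_nonneg_left ?_ (norm_nonneg _))
    rw [measureReal_def, Measure.restrict_apply_univ]
    exact e2
  have e4 : (v univ).toReal = (v (nb S R U)).toReal + (v (nb S R U)ᶜ).toReal := by
    rw [← ENNReal.toReal_add (measure_ne_top _ _) (measure_ne_top _ _), measure_add_measure_compl hnm]
  have e5 : |m1 * (v (nb S R U)ᶜ).toReal| ≤ ‖f‖ * b := by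
    rw [abs_mul, abs_of_nonneg (ENNReal.toReal_nonneg (a := v (nb S R U)ᶜ))]
    exact mul_le_mul e0' e2 ENNReal.toReal_nonneg (norm_nonneg _)
  have e6 : |(m1 - m) * (v univ).toReal| ≤ κ * (v univ).toReal := by
    rw [abs_mul, abs_of_pos hV, e0]
    exact mul_le_mul_of_nonneg_right hκ hV.le
  have hω' : (δ + κ) * (v univ).toReal + 2 * ‖f‖ * b ≤
      |∫ p, f (F (cv S R U N K ω p)) ∂v - m * (v univ).toReal| := hω
  show δ * (v univ).toReal ≤ |∫ p in nb S R U, f (F (cv S R U N K ω p)) ∂v -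
    (v (nb S R U)).toReal * m1|
  set X := ∫ p in nb S R U, f (F (cv S R U N K ω p)) ∂v
  set X' := ∫ p in (nb S R U)ᶜ, f (F (cv S R U N K ω p)) ∂v
  have e7 : ∫ p, f (F (cv S R U N K ω p)) ∂v - m * (v univ).toReal =
      (X - (v (nb S R U)).toReal * m1) + X' + (-(m1 * (v (nb S R U)ᶜ).toReal)) +
        (m1 - m) * (v univ).toReal := by
    rw [e1, e4]
    ring
  rw [e7] at hω'
  have e8 := abs_add_le ((X - (v (nb S R U)).toReal * m1) + X' + (-(m1 * (v (nb S R U)ᶜ).toReal)))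
    ((m1 - m) * (v univ).toReal)
  have e9 := abs_add_le ((X - (v (nb S R U)).toReal * m1) + X') (-(m1 * (v (nb S R U)ᶜ).toReal))
  have e10 := abs_add_le (X - (v (nb S R U)).toReal * m1) X'
  rw [abs_neg] at e9
  linarith

/-- the law of a map belongs to a neighbourhood -/
theorem weak_mem {φ : M → Y} (hφ : Measurable φ) (hV : v univ ≠ 0)
    {O : Set (ProbabilityMeasure Y)} {ν : ProbabilityMeasure Y} {J : Type} {f : J → (Y →ᵇ ℝ)}
    {η : ℝ} (hη : ∀ κ : ProbabilityMeasure Y,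
        (∀ j, |∫ y, f j y ∂(κ : Measure Y) - ∫ y, f j y ∂(ν : Measure Y)| < η) → κ ∈ O)
    (h : ∀ j, |∫ p, f j (φ p) ∂v - (∫ y, f j y ∂(ν : Measure Y)) * (v univ).toReal| <
      η * (v univ).toReal) :
    ∃ κ ∈ O, (κ : Measure Y) = (v univ)⁻¹ • v.map φ := by
  have hVt : v univ ≠ ⊤ := measure_ne_top _ _
  have hpr : IsProbabilityMeasure ((v univ)⁻¹ • v.map φ) := by
    constructor
    rw [Measure.smul_apply, Measure.map_apply hφ MeasurableSet.univ, preimage_univ, smul_eq_mul,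
      ENNReal.inv_mul_cancel hV hVt]
  set κ0 : ProbabilityMeasure Y := ⟨(v univ)⁻¹ • v.map φ, hpr⟩ with hκ0
  have hκ0' : (κ0 : Measure Y) = (v univ)⁻¹ • v.map φ := rfl
  refine ⟨κ0, hη κ0 ?_, hκ0'⟩
  intro j
  have hV' : 0 < (v univ).toReal := ENNReal.toReal_pos hV hVt
  have h1 : ∫ y, f j y ∂(κ0 : Measure Y) =
      (v univ).toReal⁻¹ * ∫ p, f j (φ p) ∂v := by
    rw [hκ0', integral_smul_measure, integral_map hφ.aemeasurable
      (f j).continuous.measurable.aestronglyMeasurable, ENNReal.toReal_inv, smul_eq_mul]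
  rw [h1]
  have h2 := h j
  have h3 : (v univ).toReal⁻¹ * ∫ p, f j (φ p) ∂v - ∫ y, f j y ∂(ν : Measure Y) =
      (∫ p, f j (φ p) ∂v - (∫ y, f j y ∂(ν : Measure Y)) * (v univ).toReal) *
        (v univ).toReal⁻¹ := by
    field_simp
  rw [h3, abs_mul, abs_of_pos (inv_pos.mpr hV')]
  calc _ < η * (v univ).toReal * (v univ).toReal⁻¹ := mul_lt_mul_of_pos_right h2 (inv_pos.mpr hV')
    _ = η := by field_simp

end weak

end Pool.Agent.Y316.PC
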