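import Pool.Agent.Y316.PC.Ent

set_option autoImplicit false
set_option linter.unusedSectionVars false

/-!
# Bounded volumes
-/

namespace Pool.Agent.Y316.PC

open MeasureTheory Set Filter Topology ProbabilityTheory Pointwise
open scoped ENNReal NNReal symmDiff BoundedContinuousFunction

theorem dst_nonneg (x y : ℕ) : 0 ≤ dst x y := by
  unfold dst
  split_ifs <;> norm_num

theorem dst_le (x y : ℕ) : dst x y ≤ 1 := by
  unfold dst
  split_ifs <;> norm_num

section neg

variable {G M : Type} [Group G] [TopologicalSpace G] [IsTopologicalGroup G] [T2Space G]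
  [LocallyCompactSpace G] [SecondCountableTopology G]
  [MeasurableSpace G] [BorelSpace G] [TopologicalSpace M] [MeasurableSpace M] [BorelSpace M]
  [SecondCountableTopology M] [LocallyCompactSpace M] [T2Space M]
  {S : LocalSpace G M} {haar : Measure G} [haar.IsHaarMeasure]
  [haar.IsMulRightInvariant] {v : Measure M} [IsFiniteMeasure v]

theorem map_empty [CompactSpace G] (hv : S.IsVol haar v) {n : ℕ} {β δ ε : ℝ} (hβ : 0 < β)
    (hn : (v univ).toReal < (n + 1) * ((haar univ).toReal / 2)) (hε : 0 ≤ ε)
    (hgood : v (S.good univ)ᶜ ≤ ENNReal.ofReal (ε * (v univ).toReal)) (hεβ : ε ≤ β / 4)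
    (hδβ : δ ≤ β / 16) (hV : 0 < (v univ).toReal) {φ : M → ℕ} (hφ : Measurable φ)
    (h1 : ∀ g : G, (∫ p in {p | (g, p) ∈ S.dom}, dst (φ (S.act g p)) (φ p) ∂v) /
      (v univ).toReal < δ)
    (h2 : ∀ j : Fin (n + 1), β / 2 * (v univ).toReal < (v (φ ⁻¹' {(j : ℕ)})).toReal) : False := by
  have hB : Big (univ : Set G) univ :=
    ⟨by simp, by simp, isCompact_univ, subset_univ _⟩
  set V := (v univ).toReal with hVd
  set w := (haar univ).toReal with hwd
  have hhaar : IsFiniteMeasure haar := ⟨isCompact_univ.measure_lt_top⟩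
  have hw : 0 < w := ENNReal.toReal_pos
    (isOpen_univ.measure_pos haar univ_nonempty).ne' (measure_ne_top _ _)
  set nbh := nb S univ univ with hnb
  have hnbo : IsOpen nbh := isOpen_nb hB
  have hnbm : MeasurableSet nbh := hnbo.measurableSet
  have hR11 : ∀ g : G, g ∈ (univ : Set G) ^ 11 := fun g =>
    pw_mono hB.one' (by norm_num : 1 ≤ 11) (by rw [pow_one]; trivial)
  have hdom : ∀ p ∈ nbh, ∀ g : G, (g, p) ∈ S.dom := fun p hp g => nb_dom hB hp (hR11 g)
  have hdm : Measurable (fun z : ℕ × ℕ => dst z.1 z.2) := Measurable.of_discrete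
  set u : G × M → ℝ := fun z => dst (φ (S.act z.1 z.2)) (φ z.2) with hu
  have hact : AEMeasurable (fun z : G × M => S.act z.1 z.2) (haar.prod (v.restrict nbh)) := by
    have h3 : haar.prod (v.restrict nbh) = (haar.prod v).restrict (univ ×ˢ nbh) := by
      rw [← Measure.prod_restrict, Measure.restrict_univ]
    rw [h3]
    refine ContinuousOn.aemeasurable ?_ (MeasurableSet.univ.prod hnbm)
    refine S.continuousOn_act.mono ?_
    rintro ⟨g, p⟩ ⟨-, hp⟩
    exact hdom p hp g
  have hum : AEStronglyMeasurable u (haar.prod (v.restrict nbh)) := by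
    refine AEMeasurable.aestronglyMeasurable ?_
    exact hdm.comp_aemeasurable ((hφ.comp_aemeasurable hact).prodMk
      (hφ.comp measurable_snd).aemeasurable)
  have hui : Integrable u (haar.prod (v.restrict nbh)) := by
    refine Integrable.of_bound hum 1 (Eventually.of_forall fun z => ?_)
    rw [Real.norm_eq_abs, abs_of_nonneg (dst_nonneg _ _)]
    exact dst_le _ _
  have h3 : ∀ g : G, ∫ p in nbh, u (g, p) ∂v ≤ δ * V := by
    intro g
    have h4 := h1 g
    rw [div_lt_iff₀ hV] at h4
    refine le_trans ?_ h4.le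
    refine setIntegral_mono_set ?_ (Eventually.of_forall fun p => dst_nonneg _ _)
      (Eventually.of_forall fun p hp => hdom p hp g)
    have hdo : IsOpen {p | (g, p) ∈ S.dom} :=
      S.isOpen_dom.preimage (continuous_const.prodMk continuous_id)
    have h5 : AEMeasurable (fun p => S.act g p) (v.restrict {p | (g, p) ∈ S.dom}) := by
      refine ContinuousOn.aemeasurable ?_ hdo.measurableSet
      exact S.continuousOn_act.comp ((continuous_const.prodMk continuous_id).continuousOn)
        fun p hp => hp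
    refine Integrable.of_bound ?_ 1 (Eventually.of_forall fun z => ?_)
    · refine AEMeasurable.aestronglyMeasurable ?_
      exact hdm.comp_aemeasurable ((hφ.comp_aemeasurable h5).prodMk hφ.aemeasurable)
    · rw [Real.norm_eq_abs, abs_of_nonneg (dst_nonneg _ _)]
      exact dst_le _ _
  have h4 : ∫ g, (∫ p in nbh, u (g, p) ∂v) ∂haar ≤ w * (δ * V) := by
    have h5 : ∫ g, (∫ p in nbh, u (g, p) ∂v) ∂haar ≤ ∫ _g : G, δ * V ∂haar :=
      integral_mono hui.integral_prod_left (integrable_const _) h3
    refine h5.trans (le_of_eq ?_)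
    rw [integral_const, smul_eq_mul, measureReal_def]
  rw [integral_integral_swap (f := fun g p => u (g, p)) hui] at h4
  have h5 : ∀ j : Fin (n + 1), w / 2 ≤ (v (φ ⁻¹' {(j : ℕ)})).toReal := by
    intro j
    set A := φ ⁻¹' {(j : ℕ)} ∩ nbh with hA
    have hAm : MeasurableSet A := (hφ (measurableSet_singleton _)).inter hnbm
    have hAv : β / 4 * V ≤ (v A).toReal := by
      have h6 : v (φ ⁻¹' {(j : ℕ)}) ≤ v A + v nbhᶜ := by
        refine (measure_mono ?_).trans (measure_union_le A nbhᶜ)
        intro x hx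
        by_cases h : x ∈ nbh
        · exact Or.inl ⟨hx, h⟩
        · exact Or.inr h
      have h7 : v nbhᶜ ≤ ENNReal.ofReal (ε * V) :=
        (measure_mono (compl_subset_compl.mpr fun p hp => nb_of_good hB hp)).trans hgood
      have h8 := ENNReal.toReal_mono (ENNReal.add_ne_top.mpr ⟨measure_ne_top _ _,
        measure_ne_top _ _⟩) h6
      rw [ENNReal.toReal_add (measure_ne_top _ _) (measure_ne_top _ _)] at h8
      have h9 := ENNReal.toReal_mono ENNReal.ofReal_ne_top h7
      rw [ENNReal.toReal_ofReal (mul_nonneg hε hV.le)] at h9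
      have h10 := h2 j
      have h11 : ε * V ≤ β / 4 * V := mul_le_mul_of_nonneg_right hεβ hV.le
      linarith
    obtain ⟨p, hp, hpw⟩ : ∃ p ∈ A, ∫ g, u (g, p) ∂haar ≤ w / 2 := by
      by_contra hcon
      push Not at hcon
      have h6 : Integrable (fun p => ∫ g, u (g, p) ∂haar) (v.restrict nbh) :=
        hui.integral_prod_right
      have h7 : ∫ p in A, (∫ g, u (g, p) ∂haar) ∂v ≤ ∫ p in nbh, (∫ g, u (g, p) ∂haar) ∂v :=
        setIntegral_mono_set h6 (Eventually.of_forall fun p => integral_nonneg fun g =>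
          dst_nonneg _ _) (Eventually.of_forall fun p hp => hp.2)
      have h8 : ∫ _p in A, w / 2 ∂v ≤ ∫ p in A, (∫ g, u (g, p) ∂haar) ∂v :=
        setIntegral_mono_on (integrable_const _) (h6.mono_measure
          (Measure.restrict_mono inter_subset_right le_rfl)) hAm fun p hp => (hcon p hp).le
      rw [setIntegral_const, smul_eq_mul, measureReal_def] at h8
      have h9 : β / 4 * V * (w / 2) ≤ (v A).toReal * (w / 2) :=
        mul_le_mul_of_nonneg_right hAv (by positivity)
      have h10 : w * (δ * V) ≤ w * (β / 16 * V) := by gcongr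
      have h11 : 0 < β * V * w := by positivity
      nlinarith
    have hcont : Continuous (fun g : G => S.act g p) := by
      rw [← continuousOn_univ]
      exact S.continuousOn_act.comp ((continuous_id.prodMk continuous_const).continuousOn)
        fun g _ => hdom p hp.2 g
    set T : Set G := (fun g => φ (S.act g p)) ⁻¹' {(j : ℕ)} with hT
    have hTm : MeasurableSet T := (hφ.comp hcont.measurable) (measurableSet_singleton _)
    have hpj : φ p = j := hp.1
    have h6 : ∫ g, u (g, p) ∂haar = (haar Tᶜ).toReal := by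
      have h7 : (fun g => u (g, p)) = Tᶜ.indicator (fun _ => (1:ℝ)) := by
        funext g
        simp only [hu]
        rw [hpj]
        by_cases h : g ∈ T
        · rw [indicator_of_notMem (fun h' : g ∈ Tᶜ => h' h)]
          have h8 : φ (S.act g p) = j := h
          unfold dst
          rw [if_pos h8]
        · rw [indicator_of_mem h]
          have h8 : φ (S.act g p) ≠ j := h
          unfold dst
          rw [if_neg h8]
      rw [h7, integral_indicator_const _ hTm.compl, smul_eq_mul, mul_one, measureReal_def]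
    have h7 : w = (haar T).toReal + (haar Tᶜ).toReal := by
      rw [← ENNReal.toReal_add (measure_ne_top _ _) (measure_ne_top _ _),
        measure_add_measure_compl hTm]
    have h8 : (haar T).toReal ≤ (v (φ ⁻¹' {(j : ℕ)})).toReal := by
      refine ENNReal.toReal_mono (measure_ne_top _ _) ?_
      rw [← vol_orb hB hv hp.2 (fun g _ => hR11 g) hTm]
      refine measure_mono ?_
      rintro _ ⟨g, hg, rfl⟩
      exact hg
    rw [h6] at hpw
    linarith
  have h6 : ∑ j : Fin (n + 1), v (φ ⁻¹' {(j : ℕ)}) ≤ v univ := by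
    rw [← measure_biUnion_finset]
    · exact measure_mono (subset_univ _)
    · intro i _ j _ hij
      refine Disjoint.preimage φ ?_
      rw [Set.disjoint_singleton]
      exact fun h => hij (Fin.ext h)
    · exact fun j _ => hφ (measurableSet_singleton _)
  have h7 := ENNReal.toReal_mono (measure_ne_top _ _) h6
  rw [ENNReal.toReal_sum fun j _ => measure_ne_top _ _] at h7
  have h8 : ∑ _j : Fin (n + 1), w / 2 ≤ ∑ j : Fin (n + 1), (v (φ ⁻¹' {(j : ℕ)})).toReal :=
    Finset.sum_le_sum fun j _ => h5 j
  rw [Finset.sum_const, Finset.card_univ, Fintype.card_fin, nsmul_eq_mul] at h8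
  push_cast at h8
  linarith

end neg

section neg2

variable {G : Type} [Group G] [TopologicalSpace G] [IsTopologicalGroup G] [T2Space G]
  [LocallyCompactSpace G] [SecondCountableTopology G]
  [MeasurableSpace G] [BorelSpace G] {haar : Measure G} [haar.IsHaarMeasure]
  [haar.IsMulRightInvariant] {t : ℝ≥0} {P : Measure (Measure G)}
  {M : ℕ → Type} [∀ i, TopologicalSpace (M i)] [∀ i, MeasurableSpace (M i)]
  [∀ i, BorelSpace (M i)] [∀ i, SecondCountableTopology (M i)] [∀ i, LocallyCompactSpace (M i)]
  [∀ i, T2Space (M i)] {S : ∀ i, LocalSpace G (M i)} {v : ∀ i, Measure (M i)}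

theorem logSep_empty {M Y : Type} [TopologicalSpace M] [MeasurableSpace M] [TopologicalSpace Y]
    [MeasurableSpace Y] (v : Measure M) (ρ : Y → Y → ℝ) (ε : ℝ) :
    logSep v ρ ε (∅ : Set (M → Y)) = ⊥ := by
  unfold logSep
  refine le_antisymm (iSup₂_le ?_) bot_le
  rintro s ⟨h1, h2, -⟩
  obtain ⟨x, hx⟩ := h1
  exact absurd (h2 hx) (notMem_empty x)

theorem law_num [CompactSpace G] (hP : IsPoisson haar t P) :
    P.map (cnt univ) = poissonMeasure (t * (haar univ).toNNReal) := by
  have h1 := hP.count univ MeasurableSet.univ isCompact_univ.measure_lt_top.ne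
  have h2 : (cnt univ : Measure G → ℕ) = (fun x : ℝ≥0∞ => ⌊x.toReal⌋₊) ∘ fun ω => ω univ := rfl
  have hm : Measurable (fun x : ℝ≥0∞ => ⌊x.toReal⌋₊) :=
    Nat.measurable_floor.comp ENNReal.measurable_toReal
  rw [h2, ← Measure.map_map hm (Measure.measurable_coe MeasurableSet.univ), h1,
    Measure.map_map hm measurable_from_top]
  have h3 : ((fun x : ℝ≥0∞ => ⌊x.toReal⌋₊) ∘ fun n : ℕ => (n : ℝ≥0∞)) = id := by
    funext n
    simp
  rw [h3, Measure.map_id]

/-- If the volumes are bounded, the number of points is a factor of entropy `-∞`. -/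
theorem neg_factor (hP : IsPoisson haar t P) (ht : t ≠ 0) (hS : IsSofic haar S v) {B : ℝ}
    (hBd : ∀ i, (v i univ).toReal ≤ B) :
    ∃ ν : ProbabilityMeasure ℕ, (ν : Measure ℕ) = P.map (cnt univ) ∧
      (∀ y, (ν : Measure ℕ) ≠ Measure.dirac y) ∧
      @soficEntropy G ℕ _ _ _ _ _ (trivAct G) M _ _ S v dst ν = ⊥ := by
  classical
  have hcomp : CompactSpace G := by
    by_contra h
    have := not_compactSpace_iff.mp h
    exact unbounded_of_noncompact hS ⟨B, hBd⟩
  obtain ⟨U, ε, hUo, hUm, hUu, hεa, hε0, hgood⟩ := hS.approx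
  have hεnn : ∀ i, 0 ≤ ε i := fun i => hεa.le_of_tendsto hε0 i
  have hUe : ∀ᶠ i in atTop, U i = univ := by
    obtain ⟨i0, hi0⟩ := isCompact_univ.elim_directed_cover U (fun i => (hUo i).1)
      (by rw [hUu]) (hUm.directed_le)
    filter_upwards [eventually_ge_atTop i0] with i hi
    exact eq_univ_of_univ_subset (hi0.trans (hUm hi))
  have hhaar : haar univ ≠ ⊤ := isCompact_univ.measure_lt_top.ne
  have hhaar0 : haar univ ≠ 0 := (isOpen_univ.measure_pos haar univ_nonempty).ne'
  have hw : 0 < (haar univ).toReal := ENNReal.toReal_pos hhaar0 hhaar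
  obtain ⟨n, hn⟩ := exists_nat_gt (B / ((haar univ).toReal / 2))
  rw [div_lt_iff₀ (by positivity)] at hn
  set r := t * (haar univ).toNNReal with hr
  have hr0 : 0 < r := by
    refine mul_pos (pos_iff_ne_zero.mpr ht) ?_
    exact ENNReal.toNNReal_pos hhaar0 hhaar
  have hprob := hP.isProb
  have hcm : Measurable (cnt univ : Measure G → ℕ) := measurable_cnt MeasurableSet.univ
  set ν : ProbabilityMeasure ℕ := ⟨P.map (cnt univ), Measure.isProbabilityMeasure_map
    hcm.aemeasurable⟩ with hν
  have hν1 : (ν : Measure ℕ) = P.map (cnt univ) := rfl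
  have hν2 : (ν : Measure ℕ) = poissonMeasure r := hν1.trans (law_num hP)
  obtain ⟨β, hβ, hβj⟩ : ∃ β > 0, ∀ j : Fin (n + 1), β ≤ (poissonMeasure r).real {(j : ℕ)} := by
    refine ⟨Finset.univ.inf' ⟨0, Finset.mem_univ _⟩ (fun j : Fin (n + 1) =>
      (poissonMeasure r).real {(j : ℕ)}), ?_, fun j => Finset.inf'_le _ (Finset.mem_univ j)⟩
    rw [gt_iff_lt, Finset.lt_inf'_iff]
    exact fun j _ => poissonMeasure_real_singleton_pos _ hr0
  set O : Set (ProbabilityMeasure ℕ) := {κ | ∀ j : Fin (n + 1),
    β / 2 < (κ : Measure ℕ).real {(j : ℕ)}} with hO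
  have hOo : IsOpen O := by
    rw [hO, ofPred_forall]
    refine isOpen_iInter_of_finite fun j => ?_
    refine isOpen_lt continuous_const ?_
    let f : BoundedContinuousFunction ℕ ℝ := BoundedContinuousFunction.ofNormedAddCommGroupDiscrete
      (({(j : ℕ)} : Set ℕ).indicator (fun _ => (1:ℝ))) 1 (fun x => by
        by_cases h : x ∈ ({(j : ℕ)} : Set ℕ)
        · rw [indicator_of_mem h]; simp
        · rw [indicator_of_notMem h]; simp)
    have h1 : (fun κ : ProbabilityMeasure ℕ => (κ : Measure ℕ).real {(j : ℕ)}) =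
        fun κ : ProbabilityMeasure ℕ => ∫ x, f x ∂(κ : Measure ℕ) := by
      funext κ
      show _ = ∫ x, ({(j : ℕ)} : Set ℕ).indicator (fun _ => (1:ℝ)) x ∂(κ : Measure ℕ)
      rw [integral_indicator_const _ (measurableSet_singleton _), smul_eq_mul, mul_one]
    rw [h1]
    refine continuous_iff_continuousAt.mpr fun κ0 => ?_
    exact (ProbabilityMeasure.tendsto_iff_forall_integral_tendsto.mp tendsto_id) f
  have hνO : ν ∈ O := by
    intro j
    rw [hν2]
    exact (by linarith : β / 2 < β).trans_le (hβj j)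
  have hnt : ∀ y, (ν : Measure ℕ) ≠ Measure.dirac y := by
    intro y hy
    have h1 : (poissonMeasure r).real {y + 1} = 0 := by
      rw [← hν2, hy, measureReal_def, Measure.dirac_apply' _ (measurableSet_singleton _)]
      simp
    exact absurd h1 (poissonMeasure_real_singleton_pos _ hr0).ne'
  let _ : MulAction G ℕ := trivAct G
  refine ⟨ν, hν1, hnt, le_antisymm ?_ bot_le⟩
  unfold soficEntropy
  refine iSup₂_le fun e he => ?_
  refine iInf₂_le_of_le O ⟨hOo, hνO⟩ ?_
  refine iInf₂_le_of_le univ ⟨isOpen_univ, isCompact_univ.closure_of_subset (subset_univ _)⟩ ?_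
  refine iInf₂_le_of_le (β / 16) (by show 0 < β / 16; positivity) ?_
  refine limsup_le_of_le (by isBoundedDefault) ?_
  filter_upwards [hUe, hε0.eventually_lt_const (by positivity : 0 < β / 4)] with i hi hεi
  have hfin : IsFiniteMeasure (v i) := ⟨lt_top_iff_ne_top.mpr (hS.fin i)⟩
  have hV : 0 < (v i univ).toReal := ENNReal.toReal_pos (hS.pos i) (hS.fin i)
  have hgi := hgood i
  rw [hi] at hgi
  have hem : Map (S i) (v i) dst univ (β / 16) O = ∅ := by
    rw [eq_empty_iff_forall_notMem]
    rintro φ ⟨hφ, h1, κ, hκO, hκ⟩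
    refine map_empty (hS.isVol i) hβ (n := n) ?_ (hεnn i) ?_ hεi.le (le_refl _) hV hφ
      (fun g => h1 g (mem_univ g)) ?_
    · exact (hBd i).trans_lt (hn.trans_le (by nlinarith))
    · refine hgi.trans (le_of_eq ?_)
      rw [ENNReal.ofReal_mul (hεnn i), ENNReal.ofReal_toReal (hS.fin i)]
    · intro j
      have h2 := hκO j
      rw [hκ, measureReal_def, Measure.smul_apply, Measure.map_apply hφ
        (measurableSet_singleton _), smul_eq_mul, ENNReal.toReal_mul, ENNReal.toReal_inv,
        inv_mul_eq_div, lt_div_iff₀ hV] at h2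
      exact h2
  rw [hem, logSep_empty, EReal.bot_div_of_pos_ne_top (by exact_mod_cast hV) (EReal.coe_ne_top _)]

/-- the discrete metric is generating for the trivial action -/
theorem generating_dst : @IsGenerating G ℕ _ _ (trivAct G) dst := by
  let _ : MulAction G ℕ := trivAct G
  have hsm : ∀ (g : G) (k : ℕ), g • k = k := fun _ _ => rfl
  refine ⟨?_, ?_, ?_, ⟨1, dst_le⟩, continuous_of_discreteTopology, ?_⟩
  · intro x
    simp [dst]
  · intro x y
    unfold dst
    by_cases h : x = y
    · rw [h]
    · rw [if_neg h, if_neg (Ne.symm h)]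
  · intro x y z
    unfold dst
    by_cases h : x = z
    · rw [if_pos h]
      split_ifs <;> norm_num
    · rw [if_neg h]
      by_cases h1 : x = y
      · have h2 : y ≠ z := fun h3 => h (h1.trans h3)
        rw [if_pos h1, if_neg h2]
        norm_num
      · rw [if_neg h1]
        split_ifs <;> norm_num
  · intro x y hxy
    refine ⟨1, ?_⟩
    rw [hsm, hsm]
    unfold dst
    rw [if_neg hxy]
    norm_num

theorem not_cpe (hP : IsPoisson haar t P) (ht : t ≠ 0) (hS : IsSofic haar S v) {B : ℝ}
    (hBd : ∀ i, (v i univ).toReal ≤ B) : ¬ HasCPE S v P := by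
  intro hcpe
  obtain ⟨ν, hν, hnt, hent⟩ := neg_factor hP ht hS hBd
  let _ : MulAction G ℕ := trivAct G
  have hsm : ∀ (g : G) (k : ℕ), g • k = k := fun _ _ => rfl
  have : ContinuousSMul G ℕ := ⟨by
    show Continuous (fun z : G × ℕ => z.2)
    exact continuous_snd⟩
  have h0 := hcpe ℕ (cnt univ) (measurable_cnt MeasurableSet.univ)
    (fun g => Eventually.of_forall fun ω => by
      rw [cnt_translate g MeasurableSet.univ, preimage_univ, hsm]) ν hν hnt dst generating_dst
  rw [hent] at h0
  exact absurd h0 (not_lt.mpr bot_le)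

/-- The Poisson point process has completely positive entropy if and only if the volumes of the
sofic approximation are unbounded. -/
theorem cpe_iff (hP : IsPoisson haar t P) (ht : t ≠ 0) (hS : IsSofic haar S v) :
    HasCPE S v P ↔ ¬ ∃ B : ℝ, ∀ i, (v i univ).toReal ≤ B := by
  constructor
  · rintro h ⟨B, hB⟩
    exact not_cpe hP ht hS hB h
  · intro h Y _ _ _ _ _ _ π hπ heq ν hν hnt ρ hρ
    exact entropy_pos hP ht hS h hπ heq hν hnt hρ

theorem cpe_of_noncompact [NoncompactSpace G] (hP : IsPoisson haar t P) (ht : t ≠ 0)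
    (hS : IsSofic haar S v) : HasCPE S v P :=
  (cpe_iff hP ht hS).mpr (unbounded_of_noncompact hS)

end neg2

end Pool.Agent.Y316.PC
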