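import Pool.Agent.Y316.PC.Conf

set_option autoImplicit false

/-!
# Invariance of the Poisson process and approximation of factor maps by cylinder functions
-/

namespace Pool.Agent.Y316.PC

open MeasureTheory Set Filter Topology ProbabilityTheory
open scoped ENNReal NNReal symmDiff

section inv

variable {G : Type} [Group G] [TopologicalSpace G] [IsTopologicalGroup G] [MeasurableSpace G]
  [BorelSpace G] [T2Space G] {haar : Measure G} {t : ℝ≥0} {P : Measure (Measure G)}

theorem psi_smul {X : Type} [MeasurableSpace X] (μ : Measure X) (t : ℝ≥0) (f : X → ℝ) :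
    psi (t • μ) f = t • psi μ f := by
  unfold psi
  rw [integral_smul_nnreal_measure]

theorem psi_translate [haar.IsMulLeftInvariant] {ι : Type} [Fintype ι] (A : ι → Set G) (s : ι → ℝ)
    (g : G) :
    psi (t • haar) (step (fun i => (fun x => g * x) ⁻¹' A i) s) = psi (t • haar) (step A s) := by
  rw [psi_smul, psi_smul]
  congr 1
  unfold psi
  exact integral_mul_left_eq_self (μ := haar)
    (fun x => Complex.exp (step A s x * Complex.I) - 1) g

theorem IsPoisson.isCnt [IsFiniteMeasureOnCompacts haar] (h : IsPoisson haar t P) : IsCnt P :=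
  fun _ hK => h.ae_cnt hK.measurableSet hK.measure_lt_top.ne

theorem measurable_translate (g : G) :
    Measurable (fun ω : Measure G => ω.map (fun x => g * x)) :=
  Measure.measurable_map _ (measurable_const_mul g)

theorem cnt_translate (g : G) {A : Set G} (hA : MeasurableSet A) (ω : Measure G) :
    cnt A (ω.map (fun x => g * x)) = cnt ((fun x => g * x) ⁻¹' A) ω := by
  unfold cnt
  rw [Measure.map_apply (measurable_const_mul g) hA]

theorem isCompact_preimage_mul (g : G) {K : Set G} (hK : IsCompact K) :
    IsCompact ((fun x => g * x) ⁻¹' K) := by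
  have h1 : (fun x => g * x) ⁻¹' K = (fun x => g⁻¹ * x) '' K := by
    ext x
    constructor
    · intro hx
      exact ⟨g * x, hx, by simp⟩
    · rintro ⟨y, hy, rfl⟩
      simpa using hy
  rw [h1]
  exact hK.image (continuous_const.mul continuous_id)

variable [SecondCountableTopology G] [LocallyCompactSpace G]

/-- The law of the Poisson point process is invariant under translations. -/
theorem IsPoisson.invariant [haar.IsMulLeftInvariant] [IsFiniteMeasureOnCompacts haar]
    (h : IsPoisson haar t P) (ht : t ≠ 0) (g : G) :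
    P.map (fun ω => ω.map (fun x => g * x)) = P := by
  have := h.isProb
  have hm := measurable_translate g
  have : IsProbabilityMeasure (P.map (fun ω : Measure G => ω.map (fun x => g * x))) :=
    Measure.isProbabilityMeasure_map hm.aemeasurable
  refine ext_of_cyl ?_ h.isCnt ?_
  · intro K hK
    have hB : MeasurableSet {ω : Measure G | ω K = (cnt K ω : ℝ≥0∞)} := by
      refine measurableSet_eq_fun (Measure.measurable_coe hK.measurableSet) ?_
      exact (measurable_from_top (f := fun n : ℕ => (n:ℝ≥0∞))).comp (measurable_cnt hK.measurableSet)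
    rw [ae_map_iff hm.aemeasurable hB]
    filter_upwards [h.isCnt _ (isCompact_preimage_mul g hK)] with ω hω
    rw [cnt_translate g hK.measurableSet, Measure.map_apply (measurable_const_mul g)
      hK.measurableSet]
    exact hω
  · intro ι _ K hK
    rw [Measure.map_map (measurable_cnt_vec fun i => (hK i).measurableSet) hm]
    have hprm := h.prm ht
    have hf : ∀ i, (t • haar) (K i) ≠ ⊤ := by
      intro i
      rw [Measure.smul_apply, ENNReal.smul_def]
      exact ENNReal.mul_ne_top (by simp) (hK i).measure_lt_top.ne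
    have hf' : ∀ i, (t • haar) ((fun x => g * x) ⁻¹' K i) ≠ ⊤ := by
      intro i
      rw [Measure.smul_apply, ENNReal.smul_def]
      exact ENNReal.mul_ne_top (by simp) (isCompact_preimage_mul g (hK i)).measure_lt_top.ne
    have h1 := hprm.law_eq hprm (A := fun i => (fun x => g * x) ⁻¹' K i) (A' := K)
      (fun i => (isCompact_preimage_mul g (hK i)).measurableSet) hf'
      (fun i => (hK i).measurableSet) hf (fun s => psi_translate K s g)
    rw [← h1]
    congr 1
    funext ω i
    exact cnt_translate g (hK i).measurableSet ω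

end inv

section approx

variable {G : Type} [TopologicalSpace G] [MeasurableSpace G] [BorelSpace G] [T2Space G]
  [SecondCountableTopology G] [LocallyCompactSpace G]

/-- approximation of a map by cylinder functions with finitely many values -/
theorem approx_map {Y : Type} [MetricSpace Y] [TopologicalSpace.SeparableSpace Y] [MeasurableSpace Y]
    [BorelSpace Y] [Nonempty Y] {Q : Measure (Measure G)} [IsProbabilityMeasure Q] (hQ : IsCnt Q)
    {π : Measure G → Y} (hπ : Measurable π) {η : ℝ} (hη : 0 < η) :
    ∃ (ι : Type) (_ : Fintype ι) (K : ι → Set G) (F : (ι → ℕ) → Y), (∀ i, IsCompact (K i)) ∧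
      (range F).Finite ∧
      Q {ω | η ≤ dist (π ω) (F (fun i => cnt (K i) ω))} ≤ ENNReal.ofReal η := by
  classical
  set y := TopologicalSpace.denseSeq Y with hy
  set E : ℕ → Set (Measure G) := fun k => π ⁻¹' (Metric.ball (y k) η) with hE
  have hEm : ∀ k, MeasurableSet (E k) := fun k => hπ Metric.isOpen_ball.measurableSet
  have hEu : ⋃ k, E k = univ := by
    rw [eq_univ_iff_forall]
    intro ω
    obtain ⟨k, hz⟩ := (TopologicalSpace.denseRange_denseSeq Y).exists_mem_open Metric.isOpen_ball
      (Metric.nonempty_ball.mpr hη : (Metric.ball (π ω) η).Nonempty)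
    rw [mem_iUnion]
    refine ⟨k, ?_⟩
    show π ω ∈ Metric.ball (y k) η
    rw [Metric.mem_ball, dist_comm]
    exact hz
  -- finitely many balls are enough
  obtain ⟨r, hr⟩ : ∃ r : ℕ, Q (⋃ k ∈ Finset.range r, E k)ᶜ ≤ ENNReal.ofReal (η / 2) := by
    have h1 : Tendsto (fun r : ℕ => Q (⋃ k ∈ Finset.range r, E k)ᶜ) atTop
        (𝓝 (Q (⋂ r : ℕ, (⋃ k ∈ Finset.range r, E k)ᶜ))) := by
      refine tendsto_measure_iInter_atTop ?_ ?_ ⟨0, measure_ne_top _ _⟩
      · intro r
        exact (Finset.measurableSet_biUnion _ fun k _ => hEm k).compl.nullMeasurableSet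
      · intro r s hrs
        refine compl_subset_compl.mpr ?_
        refine biUnion_subset_biUnion_left ?_
        intro k hk
        simp only [Finset.coe_range, mem_Iio] at hk ⊢
        exact lt_of_lt_of_le hk hrs
    have h2 : (⋂ r : ℕ, (⋃ k ∈ Finset.range r, E k)ᶜ) = ∅ := by
      rw [← compl_iUnion, compl_empty_iff, eq_univ_iff_forall]
      intro ω
      have h3 : ω ∈ ⋃ k, E k := by rw [hEu]; trivial
      obtain ⟨k, hk⟩ := mem_iUnion.mp h3
      rw [mem_iUnion]
      exact ⟨k + 1, mem_biUnion (Finset.mem_coe.mpr (Finset.mem_range.mpr (Nat.lt_succ_self k))) hk⟩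
    rw [h2, measure_empty] at h1
    have h3 := (ENNReal.tendsto_nhds_zero.mp h1) (ENNReal.ofReal (η / 2)) (by positivity)
    exact h3.exists
  -- disjoint pieces
  set D : ℕ → Set (Measure G) := disjointed E with hD
  have hDm : ∀ k, MeasurableSet (D k) := fun k => MeasurableSet.disjointed hEm k
  have hε : 0 < η / (2 * (r + 1)) := by positivity
  choose C hC hCε using fun k => exists_cyl hQ (hDm k) hε
  choose ι instι K hK T hT using hC
  set J := Σ k : Fin r, ι k with hJ
  letI : ∀ k : Fin r, Fintype (ι k) := fun k => instι k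
  set F : (J → ℕ) → Y := fun c => if h : ∃ k : Fin r, (fun i => c ⟨k, i⟩) ∈ T k then
    y (Classical.choose h : Fin r) else y 0 with hF
  refine ⟨J, inferInstance, fun j => K j.1 j.2, F, fun j => hK j.1 j.2, ?_, ?_⟩
  · refine ((Finset.range (r + 1)).image y).finite_toSet.subset ?_
    rintro _ ⟨c, rfl⟩
    rw [Finset.mem_coe, Finset.mem_image]
    by_cases h : ∃ k : Fin r, (fun i => c ⟨k, i⟩) ∈ T k
    · refine ⟨(Classical.choose h : Fin r), ?_, ?_⟩
      · rw [Finset.mem_range]
        exact (Classical.choose h).2.trans (Nat.lt_succ_self r)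
      · rw [hF]
        simp only [dif_pos h]
    · refine ⟨0, by simp, ?_⟩
      rw [hF]
      simp only [dif_neg h]
  · have hsub : {ω | η ≤ dist (π ω) (F (fun j : J => cnt (K j.1 j.2) ω))} ⊆
        (⋃ k ∈ Finset.range r, E k)ᶜ ∪ ⋃ k ∈ Finset.range r, (D k ∆ C k) := by
      intro ω hω
      by_contra hcon
      simp only [mem_union, mem_compl_iff, not_or, not_not] at hcon
      obtain ⟨h1, h2⟩ := hcon
      have h3 : ∀ k < r, (ω ∈ D k ↔ ω ∈ C k) := by
        intro k hk
        by_contra h4
        apply h2
        refine mem_biUnion (Finset.mem_coe.mpr (Finset.mem_range.mpr hk)) ?_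
        rw [Set.mem_symmDiff]
        tauto
      have h5 : ∃ k < r, ω ∈ D k := by
        have h6 : ∃ k, k < r ∧ ω ∈ E k := by
          simp only [mem_iUnion, Finset.mem_range, exists_prop] at h1
          exact h1
        refine ⟨Nat.find h6, (Nat.find_spec h6).1, ?_⟩
        rw [hD, disjointed_apply]
        refine ⟨(Nat.find_spec h6).2, ?_⟩
        intro h7
        simp only [Finset.sup_eq_iSup, Set.iSup_eq_iUnion, mem_iUnion, Finset.mem_Iio,
          exists_prop] at h7
        obtain ⟨j, hj, hj'⟩ := h7
        exact Nat.find_min h6 hj ⟨hj.trans (Nat.find_spec h6).1, hj'⟩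
      obtain ⟨k, hk, hkD⟩ := h5
      have h8 : ∃ k : Fin r, (fun i => (fun j : J => cnt (K j.1 j.2) ω) ⟨k, i⟩) ∈ T k := by
        refine ⟨⟨k, hk⟩, ?_⟩
        have h9 : ω ∈ C k := (h3 k hk).mp hkD
        rw [hT k] at h9
        exact h9
      have h10 : F (fun j : J => cnt (K j.1 j.2) ω) = y (Classical.choose h8 : Fin r) := by
        rw [hF]
        exact dif_pos h8
      have h11 : ω ∈ C (Classical.choose h8 : Fin r) := by
        rw [hT]
        exact Classical.choose_spec h8
      have h12 : ω ∈ E (Classical.choose h8 : Fin r) :=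
        disjointed_subset E _ ((h3 _ (Classical.choose h8).2).mpr h11)
      have h13 : η ≤ dist (π ω) (F (fun j : J => cnt (K j.1 j.2) ω)) := hω
      rw [h10] at h13
      exact absurd h12 (by
        show ¬ (dist (π ω) (y _) < η)
        exact not_lt.mpr h13)
    refine (measure_mono hsub).trans ((measure_union_le _ _).trans ?_)
    have h4 : Q (⋃ k ∈ Finset.range r, (D k ∆ C k)) ≤ ENNReal.ofReal (η / 2) := by
      refine (measure_biUnion_finset_le _ _).trans ?_
      refine (Finset.sum_le_sum fun k _ => (hCε k).le).trans ?_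
      rw [Finset.sum_const, Finset.card_range, nsmul_eq_mul, ← ENNReal.ofReal_natCast,
        ← ENNReal.ofReal_mul (by positivity)]
      refine ENNReal.ofReal_le_ofReal ?_
      have h5 : (0:ℝ) < r + 1 := by positivity
      rw [← mul_div_assoc, div_le_div_iff₀ (by positivity) (by norm_num)]
      nlinarith
    calc Q (⋃ k ∈ Finset.range r, E k)ᶜ + Q (⋃ k ∈ Finset.range r, (D k ∆ C k))
        ≤ ENNReal.ofReal (η / 2) + ENNReal.ofReal (η / 2) := add_le_add hr h4
      _ = ENNReal.ofReal η := by
          rw [← ENNReal.ofReal_add (by positivity) (by positivity)]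
          congr 1
          ring

end approx

end Pool.Agent.Y316.PC
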