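import Mathlib

set_option autoImplicit false
set_option linter.unusedSectionVars false

/-!
# An exponential bound and extraction of separated families
-/

namespace Pool.Agent.Y316.PC

open MeasureTheory Set Filter Topology
open scoped ENNReal NNReal

/-- extraction of a separated family -/
theorem extract {Ω : Type} [MeasurableSpace Ω] (Q : Measure Ω) [IsProbabilityMeasure Q]
    {A : Set Ω} (hA : MeasurableSet A) (hA2 : ENNReal.ofReal (1 / 2) ≤ Q A) {d : Ω → Ω → ℝ}
    (hd0 : ∀ x, d x x = 0) (hds : ∀ x y, d x y = d y x) (hdt : ∀ x y z, d x z ≤ d x y + d y z)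
    (hdm : Measurable (fun z : Ω × Ω => d z.1 z.2)) {e : ℝ} (he : 0 < e) {q : ℝ} (hq0 : 0 ≤ q)
    (hq : (Q.prod Q) {z | z.1 ∈ A ∧ z.2 ∈ A ∧ d z.1 z.2 < 2 * e} ≤ ENNReal.ofReal q) :
    ∀ n : ℕ, (n : ℝ) ^ 2 * (4 * q) < 1 → ∃ s : Finset Ω, s.card = n ∧ ↑s ⊆ A ∧
      ∀ x ∈ s, ∀ y ∈ s, x ≠ y → e ≤ d x y := by
  classical
  intro n
  induction n with
  | zero =>
    intro _
    exact ⟨∅, rfl, by simp, by simp⟩
  | succ n ih =>
    intro hn
    have hn' : (n : ℝ) ^ 2 * (4 * q) < 1 := by
      refine lt_of_le_of_lt ?_ hn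
      push_cast
      have h0 : (0:ℝ) ≤ n := Nat.cast_nonneg n
      have : (n:ℝ) ^ 2 ≤ (n + 1) ^ 2 := by nlinarith
      exact mul_le_mul_of_nonneg_right this (by positivity)
    obtain ⟨s, hs, hsA, hsep⟩ := ih hn'
    have key : ∃ x ∈ A, ∀ y ∈ s, e ≤ d y x := by
      by_contra hcon
      push Not at hcon
      have hB : ∀ y, MeasurableSet {x | x ∈ A ∧ d y x < e} := by
        intro y
        have h1 : Measurable (fun x => d y x) := hdm.comp (measurable_const.prodMk measurable_id)
        exact hA.inter (measurableSet_lt h1 measurable_const)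
      have hQB : ∀ y, (Q.real {x | x ∈ A ∧ d y x < e}) ≤ Real.sqrt q := by
        intro y
        apply Real.le_sqrt_of_sq_le
        have h1 : {x | x ∈ A ∧ d y x < e} ×ˢ {x | x ∈ A ∧ d y x < e} ⊆
            {z : Ω × Ω | z.1 ∈ A ∧ z.2 ∈ A ∧ d z.1 z.2 < 2 * e} := by
          rintro ⟨x, x'⟩ ⟨⟨hx, hx2⟩, ⟨hx', hx2'⟩⟩
          refine ⟨hx, hx', ?_⟩
          have h2 := hdt x y x'
          rw [hds x y] at h2
          dsimp only at h2 hx2 hx2' ⊢
          linarith
        have h2 := (measure_mono h1).trans hq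
        rw [Measure.prod_prod] at h2
        have h3 := ENNReal.toReal_mono ENNReal.ofReal_ne_top h2
        rw [ENNReal.toReal_ofReal hq0, ENNReal.toReal_mul] at h3
        rw [measureReal_def, pow_two]
        exact h3
      have hcov : A ⊆ ⋃ y ∈ s, {x | x ∈ A ∧ d y x < e} := by
        intro x hx
        obtain ⟨y, hy, hyx⟩ := hcon x hx
        exact mem_biUnion (Finset.mem_coe.mpr hy) ⟨hx, hyx⟩
      have h1 : Q.real A ≤ ∑ y ∈ s, Q.real {x | x ∈ A ∧ d y x < e} :=
        (measureReal_mono hcov (measure_ne_top _ _)).trans (measureReal_biUnion_finset_le _ _)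
      have h2 : Q.real A ≤ n * Real.sqrt q := by
        refine h1.trans ((Finset.sum_le_sum fun y _ => hQB y).trans ?_)
        rw [Finset.sum_const, hs, nsmul_eq_mul]
      have h3 : 1 / 2 ≤ Q.real A := by
        rw [measureReal_def]
        have := ENNReal.toReal_mono (measure_ne_top _ _) hA2
        rwa [ENNReal.toReal_ofReal (by norm_num)] at this
      have h4 : (1:ℝ) / 2 ≤ n * Real.sqrt q := h3.trans h2
      have h5 : (1 / 2 : ℝ) ^ 2 ≤ (n * Real.sqrt q) ^ 2 := pow_le_pow_left₀ (by norm_num) h4 2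
      rw [mul_pow, Real.sq_sqrt hq0] at h5
      nlinarith
    obtain ⟨x, hxA, hx⟩ := key
    have hxs : x ∉ s := by
      intro h
      have := hx x h
      rw [hd0] at this
      linarith
    refine ⟨insert x s, ?_, ?_, ?_⟩
    · rw [Finset.card_insert_of_notMem hxs, hs]
    · intro y hy
      rw [Finset.mem_coe, Finset.mem_insert] at hy
      rcases hy with rfl | hy
      · exact hxA
      · exact hsA hy
    · intro y hy z hz hyz
      rw [Finset.mem_insert] at hy hz
      rcases hy with rfl | hy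
      · rcases hz with rfl | hz
        · exact absurd rfl hyz
        · rw [hds]
          exact hx z hz
      · rcases hz with rfl | hz
        · exact hx y hy
        · exact hsep y hy z hz hyz

theorem exp_neg_le {u : ℝ} (h0 : 0 ≤ u) (h1 : u ≤ 1) : Real.exp (-u) ≤ 1 - u / 2 := by
  have h2 := Real.add_one_le_exp u
  have h3 : 0 < Real.exp u := Real.exp_pos u
  rw [Real.exp_neg]
  have h4 : (Real.exp u)⁻¹ ≤ (1 + u)⁻¹ := inv_anti₀ (by linarith) (by linarith)
  refine h4.trans ?_
  rw [inv_le_iff_one_le_mul₀ (by linarith)]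
  nlinarith

section cher

variable {J : Type} [Fintype J] {X : J → Type} [∀ j, MeasurableSpace (X j)]
  (μ : ∀ j, Measure (X j)) [∀ j, IsProbabilityMeasure (μ j)]

/-- exponential moment of one summand -/
theorem exp_moment {X : Type} [MeasurableSpace X] (μ : Measure X) [IsProbabilityMeasure μ]
    {f : X → X → ℝ} (hf : Measurable (fun z : X × X => f z.1 z.2)) {D a : ℝ} (hD : 0 < D)
    (h0 : ∀ x y, 0 ≤ f x y) (h1 : ∀ x y, f x y ≤ D) (ha : a ≤ ∫ x, ∫ y, f x y ∂μ ∂μ) :
    ∫ x, ∫ y, Real.exp (-(f x y / D)) ∂μ ∂μ ≤ Real.exp (-(a / (2 * D))) := by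
  have hi : Integrable (fun z : X × X => f z.1 z.2) (μ.prod μ) := by
    refine Integrable.of_bound hf.aestronglyMeasurable D (Eventually.of_forall fun z => ?_)
    rw [Real.norm_eq_abs, abs_of_nonneg (h0 _ _)]
    exact h1 _ _
  have hi2 : Integrable (fun z : X × X => Real.exp (-(f z.1 z.2 / D))) (μ.prod μ) := by
    refine Integrable.of_bound (by fun_prop) 1 (Eventually.of_forall fun z => ?_)
    rw [Real.norm_eq_abs, abs_of_pos (Real.exp_pos _)]
    refine Real.exp_le_one_iff.mpr ?_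
    have := div_nonneg (h0 z.1 z.2) hD.le
    linarith
  rw [← integral_prod (fun z : X × X => Real.exp (-(f z.1 z.2 / D))) hi2]
  rw [← integral_prod (fun z : X × X => f z.1 z.2) hi] at ha
  have h2 : ∫ z : X × X, Real.exp (-(f z.1 z.2 / D)) ∂(μ.prod μ) ≤
      ∫ z : X × X, (1 - f z.1 z.2 / D / 2) ∂(μ.prod μ) := by
    refine integral_mono hi2 ((integrable_const _).sub ((hi.div_const D).div_const 2)) fun z => ?_
    exact exp_neg_le (div_nonneg (h0 _ _) hD.le) ((div_le_one hD).mpr (h1 _ _))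
  refine h2.trans ?_
  rw [integral_sub (integrable_const _) ((hi.div_const D).div_const 2), integral_div, integral_div]
  simp only [integral_const, probReal_univ, smul_eq_mul, mul_one]
  have h3 := Real.add_one_le_exp (-(a / (2 * D)))
  have h4 : a / (2 * D) ≤ (∫ z : X × X, f z.1 z.2 ∂(μ.prod μ)) / D / 2 := by
    rw [div_div, mul_comm D 2]
    gcongr
  linarith

/-- exponential bound for sums of functions of pairs of independent coordinates -/
theorem cher {f : ∀ j, X j → X j → ℝ} (hf : ∀ j, Measurable (fun z : X j × X j => f j z.1 z.2))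
    {D : ℝ} {a : J → ℝ} (hD : 0 < D) (h0 : ∀ j x y, 0 ≤ f j x y) (h1 : ∀ j x y, f j x y ≤ D)
    (ha : ∀ j, a j ≤ ∫ x, ∫ y, f j x y ∂(μ j) ∂(μ j)) (s : ℝ) :
    ((Measure.pi μ).prod (Measure.pi μ))
      {z : (∀ j, X j) × (∀ j, X j) | ∑ j, f j (z.1 j) (z.2 j) ≤ s} ≤
      ENNReal.ofReal (Real.exp (s / D - (∑ j, a j) / (2 * D))) := by
  set μp := Measure.pi μ with hμp
  set g : (∀ j, X j) × (∀ j, X j) → ℝ := fun z => ∏ j, Real.exp (-(f j (z.1 j) (z.2 j) / D))
    with hg
  have hgm : Measurable g := by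
    refine Finset.measurable_prod _ fun j _ => ?_
    have h2 : Measurable (fun z : (∀ j, X j) × (∀ j, X j) => f j (z.1 j) (z.2 j)) :=
      (hf j).comp (((measurable_pi_apply j).comp measurable_fst).prodMk
        ((measurable_pi_apply j).comp measurable_snd))
    fun_prop
  have hg0 : ∀ z, 0 ≤ g z := fun z => Finset.prod_nonneg fun j _ => (Real.exp_pos _).le
  have hg1 : ∀ z, g z ≤ 1 := by
    intro z
    refine Finset.prod_le_one (fun j _ => (Real.exp_pos _).le) fun j _ => ?_
    refine Real.exp_le_one_iff.mpr ?_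
    have := div_nonneg (h0 j (z.1 j) (z.2 j)) hD.le
    linarith
  have hgi : Integrable g (μp.prod μp) := by
    refine Integrable.of_bound hgm.aestronglyMeasurable 1 (Eventually.of_forall fun z => ?_)
    rw [Real.norm_eq_abs, abs_of_nonneg (hg0 z)]
    exact hg1 z
  have hE : ∫ z, g z ∂(μp.prod μp) ≤ Real.exp (-((∑ j, a j) / (2 * D))) := by
    rw [integral_prod _ hgi]
    have h2 : ∀ x : ∀ j, X j, ∫ y, g (x, y) ∂μp =
        ∏ j, ∫ y, Real.exp (-(f j (x j) y / D)) ∂(μ j) := by
      intro x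
      exact integral_fintype_prod_eq_prod (fun j (y : X j) => Real.exp (-(f j (x j) y / D)))
    simp only [h2]
    have h3 : ∫ x, ∏ j, ∫ y, Real.exp (-(f j (x j) y / D)) ∂(μ j) ∂μp =
        ∏ j, ∫ x, ∫ y, Real.exp (-(f j x y / D)) ∂(μ j) ∂(μ j) :=
      integral_fintype_prod_eq_prod (fun j (x : X j) =>
        ∫ y, Real.exp (-(f j x y / D)) ∂(μ j))
    rw [h3]
    have h4 : Real.exp (-((∑ j, a j) / (2 * D))) = ∏ j, Real.exp (-(a j / (2 * D))) := by
      rw [← Real.exp_sum]
      congr 1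
      rw [Finset.sum_neg_distrib, Finset.sum_div]
    rw [h4]
    refine Finset.prod_le_prod (fun j _ => ?_) fun j _ => ?_
    · exact integral_nonneg fun x => integral_nonneg fun y => (Real.exp_pos _).le
    · exact exp_moment (μ j) (hf j) hD (h0 j) (h1 j) (ha j)
  have h5 := mul_meas_ge_le_integral_of_nonneg (μ := μp.prod μp) (f := g)
    (Eventually.of_forall hg0) hgi (Real.exp (-(s / D)))
  have h6 : {z : (∀ j, X j) × (∀ j, X j) | ∑ j, f j (z.1 j) (z.2 j) ≤ s} ⊆
      {z | Real.exp (-(s / D)) ≤ g z} := by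
    intro z hz
    have hz' : ∑ j, f j (z.1 j) (z.2 j) ≤ s := hz
    show Real.exp (-(s / D)) ≤ g z
    simp only [hg]
    rw [← Real.exp_sum, Finset.sum_neg_distrib, ← Finset.sum_div]
    refine Real.exp_le_exp.mpr (neg_le_neg ?_)
    gcongr
  refine (measure_mono h6).trans ?_
  rw [← ENNReal.ofReal_toReal (measure_ne_top (μp.prod μp) _)]
  refine ENNReal.ofReal_le_ofReal ?_
  rw [← measureReal_def]
  have h7 : (μp.prod μp).real {z | Real.exp (-(s / D)) ≤ g z} ≤
      Real.exp (s / D) * Real.exp (-((∑ j, a j) / (2 * D))) := by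
    have h8 := h5.trans hE
    have h9 : Real.exp (s / D) * (Real.exp (-(s / D)) *
        (μp.prod μp).real {z | Real.exp (-(s / D)) ≤ g z}) ≤
        Real.exp (s / D) * Real.exp (-((∑ j, a j) / (2 * D))) :=
      mul_le_mul_of_nonneg_left h8 (Real.exp_pos _).le
    rwa [← mul_assoc, ← Real.exp_add, add_neg_cancel, Real.exp_zero, one_mul] at h9
  rwa [← Real.exp_add, ← sub_eq_add_neg] at h7

end cher

end Pool.Agent.Y316.PC
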