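import Pool.Agent.Y316.PC.Weak
import Pool.Agent.Y316.PC.Cher

set_option autoImplicit false
set_option linter.unusedSectionVars false

/-!
# Blocks
-/

namespace Pool.Agent.Y316.PC

open MeasureTheory Set Filter Topology ProbabilityTheory Pointwise
open scoped ENNReal NNReal symmDiff BoundedContinuousFunction

section greedy

variable {G M : Type} [Group G] [TopologicalSpace G] [IsTopologicalGroup G] [T2Space G]
  [MeasurableSpace G] [BorelSpace G] [TopologicalSpace M] [MeasurableSpace M] [BorelSpace M]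
  {S : LocalSpace G M} {R U : Set G} {haar : Measure G} [haar.IsMulRightInvariant]
  {v : Measure M}

/-- a large family of disjoint patches -/
theorem greedy (hB : Big R U) (hv : S.IsVol haar v) {V0 : Set G} (hV0 : IsCompact V0)
    (hVR : V0 ⊆ R ^ 2) : ∀ n : ℕ, (n : ℝ≥0∞) * haar (V0⁻¹ * V0) < v (S.good U) →
    ∃ p : Fin n → M, (∀ j, p j ∈ S.good U) ∧
      Pairwise (fun i j => Disjoint (orb S V0 (p i)) (orb S V0 (p j))) := by
  intro n
  induction n with
  | zero =>
    intro _
    exact ⟨Fin.elim0, fun j => j.elim0, fun i => i.elim0⟩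
  | succ n ih =>
    intro hn
    have hn' : (n : ℝ≥0∞) * haar (V0⁻¹ * V0) < v (S.good U) := by
      refine lt_of_le_of_lt ?_ hn
      gcongr
      exact Nat.le_succ n
    obtain ⟨p, hp, hd⟩ := ih hn'
    have hVV : V0⁻¹ * V0 ⊆ R ^ 4 := by
      rintro _ ⟨a, ha, b, hb, rfl⟩
      have h1 : a ∈ R ^ 2 := by
        have h2 := pw_inv hB.inv (hVR ha)
        rwa [inv_inv] at h2
      exact pw_mul h1 (hVR hb)
    have hVVm : MeasurableSet (V0⁻¹ * V0) := (hV0.inv.mul hV0).measurableSet
    have key : ∃ q ∈ S.good U, ∀ j, q ∉ orb S (V0⁻¹ * V0) (p j) := by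
      by_contra hcon
      push Not at hcon
      have h1 : S.good U ⊆ ⋃ j ∈ (Finset.univ : Finset (Fin n)), orb S (V0⁻¹ * V0) (p j) := by
        intro q hq
        obtain ⟨j, hj⟩ := hcon q hq
        exact mem_biUnion (Finset.mem_coe.mpr (Finset.mem_univ j)) hj
      have h2 : v (S.good U) ≤ n * haar (V0⁻¹ * V0) := by
        refine (measure_mono h1).trans ((measure_biUnion_finset_le _ _).trans ?_)
        have h3 : ∀ j ∈ (Finset.univ : Finset (Fin n)), v (orb S (V0⁻¹ * V0) (p j)) ≤
            haar (V0⁻¹ * V0) := fun j _ =>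
          (vol_orb hB hv (nb_of_good hB (hp j)) (hVV.trans (pw_mono hB.one' (by norm_num)))
            hVVm).le
        refine (Finset.sum_le_sum h3).trans ?_
        rw [Finset.sum_const, Finset.card_univ, Fintype.card_fin, nsmul_eq_mul]
      exact absurd hn' (not_lt.mpr h2)
    obtain ⟨q, hq, hqj⟩ := key
    have hq2 : ∀ j, Disjoint (orb S V0 (p j)) (orb S V0 q) := by
      intro j
      by_contra h
      rw [Set.not_disjoint_iff_nonempty_inter] at h
      exact hqj j (orb_inter hB (hVR.trans (pw_mono hB.one' (by norm_num)))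
        (nb_of_good hB (hp j)) (nb_of_good hB hq) h)
    refine ⟨Fin.cons q p, ?_, ?_⟩
    · intro j
      refine Fin.cases ?_ (fun j => ?_) j
      · exact hq
      · exact hp j
    · intro i j
      refine Fin.cases ?_ (fun i => ?_) i <;> refine Fin.cases ?_ (fun j => ?_) j
      · intro h
        exact absurd rfl h
      · intro _
        simp only [Fin.cons_zero, Fin.cons_succ]
        exact (hq2 j).symm
      · intro _
        simp only [Fin.cons_zero, Fin.cons_succ]
        exact hq2 i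
      · intro h
        simp only [Fin.cons_succ]
        exact hd (fun h' => h (by rw [h']))

end greedy

section mixture

variable {M J : Type} [MeasurableSpace M]

theorem mixture_one (v : Measure M) [IsFiniteMeasure v] (hV : v univ ≠ 0) (t : ℝ≥0)
    {B : Set M} (hB : MeasurableSet B) :
    ∃ ν : Measure M, IsProbabilityMeasure ν ∧
      (t * (v B).toNNReal) • ν = t • v.restrict B ∧ (v B ≠ 0 → ∀ᵐ x ∂ν, x ∈ B) := by
  by_cases h : v B = 0
  · refine ⟨(v univ)⁻¹ • v, ?_, ?_, fun h' => absurd h h'⟩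
    · constructor
      rw [Measure.smul_apply, smul_eq_mul, ENNReal.inv_mul_cancel hV (measure_ne_top _ _)]
    · rw [h, Measure.restrict_eq_zero.mpr h]
      simp
  · refine ⟨(v B)⁻¹ • v.restrict B, ?_, ?_, ?_⟩
    · constructor
      rw [Measure.smul_apply, Measure.restrict_apply_univ, smul_eq_mul,
        ENNReal.inv_mul_cancel h (measure_ne_top _ _)]
    · rw [mul_smul]
      congr 1
      ext A hA
      rw [Measure.smul_apply, Measure.smul_apply, smul_eq_mul, ENNReal.smul_def, smul_eq_mul,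
        ENNReal.coe_toNNReal (measure_ne_top _ _), ← mul_assoc,
        ENNReal.mul_inv_cancel h (measure_ne_top _ _), one_mul]
    · intro _
      exact Measure.ae_smul_measure (ae_restrict_mem hB) _

theorem ae_points (ν : Measure M) [IsProbabilityMeasure ν] (r : ℝ≥0) {B : Set M}
    (h : r = 0 ∨ ∀ᵐ x ∂ν, x ∈ B) : ∀ᵐ x ∂(mixd ν r), ∀ k < x.1, x.2 k ∈ B := by
  rcases h with h | h
  · have h1 : ∀ᵐ x ∂(mixd ν r), (x.1 : ℝ≥0∞) = 0 := by
      have h2 := lintegral_num_univ ν r
      rw [h, ENNReal.coe_zero] at h2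
      rw [h]
      rw [lintegral_eq_zero_iff (by fun_prop)] at h2
      exact h2
    filter_upwards [h1] with x hx k hk
    have h3 : x.1 = 0 := by exact_mod_cast hx
    omega
  · have h1 : ∀ᵐ y ∂(Measure.infinitePi (fun _ : ℕ => ν)), ∀ k, y k ∈ B := by
      rw [ae_all_iff]
      intro k
      have h2 := (measurePreserving_eval_infinitePi (fun _ : ℕ => ν) k).quasiMeasurePreserving
      exact h2.ae h
    have h2 : ∀ᵐ x ∂(mixd ν r), ∀ k, x.2 k ∈ B := by
      unfold mixd
      exact Measure.quasiMeasurePreserving_snd.ae h1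
    filter_upwards [h2] with x hx k _ using hx k

theorem num_eq_zero {x : ℕ × (ℕ → M)} {A : Set M} (h : ∀ k < x.1, x.2 k ∉ A) : num x A = 0 := by
  unfold num
  refine Finset.sum_eq_zero fun k hk => ?_
  rw [indicator_of_notMem (h k (Finset.mem_range.mp hk))]

/-- one block determines the count of its subsets -/
theorem numS_block [Fintype J] {B : J → Set M} (hBd : Pairwise (fun i j => Disjoint (B i) (B j)))
    {ω : J → ℕ × (ℕ → M)} (hω : ∀ j, ∀ k < (ω j).1, (ω j).2 k ∈ B j) {j : J} {A : Set M}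
    (hA : A ⊆ B j) : numS ω A = num (ω j) A := by
  unfold numS
  refine Finset.sum_eq_single j (fun i _ hij => ?_) (fun h => absurd (Finset.mem_univ j) h)
  refine num_eq_zero fun k hk hkA => ?_
  exact Set.disjoint_left.mp (hBd hij) (hω i k hk) (hA hkA)

theorem jm_num : Jm (fun (x : ℕ × (ℕ → M)) A => num x A) := by
  intro Rl hRl
  exact measurable_num_rel hRl

theorem prm_one {ν : Measure M} [IsProbabilityMeasure ν] {r : ℝ≥0} {μ : Measure M}
    (h : r • ν = μ) : PRM μ (mixd ν r) num := by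
  refine ⟨inferInstance, fun A hA => measurable_num hA, ?_⟩
  intro ι _ A s hA _
  rw [mixd_char ν r hA s, ← h, psi_smul_nn]
where
  psi_smul_nn : ∀ {f : M → ℝ} {ν : Measure M} {r : ℝ≥0}, psi (r • ν) f = (r : ℂ) * psi ν f := by
    intro f ν r
    unfold psi
    rw [integral_smul_nnreal_measure]
    rfl

end mixture

section blocklaw

variable {G M Ω : Type} [Group G] [TopologicalSpace G] [IsTopologicalGroup G] [T2Space G]
  [LocallyCompactSpace G] [SecondCountableTopology G]
  [MeasurableSpace G] [BorelSpace G] [TopologicalSpace M] [MeasurableSpace M] [BorelSpace M]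
  [SecondCountableTopology M] [LocallyCompactSpace M] [T2Space M] [MeasurableSpace Ω]
  {S : LocalSpace G M} {R U : Set G} {haar : Measure G} [haar.IsHaarMeasure]
  [haar.IsMulRightInvariant] {v : Measure M} [IsFiniteMeasure v] {t : ℝ≥0}
  {P : Measure (Measure G)} {Q : Measure Ω} {N : Ω → Set M → ℕ}

theorem psi_restrict {B : Set M} (hB : MeasurableSet B) {f : M → ℝ} (hf : ∀ x ∉ B, f x = 0) :
    psi (t • v.restrict B) f = psi (t • v) f := by
  rw [psi_smul, psi_smul]
  congr 1
  unfold psi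
  refine setIntegral_eq_integral_of_forall_compl_eq_zero fun x hx => ?_
  rw [hf x hx]
  simp

/-- the law of the counts inside one block -/
theorem law_block (hB : Big R U) (hv : S.IsVol haar v) (hP : IsPoisson haar t P) (ht : t ≠ 0)
    {ν : Measure M} [IsProbabilityMeasure ν] {r : ℝ≥0} {B : Set M} (hBm : MeasurableSet B)
    (hr : r • ν = t • v.restrict B) {ι : Type} [Fintype ι] {K : ι → Set G}
    (hK : ∀ i, IsCompact (K i)) (hKR : ∀ i, K i ⊆ R ^ 11) {p : M} (hp : p ∈ nb S R U)
    (hKB : ∀ i, orb S (K i) p ⊆ B) :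
    (mixd ν r).map (fun x => cv S R U num K x p) = P.map (fun ω => (fun i => cnt (K i) ω)) := by
  have hf : ∀ i, (t • haar) (K i) ≠ ⊤ := by
    intro i
    rw [Measure.smul_apply, ENNReal.smul_def]
    exact ENNReal.mul_ne_top (by simp) (hK i).measure_lt_top.ne
  have hf' : ∀ i, (t • v.restrict B) (orb S (K i) p) ≠ ⊤ := fun i => measure_ne_top _ _
  have h1 := (prm_one hr).law_eq (hP.prm ht) (A := fun i => orb S (K i) p) (A' := K)
    (fun i => measurableSet_orb hB (hK i) (hKR i) hp) hf' (fun i => (hK i).measurableSet) hf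
    (fun s => by
      rw [← psi_orb hB hv hK hKR hp s]
      refine psi_restrict hBm fun x hx => ?_
      unfold step
      refine Finset.sum_eq_zero fun i _ => ?_
      rw [indicator_of_notMem (fun h => hx (hKB i h)), mul_zero])
  rw [← h1]
  congr 1
  funext ω
  exact cv_of_nb hp ω

theorem double_law {Ω' ι : Type} [Fintype ι] [MeasurableSpace Ω'] {P' : Measure Ω'}
    {X : Ω → ι → ℕ} {X' : Ω' → ι → ℕ} (hX : Measurable X) (hX' : Measurable X')
    (h : Q.map X = P'.map X') (H : (ι → ℕ) → (ι → ℕ) → ℝ) :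
    ∫ x, ∫ y, H (X x) (X y) ∂Q ∂Q = ∫ x, ∫ y, H (X' x) (X' y) ∂P' ∂P' := by
  have hH : ∀ c, Measurable (H c) := fun c => Measurable.of_discrete
  have e1 : ∀ c, ∫ y, H c (X y) ∂Q = ∫ y, H c (X' y) ∂P' := by
    intro c
    rw [← integral_map hX.aemeasurable (hH c).aestronglyMeasurable, h,
      integral_map hX'.aemeasurable (hH c).aestronglyMeasurable]
  simp only [e1]
  have hH2 : Measurable (fun c : ι → ℕ => ∫ y, H c (X' y) ∂P') := Measurable.of_discrete
  rw [← integral_map (f := fun c => ∫ y, H c (X' y) ∂P') hX.aemeasurable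
    hH2.aestronglyMeasurable, h,
    integral_map (f := fun c => ∫ y, H c (X' y) ∂P') hX'.aemeasurable hH2.aestronglyMeasurable]

theorem jm_comp {Ω₂ : Type} [MeasurableSpace Ω₂] {ι : Type} {K : ι → Set G} (hB : Big R U)
    (hJ : Jm N) (hK : ∀ i, IsCompact (K i)) (hKR : ∀ i, K i ⊆ R ^ 11) {a : Ω₂ → M} {b : Ω₂ → Ω}
    (ha : Measurable a) (hb : Measurable b) :
    Measurable (fun z => cv S R U N K (b z) (a z)) :=
  (measurable_cv (S := S) hB hJ hK hKR).comp (ha.prodMk hb)

/-- the expected distance inside one block -/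
theorem mean_block (hB : Big R U) (hv : S.IsVol haar v) (hP : IsPoisson haar t P) (ht : t ≠ 0)
    {ν : Measure M} [IsProbabilityMeasure ν] {r : ℝ≥0} {B : Set M} (hBm : MeasurableSet B)
    (hr : r • ν = t • v.restrict B) {ι : Type} [Fintype ι] {K : ι → Set G}
    (hK : ∀ i, IsCompact (K i)) (hKR : ∀ i, K i ⊆ R ^ 11) {Z : Set M} (hZ : MeasurableSet Z)
    (hZn : Z ⊆ nb S R U) (hKB : ∀ p ∈ Z, ∀ i, orb S (K i) p ⊆ B)
    (H : (ι → ℕ) → (ι → ℕ) → ℝ) {D : ℝ} (hD : ∀ c c', |H c c'| ≤ D) :
    ∫ x, ∫ y, (∫ p in Z, H (cv S R U num K x p) (cv S R U num K y p) ∂v) ∂(mixd ν r) ∂(mixd ν r) =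
      (v Z).toReal * ∫ ω, ∫ ω', H (fun i => cnt (K i) ω) (fun i => cnt (K i) ω') ∂P ∂P := by
  set μ := mixd ν r with hμ
  have hHm : Measurable (fun z : (ι → ℕ) × (ι → ℕ) => H z.1 z.2) := Measurable.of_discrete
  have hint : ∀ (Ω₂ : Type) [MeasurableSpace Ω₂] (μ2 : Measure Ω₂) [IsFiniteMeasure μ2]
      (a : Ω₂ → M) (b c : Ω₂ → ℕ × (ℕ → M)), Measurable a → Measurable b → Measurable c →
      Integrable (fun z => H (cv S R U num K (b z) (a z)) (cv S R U num K (c z) (a z))) μ2 := by
    intro Ω₂ _ μ2 _ a b c ha hb hc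
    refine Integrable.of_bound ?_ D (Eventually.of_forall fun z => by
      rw [Real.norm_eq_abs]; exact hD _ _)
    exact (hHm.comp ((jm_comp hB jm_num hK hKR ha hb).prodMk
      (jm_comp hB jm_num hK hKR ha hc))).aestronglyMeasurable
  have e1 : ∀ x, ∫ y, (∫ p in Z, H (cv S R U num K x p) (cv S R U num K y p) ∂v) ∂μ =
      ∫ p in Z, (∫ y, H (cv S R U num K x p) (cv S R U num K y p) ∂μ) ∂v := by
    intro x
    exact integral_integral_swap (f := fun y p => H (cv S R U num K x p) (cv S R U num K y p))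
      (hint _ (μ.prod (v.restrict Z)) Prod.snd (fun _ => x) Prod.fst measurable_snd
        measurable_const measurable_fst)
  simp only [e1]
  have e2 : ∫ x, (∫ p in Z, (∫ y, H (cv S R U num K x p) (cv S R U num K y p) ∂μ) ∂v) ∂μ =
      ∫ p in Z, (∫ x, (∫ y, H (cv S R U num K x p) (cv S R U num K y p) ∂μ) ∂μ) ∂v := by
    refine integral_integral_swap
      (f := fun x p => ∫ y, H (cv S R U num K x p) (cv S R U num K y p) ∂μ) ?_
    have h1 := (hint _ ((μ.prod (v.restrict Z)).prod μ) (fun z => z.1.2) (fun z => z.1.1)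
      (fun z => z.2) (by fun_prop) (by fun_prop) (by fun_prop)).integral_prod_left
    exact h1
  rw [e2]
  have e3 : ∀ p ∈ Z, (∫ x, (∫ y, H (cv S R U num K x p) (cv S R U num K y p) ∂μ) ∂μ) =
      ∫ ω, ∫ ω', H (fun i => cnt (K i) ω) (fun i => cnt (K i) ω') ∂P ∂P := by
    intro p hp
    refine double_law (jm_comp hB jm_num hK hKR measurable_const measurable_id)
      (measurable_cnt_vec fun i => (hK i).measurableSet) ?_ H
    exact law_block hB hv hP ht hBm hr hK hKR (hZn hp) (hKB p hp)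
  rw [setIntegral_congr_fun hZ e3, setIntegral_const, smul_eq_mul, measureReal_def]

/-- the expected value of a local functional -/
theorem mean_int (hB : Big R U) (hv : S.IsVol haar v) (hP : IsPoisson haar t P) (ht : t ≠ 0)
    (hN : PRM (t • v) Q N) (hJ : Jm N) {ι : Type} [Fintype ι] {K : ι → Set G}
    (hK : ∀ i, IsCompact (K i)) (hKR : ∀ i, K i ⊆ R ^ 11) {Z : Set M} (hZ : MeasurableSet Z)
    (hZn : Z ⊆ nb S R U) (H : (ι → ℕ) → ℝ) {D : ℝ} (hD : ∀ c, |H c| ≤ D) :
    ∫ ω, (∫ p in Z, H (cv S R U N K ω p) ∂v) ∂Q =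
      (v Z).toReal * ∫ ω, H (fun i => cnt (K i) ω) ∂P := by
  have := hN.prob
  have hHm : Measurable H := Measurable.of_discrete
  rw [integral_integral_swap (f := fun ω p => H (cv S R U N K ω p))]
  · rw [setIntegral_congr_fun hZ fun p hp => integral_cv hB hv hP ht hN hK hKR (hZn hp) H,
      setIntegral_const, smul_eq_mul, measureReal_def]
  · refine Integrable.of_bound ?_ D (Eventually.of_forall fun z => by
      rw [Real.norm_eq_abs]; exact hD _)
    exact (hHm.comp (jm_comp hB hJ hK hKR measurable_snd measurable_fst)).aestronglyMeasurable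

/-- Markov's inequality for a local functional -/
theorem markov_int (hB : Big R U) (hv : S.IsVol haar v) (hP : IsPoisson haar t P) (ht : t ≠ 0)
    (hN : PRM (t • v) Q N) (hJ : Jm N) {ι : Type} [Fintype ι] {K : ι → Set G}
    (hK : ∀ i, IsCompact (K i)) (hKR : ∀ i, K i ⊆ R ^ 11) {Z : Set M} (hZ : MeasurableSet Z)
    (hZn : Z ⊆ nb S R U) (H : (ι → ℕ) → ℝ) {D : ℝ} (hD : ∀ c, H c ≤ D) (h0 : ∀ c, 0 ≤ H c)
    {c : ℝ} (hc0 : 0 < c) (hc : ∫ ω, H (fun i => cnt (K i) ω) ∂P ≤ c) (hZv : 0 < (v Z).toReal)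
    {k : ℝ} (hk : 0 < k) :
    Q {ω | k * c * (v Z).toReal ≤ ∫ p in Z, H (cv S R U N K ω p) ∂v} ≤ ENNReal.ofReal (1 / k) := by
  have := hN.prob
  have hHm : Measurable H := Measurable.of_discrete
  have hD' : ∀ c, |H c| ≤ D := fun c => by rw [abs_of_nonneg (h0 c)]; exact hD c
  have h1 := mean_int hB hv hP ht hN hJ hK hKR hZ hZn H hD'
  have hi : Integrable (fun ω => ∫ p in Z, H (cv S R U N K ω p) ∂v) Q := by
    have h2 : Integrable (fun z : Ω × M => H (cv S R U N K z.1 z.2)) (Q.prod (v.restrict Z)) := by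
      refine Integrable.of_bound ?_ D (Eventually.of_forall fun z => by
        rw [Real.norm_eq_abs]; exact hD' _)
      exact (hHm.comp (jm_comp hB hJ hK hKR measurable_snd measurable_fst)).aestronglyMeasurable
    exact h2.integral_prod_left
  have h3 := mul_meas_ge_le_integral_of_nonneg (μ := Q)
    (f := fun ω => ∫ p in Z, H (cv S R U N K ω p) ∂v)
    (Eventually.of_forall fun ω => integral_nonneg fun p => h0 _) hi (k * c * (v Z).toReal)
  rw [h1] at h3
  rw [← ENNReal.ofReal_toReal (measure_ne_top Q _)]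
  refine ENNReal.ofReal_le_ofReal ?_
  rw [← measureReal_def, le_div_iff₀ hk]
  have h4 : k * c * (v Z).toReal * Q.real {ω | k * c * (v Z).toReal ≤
      ∫ p in Z, H (cv S R U N K ω p) ∂v} ≤ (v Z).toReal * c :=
    h3.trans (mul_le_mul_of_nonneg_left hc hZv.le)
  have h5 : 0 < (v Z).toReal * c := mul_pos hZv hc0
  have h6 : ((v Z).toReal * c) * (Q.real {ω | k * c * (v Z).toReal ≤
      ∫ p in Z, H (cv S R U N K ω p) ∂v} * k) ≤ ((v Z).toReal * c) * 1 := by
    linarith
  exact le_of_mul_le_mul_left h6 h5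

end blocklaw

end Pool.Agent.Y316.PC
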