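import Pool.Agent.Y316.PC.GP

set_option autoImplicit false

/-!
# Cylinder sets of the configuration space
-/

namespace Pool.Agent.Y316.PC

open MeasureTheory Set Filter Topology ProbabilityTheory
open scoped ENNReal NNReal symmDiff

section cyl

variable {G : Type} [TopologicalSpace G] [MeasurableSpace G]

/-- cylinder sets: events which depend on the numbers of points in finitely many compact sets -/
def Cyl (G : Type) [TopologicalSpace G] [MeasurableSpace G] : Set (Set (Measure G)) :=
  {E | ∃ (ι : Type) (_ : Fintype ι) (K : ι → Set G), (∀ i, IsCompact (K i)) ∧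
    ∃ T : Set (ι → ℕ), E = {ω | (fun i => cnt (K i) ω) ∈ T}}

theorem isSetAlgebra_cyl : IsSetAlgebra (Cyl G) where
  empty_mem := ⟨PEmpty, inferInstance, fun i => i.elim, fun i => i.elim, ∅, by ext ω; simp⟩
  compl_mem := by
    rintro _ ⟨ι, _, K, hK, T, rfl⟩
    exact ⟨ι, inferInstance, K, hK, Tᶜ, rfl⟩
  union_mem := by
    rintro _ _ ⟨ι, _, K, hK, T, rfl⟩ ⟨κ, _, L, hL, T', rfl⟩
    refine ⟨ι ⊕ κ, inferInstance, Sum.elim K L, ?_,
      {c | (fun i => c (Sum.inl i)) ∈ T ∨ (fun i => c (Sum.inr i)) ∈ T'}, rfl⟩
    rintro (i | i)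
    · exact hK i
    · exact hL i

theorem measurable_cnt_vec {ι : Type} {K : ι → Set G} (hK : ∀ i, MeasurableSet (K i)) :
    Measurable (fun ω : Measure G => (fun i => cnt (K i) ω)) :=
  measurable_pi_lambda _ fun i => measurable_cnt (hK i)

variable [BorelSpace G] [T2Space G]

theorem measurableSet_cyl {E : Set (Measure G)} (hE : E ∈ Cyl G) : MeasurableSet E := by
  obtain ⟨ι, _, K, hK, T, rfl⟩ := hE
  exact (measurable_cnt_vec fun i => (hK i).measurableSet) (MeasurableSet.of_discrete (s := T))

/-- the counts of compact sets are integers -/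
def IsCnt (Q : Measure (Measure G)) : Prop :=
  ∀ K : Set G, IsCompact K → ∀ᵐ ω ∂Q, ω K = (cnt K ω : ℝ≥0∞)

variable [SecondCountableTopology G] [LocallyCompactSpace G]

theorem borel_eq_compact : borel G = MeasurableSpace.generateFrom {K : Set G | IsCompact K} := by
  apply le_antisymm
  · rw [borel_eq_generateFrom_isClosed]
    refine MeasurableSpace.generateFrom_le fun C hC => ?_
    have h1 : C = ⋃ n, (C ∩ compactCovering G n) := by
      rw [← inter_iUnion, iUnion_compactCovering, inter_univ]
    rw [h1]
    refine MeasurableSet.iUnion fun n => ?_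
    exact MeasurableSpace.measurableSet_generateFrom
      ((isCompact_compactCovering G n).inter_left hC)
  · refine MeasurableSpace.generateFrom_le fun K hK => ?_
    exact (MeasurableSpace.measurableSet_generateFrom (IsClosed.isOpen_compl (self := hK.isClosed))).of_compl

/-- modulo null sets, all measurable sets are generated by the cylinders -/
theorem giry_le {Q : Measure (Measure G)} (hQ : IsCnt Q) :
    (Measure.instMeasurableSpace : MeasurableSpace (Measure G)) ≤
      eventuallyMeasurableSpace (MeasurableSpace.generateFrom (Cyl G)) (ae Q) := by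
  set m0 := MeasurableSpace.generateFrom (Cyl G) with hm0
  set m1 := eventuallyMeasurableSpace m0 (ae Q) with hm1
  have hcnt : ∀ K : Set G, IsCompact K → Measurable[m0] (fun ω : Measure G => (cnt K ω : ℝ≥0∞)) := by
    intro K hK
    have h1 : Measurable[m0] (cnt K) := by
      refine @measurable_to_countable' _ _ _ _ m0 _ fun n => ?_
      refine MeasurableSpace.measurableSet_generateFrom ?_
      exact ⟨Unit, inferInstance, fun _ => K, fun _ => hK, {c | c () = n}, rfl⟩
    exact (measurable_from_top (f := fun n : ℕ => (n:ℝ≥0∞))).comp h1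
  have hcpt : ∀ K : Set G, IsCompact K → Measurable[m1] (fun ω : Measure G => ω K) := by
    intro K hK
    exact Measurable.eventuallyMeasurable_of_eventuallyEq (hcnt K hK) (hQ K hK)
  have hpi : IsPiSystem {K : Set G | IsCompact K} := fun K1 hK1 K2 hK2 _ => IsCompact.inter hK1 hK2
  have hinter : ∀ K : Set G, IsCompact K → ∀ B : Set G, MeasurableSet B →
      Measurable[m1] (fun ω : Measure G => ω (B ∩ K)) := by
    intro K hK B hB
    induction B, hB using MeasurableSpace.induction_on_inter
      (h_eq := (BorelSpace.measurable_eq (α := G)).trans borel_eq_compact) (h_inter := hpi) with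
    | empty =>
      simp only [empty_inter, measure_empty]
      exact measurable_const
    | basic C hC => exact hcpt _ (hC.inter hK)
    | compl C hC ih =>
      have h1 : (fun ω : Measure G => ω (Cᶜ ∩ K)) =ᵐ[Q] fun ω => ω K - ω (C ∩ K) := by
        filter_upwards [hQ K hK] with ω hω
        have h2 : Cᶜ ∩ K = K \ (C ∩ K) := by
          ext x
          simp only [mem_inter_iff, mem_compl_iff, Set.mem_sdiff]
          tauto
        rw [h2, measure_sdiff inter_subset_right (hC.inter hK.measurableSet).nullMeasurableSet]
        refine ne_top_of_le_ne_top ?_ (measure_mono (inter_subset_right (s := C) (t := K)))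
        rw [hω]
        exact ENNReal.natCast_ne_top _
      have h2 : Measurable[m1] (fun ω : Measure G => ω K - ω (C ∩ K)) := (hcpt K hK).sub ih
      exact EventuallyMeasurable.congr h2 h1
    | iUnion f hd hf ih =>
      have h1 : (fun ω : Measure G => ω ((⋃ i, f i) ∩ K)) = fun ω => ∑' i, ω (f i ∩ K) := by
        funext ω
        rw [iUnion_inter, measure_iUnion]
        · intro i j hij
          exact (hd hij).mono inter_subset_left inter_subset_left
        · intro i
          exact (hf i).inter hK.measurableSet
      rw [h1]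
      exact Measurable.ennreal_tsum ih
  have hall : ∀ B : Set G, MeasurableSet B → Measurable[m1] (fun ω : Measure G => ω B) := by
    intro B hB
    have h1 : (fun ω : Measure G => ω B) = fun ω => ⨆ n, ω (B ∩ compactCovering G n) := by
      funext ω
      have h2 : B = ⋃ n, (B ∩ compactCovering G n) := by
        rw [← inter_iUnion, iUnion_compactCovering, inter_univ]
      conv_lhs => rw [h2]
      rw [Monotone.measure_iUnion]
      intro n m hnm
      exact inter_subset_inter_right _ (compactCovering_subset G hnm)
    rw [h1]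
    exact Measurable.iSup fun n => hinter _ (isCompact_compactCovering G n) B hB
  have h2 : @Measurable _ _ m1 Measure.instMeasurableSpace (id : Measure G → Measure G) :=
    @Measure.measurable_of_measurable_coe _ _ _ m1 id fun s hs => hall s hs
  intro E hE
  exact h2 hE

/-- approximation by cylinders -/
theorem exists_cyl {Q : Measure (Measure G)} [IsFiniteMeasure Q] (hQ : IsCnt Q)
    {E : Set (Measure G)} (hE : MeasurableSet E) {ε : ℝ} (hε : 0 < ε) :
    ∃ C ∈ Cyl G, Q (E ∆ C) < ENNReal.ofReal ε := by
  obtain ⟨E', hE', hEE⟩ := giry_le hQ E hE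
  have hle : MeasurableSpace.generateFrom (Cyl G) ≤ Measure.instMeasurableSpace :=
    MeasurableSpace.generateFrom_le fun C hC => measurableSet_cyl hC
  have hfin : IsFiniteMeasure (Q.trim hle) := isFiniteMeasure_trim hle
  have hdense := @Measure.MeasureDense.of_generateFrom_isSetAlgebra_finite _
    (MeasurableSpace.generateFrom (Cyl G)) (Q.trim hle) (Cyl G) hfin isSetAlgebra_cyl rfl
  obtain ⟨C, hC, hCε⟩ := @Measure.MeasureDense.approx _ (MeasurableSpace.generateFrom (Cyl G))
    (Q.trim hle) (Cyl G) hdense E' hE' (measure_ne_top _ _) ε hε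
  refine ⟨C, hC, ?_⟩
  have h1 : MeasurableSet[MeasurableSpace.generateFrom (Cyl G)] (E' ∆ C) :=
    hE'.symmDiff (MeasurableSpace.measurableSet_generateFrom hC)
  rw [trim_measurableSet_eq hle h1] at hCε
  have h2 : (E ∆ C : Set (Measure G)) =ᵐ[Q] (E' ∆ C : Set (Measure G)) := by
    filter_upwards [hEE] with ω hω
    have h3 : (ω ∈ E) = (ω ∈ E') := hω
    have h4 : (ω ∈ E ∆ C) = (ω ∈ E' ∆ C) := by
      rw [Set.mem_symmDiff, Set.mem_symmDiff, h3]
    exact h4
  rwa [measure_congr h2]

/-- two random configurations with the same finite dimensional laws have the same law -/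
theorem ext_of_cyl {P1 P2 : Measure (Measure G)} [IsProbabilityMeasure P1]
    [IsProbabilityMeasure P2] (h1 : IsCnt P1) (h2 : IsCnt P2)
    (h : ∀ (ι : Type) [Fintype ι] (K : ι → Set G), (∀ i, IsCompact (K i)) →
      P1.map (fun ω => (fun i => cnt (K i) ω)) = P2.map (fun ω => (fun i => cnt (K i) ω))) :
    P1 = P2 := by
  have hQ : IsCnt (P1 + P2) := by
    intro K hK
    rw [ae_add_measure_iff]
    exact ⟨h1 K hK, h2 K hK⟩
  have hle : MeasurableSpace.generateFrom (Cyl G) ≤ Measure.instMeasurableSpace :=
    MeasurableSpace.generateFrom_le fun C hC => measurableSet_cyl hC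
  have hcyl : ∀ C ∈ Cyl G, P1 C = P2 C := by
    rintro _ ⟨ι, _, K, hK, T, rfl⟩
    have h3 := h ι K hK
    have h4 := congrArg (fun μ : Measure (ι → ℕ) => μ T) h3
    rw [Measure.map_apply (measurable_cnt_vec fun i => (hK i).measurableSet)
      MeasurableSet.of_discrete, Measure.map_apply
      (measurable_cnt_vec fun i => (hK i).measurableSet) MeasurableSet.of_discrete] at h4
    exact h4
  have htrim : P1.trim hle = P2.trim hle := by
    refine @ext_of_generate_finite _ (MeasurableSpace.generateFrom (Cyl G)) (P1.trim hle)
      (P2.trim hle) (Cyl G) rfl ?_ (isFiniteMeasure_trim hle) ?_ ?_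
    · rintro s hs t ht -
      exact isSetAlgebra_cyl.inter_mem hs ht
    · intro C hC
      rw [trim_measurableSet_eq hle (MeasurableSpace.measurableSet_generateFrom hC),
        trim_measurableSet_eq hle (MeasurableSpace.measurableSet_generateFrom hC)]
      exact hcyl C hC
    · rw [trim_measurableSet_eq hle MeasurableSet.univ, trim_measurableSet_eq hle MeasurableSet.univ,
        measure_univ, measure_univ]
  ext E hE
  obtain ⟨E', hE', hEE⟩ := giry_le hQ E hE
  have h3 : (E : Set (Measure G)) =ᵐ[P1] E' := (ae_mono (Measure.le_add_right le_rfl)) hEE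
  have h4 : (E : Set (Measure G)) =ᵐ[P2] E' := (ae_mono (Measure.le_add_left le_rfl)) hEE
  rw [measure_congr h3, measure_congr h4, ← trim_measurableSet_eq hle hE',
    ← trim_measurableSet_eq hle hE', htrim]

end cyl

end Pool.Agent.Y316.PC
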