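import Pool.Agent.Y316.PC.Pos

set_option autoImplicit false
set_option linter.unusedSectionVars false

/-!
# The main lower bound
-/

namespace Pool.Agent.Y316.PC

open MeasureTheory Set Filter Topology ProbabilityTheory Pointwise
open scoped ENNReal NNReal symmDiff BoundedContinuousFunction

/-- the choice of the number of patches and the number of maps -/
theorem numbers {V h h0 a D : ℝ} (hh : 0 < h) (hh0 : 0 < h0) (ha : 0 < a) (hD : 0 < D)
    (hV1 : 8 * h ≤ V) (hV2 : 512 * h * D / a ≤ V) :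
    ∃ m n : ℕ, m ≠ 0 ∧ n ≠ 0 ∧ (m : ℝ) * h ≤ V / 4 ∧
      4 * (h0 * a / (512 * h)) * V ≤ m * h0 * (a / 2) / 4 -
        2 * (16 * (2 * (a / 1024)) * (m * h0)) ∧
      (n : ℝ) ^ 2 * (4 * Real.exp (-(m * (a / 2) / (4 * D)))) < 1 ∧
      a / (512 * h * D) * V ≤ Real.log n := by
  have hVpos : 0 < V := by linarith [mul_pos (by norm_num : (0:ℝ) < 8) hh]
  set m := ⌊V / (4 * h)⌋₊ with hm
  have hm1 : (m : ℝ) ≤ V / (4 * h) := Nat.floor_le (by positivity)
  have hm2 : V / (4 * h) - 1 ≤ m := (Nat.sub_one_lt_floor _).le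
  have hm3 : V / (8 * h) ≤ m := by
    refine le_trans ?_ hm2
    have h1 : 1 ≤ V / (8 * h) := by
      rw [le_div_iff₀ (by positivity)]
      linarith
    have h2 : V / (4 * h) = 2 * (V / (8 * h)) := by
      field_simp
      ring
    linarith
  set x := V * a / (256 * h * D) with hx
  have hx2 : 2 ≤ x := by
    rw [hx, le_div_iff₀ (by positivity)]
    rw [div_le_iff₀ ha] at hV2
    linarith
  set n := ⌊Real.exp x⌋₊ with hn
  have hn1 : (n : ℝ) ≤ Real.exp x := Nat.floor_le (Real.exp_pos _).le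
  have hn2 : Real.exp x - 1 ≤ n := (Nat.sub_one_lt_floor _).le
  have hn3 : Real.exp (x / 2) ≤ n := by
    refine le_trans ?_ hn2
    have h1 : Real.exp x = Real.exp (x / 2) * Real.exp (x / 2) := by
      rw [← Real.exp_add]
      congr 1
      ring
    have h2 : 2 ≤ Real.exp (x / 2) := by
      have h3 := Real.add_one_le_exp (x / 2)
      linarith
    rw [h1]
    nlinarith
  have hm0 : m ≠ 0 := by
    intro hz
    rw [hz, Nat.cast_zero] at hm3
    have : 0 < V / (8 * h) := by positivity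
    linarith
  have hn0 : n ≠ 0 := by
    intro hz
    rw [hz, Nat.cast_zero] at hn3
    have := Real.exp_pos (x / 2)
    linarith
  refine ⟨m, n, hm0, hn0, ?_, ?_, ?_, ?_⟩
  · rw [le_div_iff₀ (by positivity)] at hm1
    linarith
  · have h1 : m * h0 * (a / 2) / 4 - 2 * (16 * (2 * (a / 1024)) * (m * h0)) =
        (h0 * a / 16) * m := by ring
    rw [h1]
    have h2 : 4 * (h0 * a / (512 * h)) * V = (h0 * a / 16) * (V / (8 * h)) := by
      field_simp
      ring
    rw [h2]
    exact mul_le_mul_of_nonneg_left hm3 (by positivity)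
  · have h1 : 4 * x ≤ m * (a / 2) / (4 * D) := by
      have h2 : 4 * x = (V / (8 * h)) * (a / 2) / (4 * D) := by
        rw [hx]
        field_simp
        ring
      rw [h2]
      gcongr
    have h2 : Real.exp (-(m * (a / 2) / (4 * D))) ≤ Real.exp (-(4 * x)) :=
      Real.exp_le_exp.mpr (by linarith)
    have h3 : (n : ℝ) ^ 2 ≤ Real.exp (2 * x) := by
      have h4 := pow_le_pow_left₀ (Nat.cast_nonneg n) hn1 2
      rwa [← Real.exp_nat_mul] at h4
    calc (n : ℝ) ^ 2 * (4 * Real.exp (-(m * (a / 2) / (4 * D))))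
        ≤ Real.exp (2 * x) * (4 * Real.exp (-(4 * x))) := by gcongr
      _ = 4 * Real.exp (-(2 * x)) := by
          rw [mul_left_comm, ← Real.exp_add]
          congr 2
          ring
      _ < 1 := by
          rw [Real.exp_neg, ← div_eq_mul_inv, div_lt_one (Real.exp_pos _)]
          have := Real.add_one_le_exp (2 * x)
          linarith
  · rw [Real.le_log_iff_exp_le (by exact_mod_cast Nat.pos_of_ne_zero hn0)]
    refine le_trans (le_of_eq ?_) hn3
    congr 1
    rw [hx]
    field_simp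
    ring

section core

variable {G : Type} [Group G] [TopologicalSpace G] [IsTopologicalGroup G] [T2Space G]
  [LocallyCompactSpace G] [SecondCountableTopology G]
  [MeasurableSpace G] [BorelSpace G] {haar : Measure G} [haar.IsHaarMeasure]
  [haar.IsMulRightInvariant] {t : ℝ≥0} {P : Measure (Measure G)}

/-- a compact symmetric neighbourhood -/
theorem exists_sym {X : Set G} (hX : IsCompact X) :
    ∃ R : Set G, IsCompact R ∧ R⁻¹ = R ∧ (1 : G) ∈ interior R ∧ X ⊆ interior R := by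
  obtain ⟨R1, hR1, hXR⟩ := exists_compact_superset (hX.union (isCompact_singleton (x := (1:G))))
  refine ⟨R1 ∪ R1⁻¹, hR1.union hR1.inv, ?_, ?_, ?_⟩
  · rw [Set.union_inv, inv_inv, union_comm]
  · exact interior_mono subset_union_left (hXR (Or.inr rfl))
  · exact (subset_union_left.trans hXR).trans (interior_mono subset_union_left)

variable {Y : Type} [MetricSpace Y] [CompleteSpace Y] [SecondCountableTopology Y]
  [MeasurableSpace Y] [BorelSpace Y] [Nonempty Y] [MulAction G Y] [ContinuousSMul G Y]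
  {M : ℕ → Type} [∀ i, TopologicalSpace (M i)] [∀ i, MeasurableSpace (M i)]
  [∀ i, BorelSpace (M i)] [∀ i, SecondCountableTopology (M i)] [∀ i, LocallyCompactSpace (M i)]
  [∀ i, T2Space (M i)] {S : ∀ i, LocalSpace G (M i)} {v : ∀ i, Measure (M i)}

theorem core (hP : IsPoisson haar t P) (ht : t ≠ 0) (hS : IsSofic haar S v)
    {π : Measure G → Y} (hπ : Measurable π)
    (heq : ∀ g : G, ∀ᵐ ω ∂P, π (ω.map (fun x => g * x)) = g • π ω)
    {νp : ProbabilityMeasure Y} (hνp : (νp : Measure Y) = P.map π)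
    (hnt : ∀ y, (νp : Measure Y) ≠ Measure.dirac y) {ρ : Y → Y → ℝ} (hρ : IsGenerating G ρ) :
    ∃ e : ℝ, 0 < e ∧ ∃ c : ℝ, 0 < c ∧ ∀ O : Set (ProbabilityMeasure Y), IsOpen O → νp ∈ O →
      ∀ U' : Set G, IsOpen U' → IsCompact (closure U') → ∀ δ : ℝ, 0 < δ →
        ∃ Vs : ℝ, ∀ᶠ i in atTop, Vs ≤ (v i univ).toReal →
          ((c * (v i univ).toReal : ℝ) : EReal) ≤
            logSep (v i) ρ e (Map (S i) (v i) ρ U' δ O) := by
  classical
  have hprob := hP.isProb
  rw [hνp] at hnt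
  obtain ⟨D', hD'⟩ := hρ.bounded
  set D := max D' 1 with hDd
  have hD : 0 < D := lt_of_lt_of_le one_pos (le_max_right _ _)
  have hρD : ∀ x y, ρ x y ≤ D := fun x y => (hD' x y).trans (le_max_left _ _)
  set a := ∫ ω, ∫ ω', ρ (π ω) (π ω') ∂P ∂P with had
  have ha : 0 < a := pos_mean hP ht hπ heq hnt hρ
  -- the fixed approximation
  obtain ⟨ι0, _, E0, F0, hE0, hF0, -, -, hF0c⟩ := fac_approx hP ht hπ heq hρ.continuous hρ.self
    hρ.symm hρ.triangle hρD (J := PEmpty) (fun j => j.elim) (C := ∅) isCompact_empty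
    (κ := a / 1024) (by positivity)
  have hF0m : Measurable (fun ω : Measure G => F0 (fun i => cnt (E0 i) ω)) :=
    (Measurable.of_discrete (f := F0)).comp (measurable_cnt_vec fun i => (hE0 i).measurableSet)
  have ha2 : a / 2 ≤ ∫ ω, ∫ ω', ρ (F0 (fun i => cnt (E0 i) ω)) (F0 (fun i => cnt (E0 i) ω'))
      ∂P ∂P := by
    have h1 := mean_approx hπ hF0m hρ.continuous hρ.nonneg hρ.symm hρ.triangle hρD hF0c
    rw [← had] at h1
    linarith
  obtain ⟨W0, hW0, hW0n⟩ := exists_compact_mem_nhds (1 : G)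
  have h1W : (1 : G) ∈ W0 := mem_of_mem_nhds hW0n
  set V0 : Set G := (⋃ i, (E0 i)⁻¹ * W0) ∪ W0 with hV0d
  have hV0 : IsCompact V0 := (isCompact_iUnion fun i => (hE0 i).inv.mul hW0).union hW0
  have hKV : ∀ i, (E0 i)⁻¹ * W0 ⊆ V0 := fun i =>
    (subset_iUnion (fun i => (E0 i)⁻¹ * W0) i).trans subset_union_left
  have hWV : W0 ⊆ V0 := subset_union_right
  have hW0pos : 0 < haar W0 := Measure.measure_pos_of_mem_nhds haar hW0n
  have hh0 : 0 < (haar W0).toReal := ENNReal.toReal_pos hW0pos.ne' hW0.measure_lt_top.ne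
  have hVVc : IsCompact (V0⁻¹ * V0) := hV0.inv.mul hV0
  have hWVV : W0 ⊆ V0⁻¹ * V0 := by
    intro w hw
    exact ⟨1, by rw [Set.mem_inv, inv_one]; exact hWV h1W, w, hWV hw, one_mul w⟩
  have hh : 0 < (haar (V0⁻¹ * V0)).toReal :=
    ENNReal.toReal_pos (hW0pos.trans_le (measure_mono hWVV)).ne' hVVc.measure_lt_top.ne
  set h := (haar (V0⁻¹ * V0)).toReal with hhd
  set h0 := (haar W0).toReal with hh0d
  refine ⟨h0 * a / (512 * h), by positivity, a / (512 * h * D), by positivity, ?_⟩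
  intro O hO hνO U' hU' hU'c δ hδ
  obtain ⟨Jf, _, f, η, hη, hfO⟩ := weak_nbhd hO hνO
  set κ := min (a / 1024) (min (δ / 8) (η / 8)) with hκd
  have hκ : 0 < κ := lt_min (by positivity) (lt_min (by positivity) (by positivity))
  obtain ⟨ι, _, E, F, hE, hF, hfa, hfb, hfc⟩ := fac_approx hP ht hπ heq hρ.continuous hρ.self
    hρ.symm hρ.triangle hρD f hU'c hκ
  have hFm : Measurable (fun ω : Measure G => F (fun i => cnt (E i) ω)) :=
    (Measurable.of_discrete (f := F)).comp (measurable_cnt_vec fun i => (hE i).measurableSet)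
  have hνf : ∀ j, ∫ y, f j y ∂(νp : Measure Y) = ∫ ω, f j (π ω) ∂P := by
    intro j
    rw [hνp, integral_map hπ.aemeasurable (f j).continuous.measurable.aestronglyMeasurable]
  have hfb1 : ∀ j, |∫ ω, f j (F (fun i => cnt (E i) ω)) ∂P - ∫ y, f j y ∂(νp : Measure Y)| ≤ κ := by
    intro j
    rw [hνf]
    exact hfb j
  have hρm : Measurable (fun z : Y × Y => ρ z.1 z.2) := hρ.continuous.measurable
  have hfc2 : ∫ ω, ρ (F (fun i => cnt (E i) ω)) (F0 (fun i => cnt (E0 i) ω)) ∂P ≤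
      2 * (a / 1024) := by
    have hint : ∀ (f g : Measure G → Y), Measurable f → Measurable g →
        Integrable (fun ω => ρ (f ω) (g ω)) P := by
      intro f g hf hg
      refine Integrable.of_bound (hρm.comp (hf.prodMk hg)).aestronglyMeasurable D
        (Eventually.of_forall fun x => ?_)
      rw [Real.norm_eq_abs, abs_of_nonneg (hρ.nonneg _ _)]
      exact hρD _ _
    have h1 : ∫ ω, ρ (F (fun i => cnt (E i) ω)) (F0 (fun i => cnt (E0 i) ω)) ∂P ≤
        ∫ ω, (ρ (π ω) (F (fun i => cnt (E i) ω)) + ρ (π ω) (F0 (fun i => cnt (E0 i) ω))) ∂P := by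
      refine integral_mono (hint _ _ hFm hF0m) ((hint _ _ hπ hFm).add (hint _ _ hπ hF0m))
        fun ω => ?_
      have h2 := hρ.triangle (F (fun i => cnt (E i) ω)) (π ω) (F0 (fun i => cnt (E0 i) ω))
      rw [hρ.symm (F (fun i => cnt (E i) ω)) (π ω)] at h2
      exact h2
    rw [integral_add (hint _ _ hπ hFm) (hint _ _ hπ hF0m)] at h1
    have h2 : κ ≤ a / 1024 := min_le_left _ _
    linarith
  set θ := δ / (8 * (D * (16 * t * Fintype.card ι) + 1)) with hθd
  have ht0 : (0:ℝ) ≤ t := t.2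
  have hθ : 0 < θ := by positivity
  have hθD : D * (16 * t * (Fintype.card ι * θ)) ≤ δ / 8 := by
    have h1 : D * (16 * t * (Fintype.card ι * θ)) = (D * (16 * t * Fintype.card ι)) * θ := by ring
    rw [h1, hθd]
    have h2 : 0 ≤ D * (16 * t * Fintype.card ι) := by positivity
    rw [← mul_div_assoc, div_le_div_iff₀ (by positivity) (by norm_num)]
    nlinarith
  obtain ⟨L, hLC, hnet⟩ := net (haar := haar) hU'c (fun i => (hE i).inv) hρ.continuous hρ.self hF
    hθ (by positivity : 0 < δ / 8)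
  -- the compact symmetric neighbourhood
  set X : Set G := (((⋃ i, (E i)⁻¹) ∪ ⋃ i, (E0 i)⁻¹) ∪ (V0 ∪ closure U')) with hXd
  have hX : IsCompact X := ((isCompact_iUnion fun i => (hE i).inv).union
    (isCompact_iUnion fun i => (hE0 i).inv)).union (hV0.union hU'c)
  obtain ⟨R, hRc, hRi, hR1, hXR⟩ := exists_sym hX
  have hER : ∀ i, (E i)⁻¹ ⊆ R := fun i => ((subset_iUnion (fun i => (E i)⁻¹) i).trans
    (subset_union_left.trans subset_union_left)).trans (hXR.trans interior_subset)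
  have hE0R : ∀ i, (E0 i)⁻¹ ⊆ R := fun i => ((subset_iUnion (fun i => (E0 i)⁻¹) i).trans
    (subset_union_right.trans subset_union_left)).trans (hXR.trans interior_subset)
  have hV0R : V0 ⊆ interior R := (subset_union_left.trans subset_union_right).trans hXR
  have hCR : closure U' ⊆ interior R := (subset_union_right.trans subset_union_right).trans hXR
  have hVR2 : V0 ⊆ R ^ 2 := by
    intro x hx
    refine pw_mono (interior_subset hR1) (by norm_num : 1 ≤ 2) ?_
    rw [pow_one]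
    exact interior_subset (hV0R hx)
  obtain ⟨U, ε, hUo, hUm, hUu, hεa, hε0, hgood⟩ := hS.approx
  have hεnn : ∀ i, 0 ≤ ε i := fun i => hεa.le_of_tendsto hε0 i
  have hRU : ∀ᶠ i in atTop, R ^ 12 ⊆ U i := by
    obtain ⟨i0, hi0⟩ := (isCompact_pw hRc 12).elim_directed_cover U (fun i => (hUo i).1)
      (by rw [hUu]; exact subset_univ _) (hUm.directed_le)
    filter_upwards [eventually_ge_atTop i0] with i hi
    exact hi0.trans (hUm hi)
  have hε1 : ∀ᶠ i in atTop, ε i < 1 / 2 := hε0.eventually_lt_const (by norm_num)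
  have hε2 : ∀ᶠ i in atTop, ε i < δ / (8 * D) := hε0.eventually_lt_const (by positivity)
  have hε3 : ∀ᶠ i in atTop, ∀ j, ε i < η / (8 * (‖f j‖ + 1)) := by
    rw [eventually_all]
    intro j
    exact hε0.eventually_lt_const (by positivity)
  refine ⟨max (max (8 * h) (512 * h * D / a))
    (max (16 * (L.card * ((2 * D) ^ 2 * (haar (R ^ 4)).toReal / (δ / 8) ^ 2)))
      (16 * ∑ j, (2 * ‖f j‖) ^ 2 * (haar (R ^ 4)).toReal / (η / 4) ^ 2)), ?_⟩
  filter_upwards [hRU, hε1, hε2, hε3] with i hi1 hi2 hi3 hi4 hVs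
  rw [max_le_iff, max_le_iff, max_le_iff] at hVs
  obtain ⟨⟨hV1, hV2⟩, hV3, hV4⟩ := hVs
  set V := (v i univ).toReal with hVd
  have hV : 0 < V := lt_of_lt_of_le (by positivity) hV1
  have hfin : IsFiniteMeasure (v i) := ⟨lt_top_iff_ne_top.mpr (hS.fin i)⟩
  have hBig : Big R (U i) := ⟨hR1, hRi, hRc, hi1⟩
  obtain ⟨m, n, hm, hn, hmh, hee, hnq, hlog⟩ := numbers hh hh0 ha hD hV1 hV2
  have hb : 0 ≤ ε i * V := mul_nonneg (hεnn i) hV.le
  have hgood' : v i ((S i).good (U i))ᶜ ≤ ENNReal.ofReal (ε i * V) := by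
    refine (hgood i).trans (le_of_eq ?_)
    rw [ENNReal.ofReal_mul (hεnn i), ENNReal.ofReal_toReal (hS.fin i)]
  have hmv : (m : ℝ≥0∞) * haar (V0⁻¹ * V0) < v i ((S i).good (U i)) := by
    have h1 : v i univ ≤ v i ((S i).good (U i)) + v i ((S i).good (U i))ᶜ := by
      rw [← union_compl_self ((S i).good (U i))]
      exact measure_union_le _ _
    have h2 := ENNReal.toReal_mono (ENNReal.add_ne_top.mpr ⟨measure_ne_top _ _,
      measure_ne_top _ _⟩) h1
    rw [ENNReal.toReal_add (measure_ne_top _ _) (measure_ne_top _ _)] at h2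
    have h3 := ENNReal.toReal_mono ENNReal.ofReal_ne_top hgood'
    rw [ENNReal.toReal_ofReal hb] at h3
    have h4 : ε i * V ≤ 1 / 2 * V := mul_le_mul_of_nonneg_right hi2.le hV.le
    have h5 : (m : ℝ) * h < (v i ((S i).good (U i))).toReal := by
      have h6 : V ≤ (v i ((S i).good (U i))).toReal + (v i ((S i).good (U i))ᶜ).toReal := h2
      linarith
    rw [← ENNReal.toReal_lt_toReal (ENNReal.mul_ne_top (ENNReal.natCast_ne_top m)
      hVVc.measure_lt_top.ne) (measure_ne_top _ _), ENNReal.toReal_mul, ENNReal.toReal_natCast]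
    exact h5
  have hDb : D * (ε i * V) ≤ δ / 8 * V := by
    rw [lt_div_iff₀ (by positivity)] at hi3
    have h1 : D * ε i ≤ δ / 8 := by linarith
    have h2 := mul_le_mul_of_nonneg_right h1 hV.le
    linarith
  have hfb2 : ∀ j, 2 * ‖f j‖ * (ε i * V) ≤ η / 4 * V := by
    intro j
    have h1 := hi4 j
    rw [lt_div_iff₀ (by positivity)] at h1
    have h2 : 2 * ‖f j‖ * ε i ≤ η / 4 := by nlinarith [hεnn i, norm_nonneg (f j)]
    have h3 := mul_le_mul_of_nonneg_right h2 hV.le
    linarith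
  have hc1 : L.card * ((2 * D) ^ 2 * (haar (R ^ 4)).toReal / ((δ / 8) ^ 2 * V)) ≤ 1 / 16 := by
    have h1 : L.card * ((2 * D) ^ 2 * (haar (R ^ 4)).toReal / ((δ / 8) ^ 2 * V)) =
        L.card * ((2 * D) ^ 2 * (haar (R ^ 4)).toReal / (δ / 8) ^ 2) / V := by
      rw [← div_div, ← mul_div_assoc]
    rw [h1, div_le_iff₀ hV]
    linarith
  have hc2 : ∑ j, (2 * ‖f j‖) ^ 2 * (haar (R ^ 4)).toReal / ((η / 4) ^ 2 * V) ≤ 1 / 16 := by
    have h1 : ∑ j, (2 * ‖f j‖) ^ 2 * (haar (R ^ 4)).toReal / ((η / 4) ^ 2 * V) =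
        (∑ j, (2 * ‖f j‖) ^ 2 * (haar (R ^ 4)).toReal / (η / 4) ^ 2) / V := by
      rw [Finset.sum_div]
      refine Finset.sum_congr rfl fun j _ => ?_
      rw [← div_div]
    rw [h1, div_le_iff₀ hV]
    linarith
  have key := level hBig (hS.isVol i) hP ht hV0 hVR2 hW0 (hWV.trans hV0R) hWV hh0 hm hmv hE hER
    hE0 hE0R hKV F F0 hD hρ.continuous hρ.self hρ.symm hρ.triangle hρD
    (subset_closure : U' ⊆ closure U') hLC hCR hθ hδ hnet hκ
    ((min_le_right _ _).trans (min_le_left _ _)) hfa hη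
    ((min_le_right _ _).trans (min_le_right _ _)) hfb1 hfO (κ0 := a / 1024) (by positivity) hfc2
    ha2 hb hgood' hV hDb hfb2 hθD hc1 hc2 (by positivity) hee hn hnq
  refine le_trans ?_ key
  exact EReal.coe_le_coe_iff.mpr hlog

end core

end Pool.Agent.Y316.PC
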