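import Mathlib

set_option autoImplicit false

/-!
# Poisson point processes and sofic entropy of locally compact groups: definitions
-/

namespace Pool.Agent.Y316.PC

open MeasureTheory Set Filter Topology
open scoped ENNReal NNReal

/-! ### Local `G`-spaces -/

/-- A local `G`-space: a continuous partial left action `(g, p) ↦ act g p`, defined on the open set
`dom` of `G × M` (the values of `act` outside `dom` are irrelevant). -/
structure LocalSpace (G M : Type) [Group G] [TopologicalSpace G] [TopologicalSpace M] where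
  dom : Set (G × M)
  act : G → M → M
  isOpen_dom : IsOpen dom
  continuousOn_act : ContinuousOn (fun z : G × M => act z.1 z.2) dom
  one_mem : ∀ p, ((1 : G), p) ∈ dom
  one_act : ∀ p, act 1 p = p
  inv_mem : ∀ g p, (g, p) ∈ dom → (g⁻¹, act g p) ∈ dom
  inv_act : ∀ g p, (g, p) ∈ dom → act g⁻¹ (act g p) = p
  mul_act : ∀ g h p, (h, p) ∈ dom → (g, act h p) ∈ dom → (g * h, p) ∈ dom →
    act (g * h) p = act g (act h p)
  exists_chart : ∀ p, ∃ U : Set G, (1 : G) ∈ U ∧ IsOpen U ∧ (∀ g ∈ U, (g, p) ∈ dom) ∧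
    InjOn (fun g => act g p) U ∧ ∀ V ⊆ U, IsOpen V → IsOpen ((fun g => act g p) '' V)

namespace LocalSpace

variable {G M : Type} [Group G] [TopologicalSpace G] [TopologicalSpace M] (S : LocalSpace G M)

/-- `g ↦ g.p` is defined on the open set `U` and maps it homeomorphically onto an open set. -/
def IsChart (U : Set G) (p : M) : Prop :=
  IsOpen U ∧ (∀ g ∈ U, (g, p) ∈ S.dom) ∧ InjOn (fun g => S.act g p) U ∧
    ∀ V ⊆ U, IsOpen V → IsOpen ((fun g => S.act g p) '' V)

/-- The set `M[U]`. -/
def good (U : Set G) : Set M :=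
  {p | S.IsChart U p ∧ p ∈ (fun g => S.act g p) '' U ∧ ∀ g ∈ U, ∀ h ∈ U, g * h ∈ U →
    (g, S.act h p) ∈ S.dom ∧ S.act g (S.act h p) = S.act (g * h) p}

/-- `v` is the canonical measure of the local `G`-space: Haar measure transported by charts. -/
def IsVol [MeasurableSpace G] [MeasurableSpace M] (haar : Measure G) (v : Measure M) : Prop :=
  ∀ (p : M) (U : Set G), S.IsChart U p → ∀ A ⊆ U, MeasurableSet A →
    v ((fun g => S.act g p) '' A) = haar A

end LocalSpace

/-- `(M i)` is a sofic approximation to `G`. -/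
structure IsSofic {G : Type} [Group G] [TopologicalSpace G] [MeasurableSpace G]
    (haar : Measure G) {M : ℕ → Type} [∀ i, TopologicalSpace (M i)] [∀ i, MeasurableSpace (M i)]
    (S : ∀ i, LocalSpace G (M i)) (v : ∀ i, Measure (M i)) : Prop where
  isVol : ∀ i, (S i).IsVol haar (v i)
  pos : ∀ i, v i univ ≠ 0
  fin : ∀ i, v i univ ≠ ⊤
  approx : ∃ (U : ℕ → Set G) (ε : ℕ → ℝ),
    (∀ i, IsOpen (U i) ∧ IsCompact (closure (U i))) ∧ Monotone U ∧ (⋃ i, U i) = univ ∧
    Antitone ε ∧ Tendsto ε atTop (𝓝 0) ∧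
    ∀ i, v i ((S i).good (U i))ᶜ ≤ ENNReal.ofReal (ε i) * v i univ

/-! ### Sofic entropy -/

section entropy

variable {G M Y : Type} [Group G] [TopologicalSpace G] [TopologicalSpace M] [MeasurableSpace M]
  [TopologicalSpace Y] [MeasurableSpace Y] [OpensMeasurableSpace Y] [MulAction G Y]

/-- `Map(M, Y, ρ : U, δ, O)`: the approximately equivariant measurable maps whose law is in `O`. -/
def Map (S : LocalSpace G M) (v : Measure M) (ρ : Y → Y → ℝ) (U : Set G) (δ : ℝ)
    (O : Set (ProbabilityMeasure Y)) : Set (M → Y) :=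
  {φ | Measurable φ ∧
    (∀ g ∈ U, (∫ p in {p | (g, p) ∈ S.dom}, ρ (φ (S.act g p)) (g • φ p) ∂v) /
      (v univ).toReal < δ) ∧
    ∃ κ ∈ O, (κ : Measure Y) = (v univ)⁻¹ • v.map φ}

/-- The logarithm of the largest size of an `ε`-separated subset of `Φ` (`⊥` if `Φ` is empty). -/
noncomputable def logSep (v : Measure M) (ρ : Y → Y → ℝ) (ε : ℝ) (Φ : Set (M → Y)) : EReal :=
  ⨆ s ∈ {s : Finset (M → Y) | s.Nonempty ∧ ↑s ⊆ Φ ∧ ∀ φ ∈ s, ∀ ψ ∈ s, φ ≠ ψ →
    ε < (∫ p, ρ (φ p) (ψ p) ∂v) / (v univ).toReal}, ((Real.log s.card : ℝ) : EReal)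

end entropy

/-- The measure sofic entropy `h_Σ(G, Y, ν)`, computed with the pseudometric `ρ`. -/
noncomputable def soficEntropy {G Y : Type} [Group G] [TopologicalSpace G]
    [TopologicalSpace Y] [MeasurableSpace Y] [OpensMeasurableSpace Y] [MulAction G Y]
    {M : ℕ → Type} [∀ i, TopologicalSpace (M i)] [∀ i, MeasurableSpace (M i)]
    (S : ∀ i, LocalSpace G (M i)) (v : ∀ i, Measure (M i)) (ρ : Y → Y → ℝ)
    (ν : ProbabilityMeasure Y) : EReal :=
  ⨆ ε ∈ Ioi (0 : ℝ), ⨅ O ∈ {O : Set (ProbabilityMeasure Y) | IsOpen O ∧ ν ∈ O},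
    ⨅ U ∈ {U : Set G | IsOpen U ∧ IsCompact (closure U)}, ⨅ δ ∈ Ioi (0 : ℝ),
      limsup (fun i => logSep (v i) ρ ε (Map (S i) (v i) ρ U δ O) / ((v i univ).toReal : EReal))
        atTop

/-- A bounded continuous dynamically generating pseudometric. -/
structure IsGenerating (G : Type) {Y : Type} [Group G] [TopologicalSpace Y] [MulAction G Y]
    (ρ : Y → Y → ℝ) : Prop where
  self : ∀ x, ρ x x = 0
  symm : ∀ x y, ρ x y = ρ y x
  triangle : ∀ x y z, ρ x z ≤ ρ x y + ρ y z
  bounded : ∃ C : ℝ, ∀ x y, ρ x y ≤ C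
  continuous : Continuous (fun z : Y × Y => ρ z.1 z.2)
  generating : ∀ x y, x ≠ y → ∃ g : G, 0 < ρ (g • x) (g • y)

/-! ### The Poisson point process -/

/-- `P` is the law of the Poisson point process with intensity measure `t • haar`, seen as a random
counting measure: the counts of the Borel sets `A` of finite measure have Poisson distribution of
parameter `t * haar A`, and the counts of disjoint sets are independent. -/
structure IsPoisson {G : Type} [MeasurableSpace G] (haar : Measure G) (t : ℝ≥0)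
    (P : Measure (Measure G)) : Prop where
  isProb : IsProbabilityMeasure P
  count : ∀ A : Set G, MeasurableSet A → haar A ≠ ⊤ →
    P.map (fun ω => ω A) =
      (ProbabilityTheory.poissonMeasure (t * (haar A).toNNReal)).map (fun n : ℕ => (n : ℝ≥0∞))
  indep : ∀ (n : ℕ) (A : Fin n → Set G), (∀ i, MeasurableSet (A i)) → (∀ i, haar (A i) ≠ ⊤) →
    Pairwise (fun i j => Disjoint (A i) (A j)) →
    ProbabilityTheory.iIndepFun (fun i (ω : Measure G) => ω (A i)) P

/-- The Poisson point process with law `P` has completely positive entropy with respect to the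
sofic approximation `(S, v)`: every nontrivial factor has positive sofic entropy. A factor is a
measurable map `π` to a Polish `G`-space `Y` which is equivariant almost everywhere, `ν` is its law
(a probability measure, and the factor is nontrivial if `ν` is not a Dirac measure), and the entropy
is computed with any bounded continuous dynamically generating pseudometric `ρ`. -/
def HasCPE {G : Type} [Group G] [TopologicalSpace G] [MeasurableSpace G] {M : ℕ → Type}
    [∀ i, TopologicalSpace (M i)] [∀ i, MeasurableSpace (M i)] (S : ∀ i, LocalSpace G (M i))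
    (v : ∀ i, Measure (M i)) (P : Measure (Measure G)) : Prop :=
  ∀ (Y : Type) [TopologicalSpace Y] [PolishSpace Y] [MeasurableSpace Y] [BorelSpace Y]
    [MulAction G Y] [ContinuousSMul G Y] (π : Measure G → Y), Measurable π →
    (∀ g : G, ∀ᵐ ω ∂P, π (ω.map (fun x => g * x)) = g • π ω) →
    ∀ ν : ProbabilityMeasure Y, (ν : Measure Y) = P.map π →
      (∀ y, (ν : Measure Y) ≠ Measure.dirac y) →
      ∀ ρ : Y → Y → ℝ, IsGenerating G ρ → 0 < soficEntropy S v ρ ν

/-- the discrete metric on `ℕ` -/
noncomputable def dst (x y : ℕ) : ℝ := if x = y then 0 else 1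

/-- the trivial action on `ℕ` -/
@[reducible] def trivAct (G : Type) [Group G] : MulAction G ℕ where
  smul := fun _ n => n
  one_smul := fun _ => rfl
  mul_smul := fun _ _ _ => rfl

end Pool.Agent.Y316.PC
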