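import Pool.Agent.Y316.PC.Core

set_option autoImplicit false
set_option linter.unusedSectionVars false

/-!
# Positivity of the sofic entropy of factors of Poisson point processes
-/

namespace Pool.Agent.Y316.PC

open MeasureTheory Set Filter Topology ProbabilityTheory Pointwise
open scoped ENNReal NNReal symmDiff BoundedContinuousFunction

section ent

variable {G : Type} [Group G] [TopologicalSpace G] [IsTopologicalGroup G] [T2Space G]
  [LocallyCompactSpace G] [SecondCountableTopology G]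
  [MeasurableSpace G] [BorelSpace G] {haar : Measure G} [haar.IsHaarMeasure]
  [haar.IsMulRightInvariant] {t : ℝ≥0} {P : Measure (Measure G)}
  {M : ℕ → Type} [∀ i, TopologicalSpace (M i)] [∀ i, MeasurableSpace (M i)]
  [∀ i, BorelSpace (M i)] [∀ i, SecondCountableTopology (M i)] [∀ i, LocallyCompactSpace (M i)]
  [∀ i, T2Space (M i)] {S : ∀ i, LocalSpace G (M i)} {v : ∀ i, Measure (M i)}

theorem freq_of_unbounded {x : ℕ → ℝ} (h : ¬ ∃ B : ℝ, ∀ i, x i ≤ B) (B : ℝ) :
    ∃ᶠ i in atTop, B ≤ x i := by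
  by_contra hcon
  rw [not_frequently, eventually_atTop] at hcon
  obtain ⟨i0, hi0⟩ := hcon
  apply h
  refine ⟨max B (∑ i ∈ Finset.range i0, |x i|), fun i => ?_⟩
  by_cases hi : i0 ≤ i
  · exact (not_le.mp (hi0 i hi)).le.trans (le_max_left _ _)
  · refine le_trans ?_ (le_max_right _ _)
    exact (le_abs_self _).trans (Finset.single_le_sum (f := fun i => |x i|)
      (fun i _ => abs_nonneg _) (Finset.mem_range.mpr (not_le.mp hi)))

/-- Every nontrivial factor of the Poisson point process has positive entropy. -/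
theorem entropy_pos (hP : IsPoisson haar t P) (ht : t ≠ 0) (hS : IsSofic haar S v)
    (hunb : ¬ ∃ B : ℝ, ∀ i, (v i univ).toReal ≤ B)
    {Y : Type} [TopologicalSpace Y] [PolishSpace Y] [MeasurableSpace Y] [BorelSpace Y]
    [MulAction G Y] [ContinuousSMul G Y]
    {π : Measure G → Y} (hπ : Measurable π)
    (heq : ∀ g : G, ∀ᵐ ω ∂P, π (ω.map (fun x => g * x)) = g • π ω)
    {νp : ProbabilityMeasure Y} (hνp : (νp : Measure Y) = P.map π)
    (hnt : ∀ y, (νp : Measure Y) ≠ Measure.dirac y) {ρ : Y → Y → ℝ} (hρ : IsGenerating G ρ) :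
    0 < soficEntropy S v ρ νp := by
  let _ := TopologicalSpace.upgradeIsCompletelyMetrizable Y
  have hne : Nonempty Y := νp.nonempty
  obtain ⟨e, he, c, hc, h⟩ := core hP ht hS hπ heq hνp hnt hρ
  have hc' : (0 : EReal) < (c : EReal) := by exact_mod_cast hc
  refine hc'.trans_le ?_
  unfold soficEntropy
  refine le_iSup₂_of_le (i := e) (j := he) ?_
  refine le_iInf₂ fun O hO => ?_
  refine le_iInf₂ fun U' hU' => ?_
  refine le_iInf₂ fun δ hδ => ?_
  obtain ⟨Vs, hVs⟩ := h O hO.1 hO.2 U' hU'.1 hU'.2 δ hδ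
  have h1 : ∃ᶠ i in atTop, max Vs 1 ≤ (v i univ).toReal := freq_of_unbounded hunb _
  refine le_limsup_of_frequently_le ?_ (by isBoundedDefault)
  refine (h1.and_eventually hVs).mono ?_
  rintro i ⟨hi1, hi2⟩
  have hV : (0:ℝ) < (v i univ).toReal :=
    lt_of_lt_of_le one_pos ((le_max_right _ _).trans hi1)
  have h2 := hi2 ((le_max_left _ _).trans hi1)
  rw [EReal.le_div_iff_mul_le (by exact_mod_cast hV) (EReal.coe_ne_top _)]
  rw [← EReal.coe_mul]
  exact h2

/-- the good set is nonempty -/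
theorem good_nonempty {M : Type} [TopologicalSpace M] [MeasurableSpace M] {S : LocalSpace G M}
    {v : Measure M} (h0 : v univ ≠ 0) (h1 : v univ ≠ ⊤) {U : Set G} {ε : ℝ} (hε : ε < 1)
    (h : v (S.good U)ᶜ ≤ ENNReal.ofReal ε * v univ) : (S.good U).Nonempty := by
  rw [Set.nonempty_iff_ne_empty]
  intro he
  rw [he, compl_empty] at h
  have h2 : ENNReal.ofReal ε * v univ < 1 * v univ := by
    rw [ENNReal.mul_lt_mul_iff_left h0 h1]
    exact ENNReal.ofReal_lt_one.mpr hε
  rw [one_mul] at h2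
  exact absurd h (not_le.mpr h2)

theorem haar_le_vol (hS : IsSofic haar S v) : ∃ U : ℕ → Set G, (∀ i, IsOpen (U i)) ∧ Monotone U ∧
    (⋃ i, U i) = univ ∧ (∀ᶠ i in atTop, ((S i).good (U i)).Nonempty) ∧
    ∀ᶠ i in atTop, haar (U i) ≤ v i univ := by
  obtain ⟨U, ε, hUo, hUm, hUu, hεa, hε0, hgood⟩ := hS.approx
  have h1 : ∀ᶠ i in atTop, ((S i).good (U i)).Nonempty := by
    filter_upwards [hε0.eventually_lt_const (by norm_num : (0:ℝ) < 1)] with i hi
    exact good_nonempty (hS.pos i) (hS.fin i) hi (hgood i)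
  refine ⟨U, fun i => (hUo i).1, hUm, hUu, h1, ?_⟩
  filter_upwards [h1] with i hi
  obtain ⟨p, hp⟩ := hi
  rw [← hS.isVol i p (U i) hp.1 (U i) (le_refl _) (hUo i).1.measurableSet]
  exact measure_mono (subset_univ _)

/-- For noncompact `G` the volumes tend to infinity. -/
theorem vol_tendsto [NoncompactSpace G] (hS : IsSofic haar S v) :
    Tendsto (fun i => v i univ) atTop (𝓝 ⊤) := by
  obtain ⟨U, -, hUm, hUu, -, hle⟩ := haar_le_vol hS
  have h1 : Tendsto (fun i => haar (U i)) atTop (𝓝 (haar univ)) := by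
    rw [← hUu]
    exact tendsto_measure_iUnion_atTop hUm
  rw [measure_univ_of_isMulLeftInvariant] at h1
  exact tendsto_nhds_top_mono h1 hle

theorem unbounded_of_noncompact [NoncompactSpace G] (hS : IsSofic haar S v) :
    ¬ ∃ B : ℝ, ∀ i, (v i univ).toReal ≤ B := by
  rintro ⟨B, hB⟩
  have h1 := (vol_tendsto hS).eventually (lt_mem_nhds (ENNReal.ofReal_lt_top (r := B + 1)))
  obtain ⟨i, hi⟩ := h1.exists
  have h2 := (ENNReal.toReal_lt_toReal ENNReal.ofReal_ne_top (hS.fin i)).mpr hi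
  have h3 := hB i
  have h4 : B + 1 ≤ (ENNReal.ofReal (B + 1)).toReal := by
    by_cases h : 0 ≤ B + 1
    · rw [ENNReal.toReal_ofReal h]
    · exact (not_le.mp h).le.trans ENNReal.toReal_nonneg
  linarith

end ent

end Pool.Agent.Y316.PC
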