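import Pool.Agent.Y316.PC.Fac

set_option autoImplicit false
set_option linter.unusedSectionVars false

/-!
# Almost equivariance of the Poisson maps
-/

namespace Pool.Agent.Y316.PC

open MeasureTheory Set Filter Topology ProbabilityTheory Pointwise
open scoped ENNReal NNReal symmDiff BoundedContinuousFunction

section count

variable {M J : Type} [Fintype J]

theorem num_eq {ω : ℕ × (ℕ → M)} {A B : Set M}
    (h : ∀ k < ω.1, (ω.2 k ∈ A ↔ ω.2 k ∈ B)) : num ω A = num ω B := by
  unfold num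
  refine Finset.sum_congr rfl fun k hk => ?_
  rw [Finset.mem_range] at hk
  by_cases h1 : ω.2 k ∈ A
  · rw [indicator_of_mem h1, indicator_of_mem ((h k hk).mp h1)]
  · rw [indicator_of_notMem h1, indicator_of_notMem (fun h2 => h1 ((h k hk).mpr h2))]

theorem count_diff {ω : J → ℕ × (ℕ → M)} {A B : Set M} (h : numS ω A ≠ numS ω B) :
    ∃ j, ∃ k < (ω j).1, (ω j).2 k ∈ A ∆ B := by
  by_contra hcon
  push Not at hcon
  apply h
  unfold numS
  refine Finset.sum_congr rfl fun j _ => num_eq fun k hk => ?_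
  have h1 := hcon j k hk
  rw [Set.mem_symmDiff] at h1
  tauto

end count

section geo2

variable {G M : Type} [Group G] [TopologicalSpace G] [TopologicalSpace M]

/-- points of `nb` sent to `nb` by `g` -/
def Zg (S : LocalSpace G M) (R U : Set G) (g : G) : Set M :=
  {p | p ∈ nb S R U ∧ S.act g p ∈ nb S R U}

variable {S : LocalSpace G M} {R U : Set G}

theorem isOpen_Zg (hB : Big R U) {g : G} (hg : g ∈ R) : IsOpen (Zg S R U g) := by
  have hn := isOpen_nb (S := S) hB
  have hc : ContinuousOn (fun p => S.act g p) (nb S R U) := by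
    have h1 : ContinuousOn (fun p : M => ((g, p) : G × M)) (nb S R U) :=
      (continuous_const.prodMk continuous_id).continuousOn
    refine S.continuousOn_act.comp h1 ?_
    intro p hp
    exact nb_dom hB hp (pw_mono hB.one' (by norm_num : 1 ≤ 11) (by rwa [pow_one]))
  exact hc.isOpen_inter_preimage hn hn

theorem good_sub_Zg (hB : Big R U) {g : G} (hg : g ∈ interior R) : S.good U ⊆ Zg S R U g :=
  fun _ hp => ⟨nb_of_good hB hp, nb_act hB hp hg⟩

theorem cv_act {Ω ι : Type} {N : Ω → Set M → ℕ} {K : ι → Set G} (hB : Big R U)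
    (hKR : ∀ i, K i ⊆ R) {g : G} (hg : g ∈ R) {p : M} (hp : p ∈ Zg S R U g) (ω : Ω) :
    cv S R U N K ω (S.act g p) = cv S R U N (fun i => (fun a => a * g) '' K i) ω p := by
  rw [cv_of_nb hp.2, cv_of_nb hp.1]
  funext i
  rw [orb_act hB hp.1 (m := 1) (n := 1) (by norm_num) (by rw [pow_one]; exact hKR i)
    (by rwa [pow_one])]

end geo2

section equi

variable {G M Ω : Type} [Group G] [TopologicalSpace G] [IsTopologicalGroup G] [T2Space G]
  [LocallyCompactSpace G] [SecondCountableTopology G]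
  [MeasurableSpace G] [BorelSpace G] [TopologicalSpace M] [MeasurableSpace M] [BorelSpace M]
  [SecondCountableTopology M] [LocallyCompactSpace M] [T2Space M] [MeasurableSpace Ω]
  {S : LocalSpace G M} {R U : Set G} {haar : Measure G} [haar.IsHaarMeasure]
  [haar.IsMulRightInvariant] {v : Measure M} [IsFiniteMeasure v] {t : ℝ≥0}
  {P : Measure (Measure G)} {Q : Measure Ω} {N : Ω → Set M → ℕ}

theorem vol_diff {J : Type} [Fintype J] (hB : Big R U) (hv : S.IsVol haar v) {ι : Type}
    [Fintype ι] {K K' : ι → Set G} (hK : ∀ i, IsCompact (K i)) (hK' : ∀ i, IsCompact (K' i))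
    (hKR : ∀ i, K i ⊆ R ^ 4) (hKR' : ∀ i, K' i ⊆ R ^ 4) (ω : J → ℕ × (ℕ → M)) :
    v {p | p ∈ nb S R U ∧ ∃ i, numS ω (orb S (K i) p) ≠ numS ω (orb S (K' i) p)} ≤
      (∑ j, ((ω j).1 : ℝ≥0∞)) * ∑ i, haar (K i ∆ K' i) := by
  have hsub : {p | p ∈ nb S R U ∧ ∃ i, numS ω (orb S (K i) p) ≠ numS ω (orb S (K' i) p)} ⊆
      ⋃ j ∈ (Finset.univ : Finset J), ⋃ k ∈ Finset.range (ω j).1, ⋃ i ∈ (Finset.univ : Finset ι),
        {p | p ∈ nb S R U ∧ (ω j).2 k ∈ orb S ((K i ∆ K' i)⁻¹)⁻¹ p} := by
    rintro p ⟨hp, i, hi⟩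
    obtain ⟨j, k, hk, hx⟩ := count_diff hi
    simp only [mem_iUnion, Finset.mem_univ, Finset.mem_range, exists_prop, true_and]
    refine ⟨j, k, hk, i, hp, ?_⟩
    rw [inv_inv]
    rw [Set.mem_symmDiff] at hx
    rcases hx with ⟨⟨a, ha, hax⟩, hx⟩ | ⟨⟨a, ha, hax⟩, hx⟩
    · refine ⟨a, ?_, hax⟩
      rw [Set.mem_symmDiff]
      exact Or.inl ⟨ha, fun h => hx ⟨a, h, hax⟩⟩
    · refine ⟨a, ?_, hax⟩
      rw [Set.mem_symmDiff]
      exact Or.inr ⟨ha, fun h => hx ⟨a, h, hax⟩⟩
  refine (measure_mono hsub).trans ?_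
  refine (measure_biUnion_finset_le _ _).trans ?_
  rw [Finset.sum_mul]
  refine Finset.sum_le_sum fun j _ => ?_
  refine (measure_biUnion_finset_le _ _).trans ?_
  have h1 : ∀ k ∈ Finset.range (ω j).1, v (⋃ i ∈ (Finset.univ : Finset ι),
      {p | p ∈ nb S R U ∧ (ω j).2 k ∈ orb S ((K i ∆ K' i)⁻¹)⁻¹ p}) ≤ ∑ i, haar (K i ∆ K' i) := by
    intro k _
    refine (measure_biUnion_finset_le _ _).trans ?_
    refine Finset.sum_le_sum fun i _ => ?_
    rw [← haar_inv_apply (haar := haar) (K i ∆ K' i)]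
    refine vol_back hB hv ?_ ?_ _
    · intro a ha
      rw [Set.mem_inv, Set.mem_symmDiff] at ha
      have h2 : a⁻¹ ∈ R ^ 4 := by
        rcases ha with h | h
        · exact hKR i h.1
        · exact hKR' i h.1
      have h3 := pw_inv hB.inv h2
      rwa [inv_inv] at h3
    · exact ((hK i).measurableSet.symmDiff (hK' i).measurableSet).inv
  refine (Finset.sum_le_sum h1).trans ?_
  rw [Finset.sum_const, Finset.card_range, nsmul_eq_mul]

variable {Y : Type} [MetricSpace Y] [CompleteSpace Y] [SecondCountableTopology Y]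
  [MeasurableSpace Y] [BorelSpace Y] [Nonempty Y] [MulAction G Y] [ContinuousSMul G Y]

/-- the expectation of the local error -/
theorem mean_g (hP : IsPoisson haar t P) (ht : t ≠ 0) {ι : Type} [Fintype ι] {E : ι → Set G}
    (hE : ∀ i, IsCompact (E i)) (F : (ι → ℕ) → Y) (ρ : Y → Y → ℝ) (g : G) :
    ∫ ω, ρ (F (fun i => cnt ((fun a => a * g) '' (E i)⁻¹) ω)) (g • F (fun i => cnt (E i)⁻¹ ω)) ∂P =
      ∫ ω, ρ (F (fun i => cnt (E i) (ω.map (fun x => g * x)))) (g • F (fun i => cnt (E i) ω))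
        ∂P := by
  set A : ι ⊕ ι → Set G := Sum.elim (fun i => (fun x => g * x) ⁻¹' E i) E with hA
  have hAc : ∀ i, IsCompact (A i) := by
    rintro (i | i)
    · exact isCompact_preimage_mul g (hE i)
    · exact hE i
  have h1 := integral_inv_law hP ht hAc
    (fun c => ρ (F (fun i => c (Sum.inl i))) (g • F (fun i => c (Sum.inr i))))
  have h2 : ∀ i, (fun a => a * g) '' (E i)⁻¹ = ((fun x => g * x) ⁻¹' E i)⁻¹ := by
    intro i
    ext x
    simp only [mem_image, Set.mem_inv, mem_preimage]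
    constructor
    · rintro ⟨a, ha, rfl⟩
      rwa [mul_inv_rev, mul_inv_cancel_left]
    · intro hx
      refine ⟨x * g⁻¹, ?_, by simp⟩
      rwa [mul_inv_rev, inv_inv]
  have h3 : ∀ ω : Measure G, ∀ i, cnt (E i) (ω.map (fun x => g * x)) =
      cnt ((fun x => g * x) ⁻¹' E i) ω := fun ω i => cnt_translate g (hE i).measurableSet ω
  simp only [h2, h3]
  exact h1

/-- almost equivariance for one group element -/
theorem equi_one (hB : Big R U) (hv : S.IsVol haar v) (hP : IsPoisson haar t P)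
    (ht : t ≠ 0) (hN : PRM (t • v) Q N) (hJ : Jm N) {ι : Type} [Fintype ι] {E : ι → Set G}
    (hE : ∀ i, IsCompact (E i)) (hER : ∀ i, (E i)⁻¹ ⊆ R) (F : (ι → ℕ) → Y) {ρ : Y → Y → ℝ}
    (hρ0 : ∀ x y, 0 ≤ ρ x y) {D : ℝ} (hρD : ∀ x y, ρ x y ≤ D) {g : G} (hg : g ∈ R) {κ : ℝ}
    (hκ0 : 0 ≤ κ)
    (hκ : ∫ ω, ρ (F (fun i => cnt (E i) (ω.map (fun x => g * x)))) (g • F (fun i => cnt (E i) ω))
        ∂P ≤ κ) {δ : ℝ} (hδ : 0 < δ) (hV : 0 < (v univ).toReal) :
    Q {ω | (κ + δ) * (v univ).toReal ≤ ∫ p in Zg S R U g,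
      ρ (F (cv S R U N (fun i => (E i)⁻¹) ω (S.act g p)))
        (g • F (cv S R U N (fun i => (E i)⁻¹) ω p)) ∂v} ≤
      ENNReal.ofReal ((2 * D) ^ 2 * (haar (R ^ 4)).toReal / (δ ^ 2 * (v univ).toReal)) := by
  obtain ⟨y0⟩ := (inferInstance : Nonempty Y)
  have hD0 : 0 ≤ D := (hρ0 y0 y0).trans (hρD y0 y0)
  set K : ι ⊕ ι → Set G := Sum.elim (fun i => (fun a => a * g) '' (E i)⁻¹) (fun i => (E i)⁻¹)
    with hK
  set H : (ι ⊕ ι → ℕ) → ℝ := fun c => ρ (F (fun i => c (Sum.inl i)))
    (g • F (fun i => c (Sum.inr i))) with hH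
  have hKc : ∀ i, IsCompact (K i) := by
    rintro (i | i)
    · exact (hE i).inv.image (continuous_id.mul continuous_const)
    · exact (hE i).inv
  have hKR : ∀ i, K i ⊆ R ^ 2 := by
    rintro (i | i)
    · rintro _ ⟨a, ha, rfl⟩
      rw [pow_two]
      exact Set.mul_mem_mul (hER i ha) hg
    · intro a ha
      refine pw_mono hB.one' (by norm_num : 1 ≤ 2) ?_
      rw [pow_one]
      exact hER i ha
  have h1 := lln hB hv hP ht hN hJ hKc hKR (isOpen_Zg (S := S) hB hg).measurableSet
    (fun p hp => hp.1) (H := H) hD0 (fun c => by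
      rw [abs_of_nonneg (hρ0 _ _)]; exact hρD _ _) hδ hV
  refine (measure_mono ?_).trans h1
  intro ω hω
  have h2 : ∫ p in Zg S R U g, ρ (F (cv S R U N (fun i => (E i)⁻¹) ω (S.act g p)))
      (g • F (cv S R U N (fun i => (E i)⁻¹) ω p)) ∂v =
      ∫ p in Zg S R U g, H (cv S R U N K ω p) ∂v := by
    refine setIntegral_congr_fun (isOpen_Zg (S := S) hB hg).measurableSet fun p hp => ?_
    show ρ (F (cv S R U N (fun i => (E i)⁻¹) ω (S.act g p)))
      (g • F (cv S R U N (fun i => (E i)⁻¹) ω p)) = _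
    rw [cv_act hB hER hg hp]
    rfl
  have h3 : ∫ ω, H (fun i => cnt (K i) ω) ∂P ≤ κ := by
    refine le_trans (le_of_eq ?_) hκ
    exact mean_g hP ht hE F ρ g
  have h4 : (v (Zg S R U g)).toReal * ∫ ω, H (fun i => cnt (K i) ω) ∂P ≤
      κ * (v univ).toReal := by
    have h5 : (v (Zg S R U g)).toReal ≤ (v univ).toReal :=
      ENNReal.toReal_mono (measure_ne_top _ _) (measure_mono (subset_univ _))
    calc (v (Zg S R U g)).toReal * ∫ ω, H (fun i => cnt (K i) ω) ∂P
        ≤ (v (Zg S R U g)).toReal * κ := mul_le_mul_of_nonneg_left h3 ENNReal.toReal_nonneg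
      _ ≤ (v univ).toReal * κ := mul_le_mul_of_nonneg_right h5 hκ0
      _ = _ := mul_comm _ _
  have hω' : (κ + δ) * (v univ).toReal ≤ ∫ p in Zg S R U g, H (cv S R U N K ω p) ∂v := by
    rw [← h2]
    exact hω
  show δ * (v univ).toReal ≤ |∫ p in Zg S R U g, H (cv S R U N K ω p) ∂v -
    (v (Zg S R U g)).toReal * ∫ ω, H (fun i => cnt (K i) ω) ∂P|
  refine le_trans ?_ (le_abs_self _)
  linarith

end equi

section net

variable {G : Type} [Group G] [TopologicalSpace G] [IsTopologicalGroup G] [T2Space G]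
  [LocallyCompactSpace G] [SecondCountableTopology G] [MeasurableSpace G] [BorelSpace G]
  {haar : Measure G} [haar.IsHaarMeasure] [haar.IsMulRightInvariant]
  {Y : Type} [TopologicalSpace Y] [MulAction G Y] [ContinuousSMul G Y]

theorem image_mul_symmDiff (K : Set G) (g g' : G) :
    haar (((fun a => a * g) '' K) ∆ ((fun a => a * g') '' K)) =
      haar (((fun a => a * (g * g'⁻¹)) '' K) ∆ K) := by
  have h1 : ((fun a => a * g) '' K) ∆ ((fun a => a * g') '' K) =
      (fun a => a * g') '' (((fun a => a * (g * g'⁻¹)) '' K) ∆ K) := by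
    rw [image_symmDiff (mul_left_injective g'), image_image]
    congr 2
    funext a
    simp [mul_assoc]
  rw [h1, image_mul_right_meas]

/-- a finite net in a compact set -/
theorem net {C : Set G} (hC : IsCompact C) {ι : Type} [Fintype ι] {K : ι → Set G}
    (hK : ∀ i, IsCompact (K i)) {ρ : Y → Y → ℝ} (hρ : Continuous (fun z : Y × Y => ρ z.1 z.2))
    (hρ0 : ∀ y, ρ y y = 0) {T : Set Y} (hT : T.Finite) {θ δ : ℝ} (hθ : 0 < θ) (hδ : 0 < δ) :
    ∃ L : Finset G, ↑L ⊆ C ∧ ∀ g ∈ C, ∃ g' ∈ L,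
      (∀ i, haar (((fun a => a * g) '' K i) ∆ ((fun a => a * g') '' K i)) ≤ ENNReal.ofReal θ) ∧
      ∀ y ∈ T, ρ (g' • y) (g • y) ≤ δ := by
  have hloc : ∀ g' : G, ∀ᶠ g in 𝓝 g',
      (∀ i, haar (((fun a => a * g) '' K i) ∆ ((fun a => a * g') '' K i)) ≤ ENNReal.ofReal θ) ∧
      ∀ y ∈ T, ρ (g' • y) (g • y) ≤ δ := by
    intro g'
    refine Filter.Eventually.and ?_ ?_
    · rw [eventually_all]
      intro i
      have h1 : Tendsto (fun g : G => g * g'⁻¹) (𝓝 g') (𝓝 1) := by
        have h2 : Continuous (fun g : G => g * g'⁻¹) := continuous_id.mul continuous_const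
        have h3 := h2.tendsto g'
        rwa [mul_inv_cancel] at h3
      filter_upwards [h1.eventually (symm_small (haar := haar) (hK i) hθ)] with g hg
      rw [image_mul_symmDiff]
      exact hg
    · rw [hT.eventually_all]
      intro y _
      have h1 : Continuous (fun g : G => ρ (g' • y) (g • y)) :=
        hρ.comp (continuous_const.prodMk (continuous_id.smul continuous_const))
      have h2 := h1.tendsto g'
      rw [hρ0] at h2
      exact (h2.eventually_lt_const hδ).mono fun g hg => hg.le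
  obtain ⟨L, hL, hCL⟩ := hC.elim_nhds_subcover (fun g' => {g |
      (∀ i, haar (((fun a => a * g) '' K i) ∆ ((fun a => a * g') '' K i)) ≤ ENNReal.ofReal θ) ∧
      ∀ y ∈ T, ρ (g' • y) (g • y) ≤ δ}) (fun g' _ => hloc g')
  refine ⟨L, fun g hg => hL g hg, ?_⟩
  intro g hg
  obtain ⟨g', hg', hgg'⟩ := mem_iUnion₂.mp (hCL hg)
  exact ⟨g', hg', hgg'⟩

end net

section equiall

variable {G M : Type} [Group G] [TopologicalSpace G] [IsTopologicalGroup G] [T2Space G]
  [LocallyCompactSpace G] [SecondCountableTopology G]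
  [MeasurableSpace G] [BorelSpace G] [TopologicalSpace M] [MeasurableSpace M] [BorelSpace M]
  [SecondCountableTopology M] [LocallyCompactSpace M] [T2Space M]
  {S : LocalSpace G M} {R U : Set G} {haar : Measure G} [haar.IsHaarMeasure]
  [haar.IsMulRightInvariant] {v : Measure M} [IsFiniteMeasure v]
  {Y : Type} [TopologicalSpace Y] [MeasurableSpace Y] [MulAction G Y]

/-- transfer of almost equivariance from a net -/
theorem equi_all {J : Type} [Fintype J] (hB : Big R U) (hv : S.IsVol haar v) {ι : Type}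
    [Fintype ι] {K : ι → Set G} (hK : ∀ i, IsCompact (K i)) (hKR : ∀ i, K i ⊆ R)
    (F : (ι → ℕ) → Y) {ρ : Y → Y → ℝ}
    (hρ0 : ∀ x y, 0 ≤ ρ x y) {D : ℝ} (hρD : ∀ x y, ρ x y ≤ D) (hD0 : 0 ≤ D)
    (hρt : ∀ x y z, ρ x z ≤ ρ x y + ρ y z)
    {g g' : G} (hg : g ∈ interior R) (hg' : g' ∈ interior R) {θ δ : ℝ} (hθ : 0 < θ) (hδ : 0 < δ)
    (hθg : ∀ i, haar (((fun a => a * g) '' K i) ∆ ((fun a => a * g') '' K i)) ≤ ENNReal.ofReal θ)
    (hδg : ∀ y ∈ range F, ρ (g' • y) (g • y) ≤ δ) {ω : J → ℕ × (ℕ → M)} {n0 : ℝ} (hn0 : 0 ≤ n0)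
    (hω : ∑ j, ((ω j).1 : ℝ≥0∞) ≤ ENNReal.ofReal n0) {b : ℝ} (hb : 0 ≤ b)
    (hgood : v (S.good U)ᶜ ≤ ENNReal.ofReal b)
    (hint : Integrable (fun p => ρ (F (cv S R U numS K ω (S.act g' p)))
      (g' • F (cv S R U numS K ω p))) (v.restrict (Zg S R U g'))) :
    ∫ p in {p | (g, p) ∈ S.dom}, ρ (F (cv S R U numS K ω (S.act g p)))
        (g • F (cv S R U numS K ω p)) ∂v ≤
      ∫ p in Zg S R U g', ρ (F (cv S R U numS K ω (S.act g' p)))
        (g' • F (cv S R U numS K ω p)) ∂v + δ * (v univ).toReal + D * b +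
        D * (n0 * (Fintype.card ι * θ)) := by
  set K1 : ι → Set G := fun i => (fun a => a * g) '' K i with hK1
  set K2 : ι → Set G := fun i => (fun a => a * g') '' K i with hK2
  set f : M → ℝ := fun p => ρ (F (cv S R U numS K ω (S.act g p)))
        (g • F (cv S R U numS K ω p)) with hf
  set f' : M → ℝ := fun p => ρ (F (cv S R U numS K ω (S.act g' p)))
        (g' • F (cv S R U numS K ω p)) with hf'
  set W : Set M := {p | p ∈ nb S R U ∧ ∃ i, numS ω (orb S (K1 i) p) ≠ numS ω (orb S (K2 i) p)}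
    with hW
  have hK1c : ∀ i, IsCompact (K1 i) := fun i => (hK i).image (continuous_id.mul continuous_const)
  have hK2c : ∀ i, IsCompact (K2 i) := fun i => (hK i).image (continuous_id.mul continuous_const)
  have hsub : ∀ h ∈ R, ∀ i, (fun a => a * h) '' K i ⊆ R ^ 4 := by
    rintro h hh i _ ⟨a, ha, rfl⟩
    refine pw_mono hB.one' (by norm_num : 2 ≤ 4) ?_
    rw [pow_two]
    exact Set.mul_mem_mul (hKR i ha) hh
  have hgR : g ∈ R := interior_subset hg
  have hgR' : g' ∈ R := interior_subset hg'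
  have hvW : v W ≤ ENNReal.ofReal (n0 * (Fintype.card ι * θ)) := by
    refine (vol_diff hB hv hK1c hK2c (hsub g hgR) (hsub g' hgR') ω).trans ?_
    rw [ENNReal.ofReal_mul hn0]
    refine mul_le_mul' hω ?_
    refine (Finset.sum_le_sum fun i _ => hθg i).trans ?_
    rw [Finset.sum_const, Finset.card_univ, nsmul_eq_mul, ENNReal.ofReal_mul (by positivity),
      ENNReal.ofReal_natCast]
  set B1 := toMeasurable v (S.good U)ᶜ with hB1
  set B2 := toMeasurable v W with hB2
  have hB1m : MeasurableSet B1 := measurableSet_toMeasurable _ _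
  have hB2m : MeasurableSet B2 := measurableSet_toMeasurable _ _
  have hZm : MeasurableSet (Zg S R U g') := (isOpen_Zg (S := S) hB hgR').measurableSet
  set u : M → ℝ := fun p => (Zg S R U g').indicator f' p + δ + B1.indicator (fun _ => D) p +
    B2.indicator (fun _ => D) p with hu
  have hi1 : Integrable ((Zg S R U g').indicator f') v := (integrable_indicator_iff hZm).mpr hint
  have hi2 : Integrable (B1.indicator (fun _ => D)) v :=
    (integrable_indicator_iff hB1m).mpr (integrableOn_const (measure_ne_top _ _))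
  have hi3 : Integrable (B2.indicator (fun _ => D)) v :=
    (integrable_indicator_iff hB2m).mpr (integrableOn_const (measure_ne_top _ _))
  have hui : Integrable u v := ((hi1.add (integrable_const δ)).add hi2).add hi3
  have hu0 : ∀ p, 0 ≤ u p := by
    intro p
    have e1 : 0 ≤ (Zg S R U g').indicator f' p := indicator_nonneg (fun _ _ => hρ0 _ _) p
    have e2 : 0 ≤ B1.indicator (fun _ => D) p := indicator_nonneg (fun _ _ => hD0) p
    have e3 : 0 ≤ B2.indicator (fun _ => D) p := indicator_nonneg (fun _ _ => hD0) p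
    simp only [hu]
    linarith
  have hpt : ∀ p, f p ≤ u p := by
    intro p
    have e1 : 0 ≤ (Zg S R U g').indicator f' p := indicator_nonneg (fun _ _ => hρ0 _ _) p
    have e2 : 0 ≤ B1.indicator (fun _ => D) p := indicator_nonneg (fun _ _ => hD0) p
    have e3 : 0 ≤ B2.indicator (fun _ => D) p := indicator_nonneg (fun _ _ => hD0) p
    have e4 : f p ≤ D := hρD _ _
    by_cases hp : p ∈ S.good U
    · by_cases hpW : p ∈ W
      · have e5 : B2.indicator (fun _ => D) p = D :=
          indicator_of_mem (subset_toMeasurable v W hpW) _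
        simp only [hu]
        linarith
      · have hZ1 := good_sub_Zg hB hg hp
        have hZ2 := good_sub_Zg hB hg' hp
        have e5 : (Zg S R U g').indicator f' p = f' p := indicator_of_mem hZ2 _
        have e6 : cv S R U numS K ω (S.act g p) = cv S R U numS K ω (S.act g' p) := by
          rw [cv_act hB hKR hgR hZ1, cv_act hB hKR hgR' hZ2, cv_of_nb hZ1.1, cv_of_nb hZ1.1]
          funext i
          by_contra hne
          exact hpW ⟨hZ1.1, i, hne⟩
        have e7 : f p ≤ f' p + δ := by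
          simp only [hf, hf']
          rw [e6]
          refine (hρt _ (g' • F (cv S R U numS K ω p)) _).trans ?_
          exact add_le_add le_rfl (hδg _ (mem_range_self _))
        simp only [hu]
        linarith
    · have e5 : B1.indicator (fun _ => D) p = D :=
        indicator_of_mem (subset_toMeasurable v (S.good U)ᶜ hp) _
      simp only [hu]
      linarith
  have h1 : ∫ p in {p | (g, p) ∈ S.dom}, f p ∂v ≤ ∫ p in {p | (g, p) ∈ S.dom}, u p ∂v :=
    integral_mono_of_nonneg (Eventually.of_forall fun p => hρ0 _ _) hui.integrableOn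
      (Eventually.of_forall hpt)
  have h2 : ∫ p in {p | (g, p) ∈ S.dom}, u p ∂v ≤ ∫ p, u p ∂v :=
    setIntegral_le_integral hui (Eventually.of_forall hu0)
  have h3 : ∫ p, u p ∂v = ∫ p in Zg S R U g', f' p ∂v + δ * (v univ).toReal +
      (v B1).toReal * D + (v B2).toReal * D := by
    have hi12 : Integrable (fun p => (Zg S R U g').indicator f' p + δ) v :=
      hi1.add (integrable_const δ)
    have hi123 : Integrable (fun p => (Zg S R U g').indicator f' p + δ +
        B1.indicator (fun _ => D) p) v := hi12.add hi2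
    simp only [hu]
    rw [integral_add hi123 hi3, integral_add hi12 hi2, integral_add hi1 (integrable_const δ),
      integral_indicator hZm, integral_indicator_const _ hB1m, integral_indicator_const _ hB2m,
      integral_const, smul_eq_mul, smul_eq_mul, smul_eq_mul, measureReal_def, measureReal_def,
      measureReal_def]
    ring
  have h4 : (v B1).toReal ≤ b := by
    rw [hB1, measure_toMeasurable]
    have := ENNReal.toReal_mono ENNReal.ofReal_ne_top hgood
    rwa [ENNReal.toReal_ofReal hb] at this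
  have h5 : (v B2).toReal ≤ n0 * (Fintype.card ι * θ) := by
    rw [hB2, measure_toMeasurable]
    have := ENNReal.toReal_mono ENNReal.ofReal_ne_top hvW
    rwa [ENNReal.toReal_ofReal (by positivity)] at this
  have h6 : (v B1).toReal * D ≤ D * b := by
    rw [mul_comm]
    exact mul_le_mul_of_nonneg_left h4 hD0
  have h7 : (v B2).toReal * D ≤ D * (n0 * (Fintype.card ι * θ)) := by
    rw [mul_comm]
    exact mul_le_mul_of_nonneg_left h5 hD0
  linarith

end equiall

end Pool.Agent.Y316.PC
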