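import Pool.Agent.Y316.PC.Inv

set_option autoImplicit false
set_option linter.unusedSectionVars false

/-!
# Approximation of factor maps
-/

namespace Pool.Agent.Y316.PC

open MeasureTheory Set Filter Topology ProbabilityTheory Pointwise
open scoped ENNReal NNReal symmDiff BoundedContinuousFunction

/-- integral bound off a small set -/
theorem int_small {Ω : Type} [MeasurableSpace Ω] (Q : Measure Ω) [IsProbabilityMeasure Q]
    {u : Ω → ℝ} {A : Set Ω} {η D : ℝ} (hη : 0 ≤ η) (hD : 0 ≤ D) (hu0 : ∀ ω, 0 ≤ u ω)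
    (huD : ∀ ω, u ω ≤ D) (hA : ∀ ω, ω ∉ A → u ω ≤ η) {θ : ℝ} (hθ : 0 ≤ θ)
    (hQA : Q A ≤ ENNReal.ofReal θ) : ∫ ω, u ω ∂Q ≤ η + D * θ := by
  have hm := measurableSet_toMeasurable Q A
  have h1 : ∫ ω, u ω ∂Q ≤ ∫ ω, (η + (toMeasurable Q A).indicator (fun _ => D) ω) ∂Q := by
    refine integral_mono_of_nonneg (Eventually.of_forall hu0) ?_ (Eventually.of_forall fun ω => ?_)
    · exact (integrable_const _).add ((integrable_indicator_iff hm).mpr
        (integrableOn_const (measure_ne_top _ _)))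
    · dsimp only
      by_cases h : ω ∈ toMeasurable Q A
      · rw [indicator_of_mem h]
        linarith [huD ω]
      · rw [indicator_of_notMem h, add_zero]
        exact hA ω fun h' => h (subset_toMeasurable Q A h')
  refine h1.trans ?_
  rw [integral_add (integrable_const _) ((integrable_indicator_iff hm).mpr
    (integrableOn_const (measure_ne_top _ _))), integral_indicator_const _ hm, smul_eq_mul]
  simp only [integral_const, probReal_univ, one_smul, smul_eq_mul, one_mul]
  have h2 : Q.real (toMeasurable Q A) ≤ θ := by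
    rw [measureReal_def, measure_toMeasurable]
    have := ENNReal.toReal_mono ENNReal.ofReal_ne_top hQA
    rwa [ENNReal.toReal_ofReal hθ] at this
  nlinarith

section unif

variable {G Y : Type} [Group G] [TopologicalSpace G] [MetricSpace Y] [MulAction G Y]
  [ContinuousSMul G Y]

theorem unif_rho {ρ : Y → Y → ℝ} (hρ : Continuous (fun z : Y × Y => ρ z.1 z.2))
    (hρ0 : ∀ y, ρ y y = 0) {C : Set G} (hC : IsCompact C) {K : Set Y} (hK : IsCompact K) {η : ℝ}
    (hη : 0 < η) :
    ∃ η' > 0, ∀ g ∈ C, ∀ y ∈ K, ∀ z, dist y z < η' → ρ (g • y) (g • z) < η := by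
  set W : Set (Y × Y) := {w | ∀ g ∈ C, ρ (g • w.1) (g • w.2) < η} with hW
  have hcont : Continuous (fun z : (Y × Y) × G => ρ (z.2 • z.1.1) (z.2 • z.1.2)) :=
    hρ.comp ((continuous_snd.smul (continuous_fst.comp continuous_fst)).prodMk
      (continuous_snd.smul (continuous_snd.comp continuous_fst)))
  have hWo : IsOpen W := by
    rw [isOpen_iff_mem_nhds]
    intro w hw
    have h1 := hC.eventually_forall_of_forall_eventually (x₀ := w)
      (P := fun (w : Y × Y) (g : G) => ρ (g • w.1) (g • w.2) < η) ?_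
    · exact h1
    · intro g hg
      exact hcont.continuousAt.eventually_lt continuousAt_const (hw g hg)
  have hDc : IsCompact ((fun y : Y => (y, y)) '' K) :=
    hK.image (continuous_id.prodMk continuous_id)
  have hDW : (fun y : Y => (y, y)) '' K ⊆ W := by
    rintro _ ⟨y, _, rfl⟩ g _
    dsimp only
    rw [hρ0]
    exact hη
  obtain ⟨η', hη', hsub⟩ := hDc.exists_thickening_subset_open hWo hDW
  refine ⟨η', hη', ?_⟩
  intro g hg y hy z hyz
  have h1 : (y, z) ∈ Metric.thickening η' ((fun y : Y => (y, y)) '' K) := by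
    rw [Metric.mem_thickening_iff]
    refine ⟨(y, y), ⟨y, hy, rfl⟩, ?_⟩
    rw [Prod.dist_eq]
    simp only [dist_self]
    rw [max_eq_right dist_nonneg, dist_comm]
    exact hyz
  exact hsub h1 g hg

theorem unif_fun {f : Y → ℝ} (hf : Continuous f) {K : Set Y} (hK : IsCompact K) {η : ℝ}
    (hη : 0 < η) :
    ∃ η' > 0, ∀ y ∈ K, ∀ z, dist y z < η' → |f y - f z| < η := by
  set W : Set (Y × Y) := {w | |f w.1 - f w.2| < η} with hW
  have hWo : IsOpen W := isOpen_lt (((hf.comp continuous_fst).sub (hf.comp continuous_snd)).abs)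
    continuous_const
  have hDc : IsCompact ((fun y : Y => (y, y)) '' K) :=
    hK.image (continuous_id.prodMk continuous_id)
  have hDW : (fun y : Y => (y, y)) '' K ⊆ W := by
    rintro _ ⟨y, _, rfl⟩
    show |f y - f y| < η
    rw [sub_self, abs_zero]
    exact hη
  obtain ⟨η', hη', hsub⟩ := hDc.exists_thickening_subset_open hWo hDW
  refine ⟨η', hη', ?_⟩
  intro y hy z hyz
  have h1 : (y, z) ∈ Metric.thickening η' ((fun y : Y => (y, y)) '' K) := by
    rw [Metric.mem_thickening_iff]
    refine ⟨(y, y), ⟨y, hy, rfl⟩, ?_⟩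
    rw [Prod.dist_eq]
    simp only [dist_self]
    rw [max_eq_right dist_nonneg, dist_comm]
    exact hyz
  exact hsub h1

end unif

section fac

variable {G : Type} [Group G] [TopologicalSpace G] [IsTopologicalGroup G] [T2Space G]
  [LocallyCompactSpace G] [SecondCountableTopology G] [MeasurableSpace G] [BorelSpace G]
  {haar : Measure G} [haar.IsHaarMeasure] [haar.IsMulRightInvariant] {t : ℝ≥0}
  {P : Measure (Measure G)}
  {Y : Type} [MetricSpace Y] [CompleteSpace Y] [SecondCountableTopology Y] [MeasurableSpace Y]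
  [BorelSpace Y] [Nonempty Y] [MulAction G Y] [ContinuousSMul G Y]

/-- approximation of a factor map -/
theorem fac_approx (hP : IsPoisson haar t P) (ht : t ≠ 0) {π : Measure G → Y}
    (hπ : Measurable π)
    (heq : ∀ g : G, ∀ᵐ ω ∂P, π (ω.map (fun x => g * x)) = g • π ω)
    {ρ : Y → Y → ℝ} (hρ : Continuous (fun z : Y × Y => ρ z.1 z.2)) (hρ0 : ∀ y, ρ y y = 0)
    (hρs : ∀ x y, ρ x y = ρ y x) (hρt : ∀ x y z, ρ x z ≤ ρ x y + ρ y z) {D : ℝ}
    (hρD : ∀ x y, ρ x y ≤ D) {J : Type} [Fintype J] (f : J → (Y →ᵇ ℝ)) {C : Set G}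
    (hC : IsCompact C) {κ : ℝ} (hκ : 0 < κ) :
    ∃ (ι : Type) (_ : Fintype ι) (E : ι → Set G) (F : (ι → ℕ) → Y), (∀ i, IsCompact (E i)) ∧
      (range F).Finite ∧
      (∀ g ∈ C, ∫ ω, ρ (F (fun i => cnt (E i) (ω.map (fun x => g * x))))
        (g • F (fun i => cnt (E i) ω)) ∂P ≤ κ) ∧
      (∀ j, |∫ ω, f j (F (fun i => cnt (E i) ω)) ∂P - ∫ ω, f j (π ω) ∂P| ≤ κ) ∧
      ∫ ω, ρ (π ω) (F (fun i => cnt (E i) ω)) ∂P ≤ κ := by
  classical
  have hprob := hP.isProb
  have hρnn : ∀ x y, 0 ≤ ρ x y := by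
    intro x y
    have h1 := hρt x y x
    rw [hρ0, hρs y x] at h1
    linarith
  obtain ⟨y0⟩ := (inferInstance : Nonempty Y)
  have hD0 : 0 ≤ D := (hρnn y0 y0).trans (hρD y0 y0)
  set B : ℝ := D + 2 * ∑ j, ‖f j‖ with hB
  have hB0 : 0 ≤ B := by positivity
  have hDB : D ≤ B := by
    have : 0 ≤ 2 * ∑ j, ‖f j‖ := by positivity
    linarith
  have hfB : ∀ j, 2 * ‖f j‖ ≤ B := by
    intro j
    have h1 : ‖f j‖ ≤ ∑ j, ‖f j‖ :=
      Finset.single_le_sum (fun j _ => norm_nonneg (f j)) (Finset.mem_univ j)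
    linarith
  set η : ℝ := κ / (4 * (B + 1)) with hη
  have hη0 : 0 < η := by positivity
  -- tightness
  have hprob2 : IsProbabilityMeasure (P.map π) := Measure.isProbabilityMeasure_map hπ.aemeasurable
  obtain ⟨K, hK, hKη⟩ := (isTightMeasureSet_iff_exists_isCompact_measure_compl_le.mp
    (isTightMeasureSet_singleton (μ := P.map π))) (ENNReal.ofReal η) (ENNReal.ofReal_pos.mpr hη0)
  have hKη' := hKη _ rfl
  rw [Measure.map_apply hπ hK.measurableSet.compl] at hKη'
  -- uniform continuity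
  obtain ⟨η1, hη1, h1⟩ := unif_rho hρ hρ0 (hC.union (isCompact_singleton (x := (1:G)))) hK hη0
  have h2 : ∀ j, ∃ η' > 0, ∀ y ∈ K, ∀ z, dist y z < η' → |f j y - f j z| < η :=
    fun j => unif_fun (f j).continuous hK hη0
  choose η2 hη2 h2 using h2
  obtain ⟨η3, hη3, h3⟩ : ∃ η3 > 0, ∀ j, η3 ≤ η2 j := by
    by_cases hJ : (Finset.univ : Finset J).Nonempty
    · refine ⟨Finset.univ.inf' hJ η2, ?_, fun j => Finset.inf'_le _ (Finset.mem_univ j)⟩
      rw [gt_iff_lt, Finset.lt_inf'_iff]
      exact fun j _ => hη2 j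
    · refine ⟨1, one_pos, fun j => absurd ⟨j, Finset.mem_univ j⟩ hJ⟩
  set η4 := min η (min η1 η3) with hη4
  have hη40 : 0 < η4 := lt_min hη0 (lt_min hη1 hη3)
  obtain ⟨ι, _, E, F, hE, hF, hQ⟩ := approx_map (hP.isCnt) hπ hη40
  refine ⟨ι, inferInstance, E, F, hE, hF, ?_⟩
  set c : Measure G → (ι → ℕ) := fun ω i => cnt (E i) ω with hc
  have hcm : Measurable c := measurable_cnt_vec fun i => (hE i).measurableSet
  have hFm : Measurable F := Measurable.of_discrete
  have hFc : Measurable (fun ω => F (c ω)) := hFm.comp hcm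
  set A : Set (Measure G) := π ⁻¹' Kᶜ ∪ {ω | η4 ≤ dist (π ω) (F (c ω))} with hA
  have hPA : P A ≤ ENNReal.ofReal (2 * η) := by
    refine (measure_union_le _ _).trans ?_
    calc P (π ⁻¹' Kᶜ) + P {ω | η4 ≤ dist (π ω) (F (c ω))} ≤
          ENNReal.ofReal η + ENNReal.ofReal η :=
          add_le_add hKη' (hQ.trans (ENNReal.ofReal_le_ofReal (min_le_left _ _)))
      _ = ENNReal.ofReal (2 * η) := by
          rw [← ENNReal.ofReal_add hη0.le hη0.le]
          congr 1
          ring
  have hnA : ∀ ω, ω ∉ A → π ω ∈ K ∧ dist (π ω) (F (c ω)) < η4 := by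
    intro ω hω
    rw [hA, mem_union, not_or] at hω
    refine ⟨?_, not_le.mp hω.2⟩
    by_contra h
    exact hω.1 h
  have hrho : ∀ g ∈ C ∪ {1}, ∫ ω, ρ (g • π ω) (g • F (c ω)) ∂P ≤ κ / 2 := by
    intro g hg
    have h4 := int_small P (u := fun ω => ρ (g • π ω) (g • F (c ω))) (A := A) hη0.le hB0
      (fun ω => hρnn _ _) (fun ω => (hρD _ _).trans hDB) (fun ω hω => ?_)
      (θ := 2 * η) (by positivity) hPA
    · refine h4.trans ?_
      have h5 : η * (4 * (B + 1)) = κ := by
        rw [hη]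
        field_simp
      nlinarith
    · obtain ⟨h5, h6⟩ := hnA ω hω
      exact (h1 g hg _ h5 _ (h6.trans_le ((min_le_right _ _).trans (min_le_left _ _)))).le
  have hrho1 : ∫ ω, ρ (π ω) (F (c ω)) ∂P ≤ κ / 2 := by
    have h4 := hrho 1 (Or.inr rfl)
    simpa only [one_smul] using h4
  refine ⟨?_, ?_, by linarith⟩
  · intro g hg
    have hTm : Measurable (fun ω : Measure G => ω.map (fun x => g * x)) := measurable_translate g
    have hinv := hP.invariant ht g
    have hρm : Measurable (fun z : Y × Y => ρ z.1 z.2) := hρ.measurable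
    have hbd : ∀ (u : Measure G → Y) (w : Measure G → Y), Measurable u → Measurable w →
        Integrable (fun ω => ρ (u ω) (w ω)) P := by
      intro u w hu hw
      refine Integrable.of_bound (hρm.comp (hu.prodMk hw)).aestronglyMeasurable D ?_
      exact Eventually.of_forall fun ω => by
        rw [Real.norm_eq_abs, abs_of_nonneg (hρnn _ _)]; exact hρD _ _
    have hsm : Measurable (fun y : Y => g • y) := (continuous_const_smul g).measurable
    have e1 : ∫ ω, ρ (F (c (ω.map (fun x => g * x)))) (g • F (c ω)) ∂P ≤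
        ∫ ω, (ρ (π (ω.map (fun x => g * x))) (F (c (ω.map (fun x => g * x)))) +
          ρ (g • π ω) (g • F (c ω))) ∂P := by
      refine integral_mono_ae (hbd _ _ (hFc.comp hTm) (hsm.comp hFc))
        ((hbd _ _ (hπ.comp hTm) (hFc.comp hTm)).add (hbd _ _ (hsm.comp hπ) (hsm.comp hFc))) ?_
      filter_upwards [heq g] with ω hω
      have h4 := hρt (F (c (ω.map (fun x => g * x)))) (π (ω.map (fun x => g * x))) (g • F (c ω))
      rw [hρs (F (c (ω.map (fun x => g * x)))) (π (ω.map (fun x => g * x)))] at h4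
      have h5 : ρ (π (ω.map (fun x => g * x))) (g • F (c ω)) = ρ (g • π ω) (g • F (c ω)) := by
        rw [hω]
      rw [h5] at h4
      exact h4
    have e2 : ∫ ω, ρ (π (ω.map (fun x => g * x))) (F (c (ω.map (fun x => g * x)))) ∂P =
        ∫ ω, ρ (π ω) (F (c ω)) ∂P := by
      conv_rhs => rw [← hinv]
      rw [integral_map hTm.aemeasurable]
      rw [hinv]
      exact (hbd _ _ hπ hFc).aestronglyMeasurable
    have i1 : Integrable (fun ω : Measure G => ρ (π (ω.map (fun x => g * x)))
        (F (c (ω.map (fun x => g * x))))) P := hbd _ _ (hπ.comp hTm) (hFc.comp hTm)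
    have i2 : Integrable (fun ω : Measure G => ρ (g • π ω) (g • F (c ω))) P :=
      hbd _ _ (hsm.comp hπ) (hsm.comp hFc)
    rw [integral_add i1 i2] at e1
    have e3 := hrho g (Or.inl hg)
    calc ∫ ω, ρ (F (c (ω.map (fun x => g * x)))) (g • F (c ω)) ∂P ≤ _ := e1
      _ ≤ κ / 2 + κ / 2 := by
          refine add_le_add ?_ e3
          exact e2.le.trans hrho1
      _ = κ := by ring
  · intro j
    have hfm : Measurable (f j) := (f j).continuous.measurable
    have hi1 : Integrable (fun ω => f j (F (c ω))) P := by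
      refine Integrable.of_bound (hfm.comp hFc).aestronglyMeasurable ‖f j‖ ?_
      exact Eventually.of_forall fun ω => (f j).norm_coe_le_norm _
    have hi2 : Integrable (fun ω => f j (π ω)) P := by
      refine Integrable.of_bound (hfm.comp hπ).aestronglyMeasurable ‖f j‖ ?_
      exact Eventually.of_forall fun ω => (f j).norm_coe_le_norm _
    rw [← integral_sub hi1 hi2]
    refine (abs_integral_le_integral_abs).trans ?_
    have h4 := int_small P (u := fun ω => |f j (F (c ω)) - f j (π ω)|) (A := A) hη0.le hB0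
      (fun ω => abs_nonneg _) (fun ω => ?_) (fun ω hω => ?_) (θ := 2 * η) (by positivity) hPA
    · refine h4.trans ?_
      have h5 : η * (4 * (B + 1)) = κ := by
        rw [hη]
        field_simp
      nlinarith
    · refine (abs_sub _ _).trans ?_
      have h5 := (f j).norm_coe_le_norm (F (c ω))
      have h6 := (f j).norm_coe_le_norm (π ω)
      rw [Real.norm_eq_abs] at h5 h6
      linarith [hfB j]
    · obtain ⟨h5, h6⟩ := hnA ω hω
      rw [abs_sub_comm]
      exact (h2 j _ h5 _ (h6.trans_le ((min_le_right _ _).trans ((min_le_right _ _).trans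
        (h3 j))))).le

end fac

end Pool.Agent.Y316.PC
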