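import Pool.Agent.Y316.PC.PRM

set_option autoImplicit false

/-!
# The Poisson point process on the group as a Poisson random measure
-/

namespace Pool.Agent.Y316.PC

open MeasureTheory Set Filter Topology ProbabilityTheory
open scoped ENNReal NNReal

section atoms

variable {X ι : Type} [Fintype ι]

/-- the atoms of a finite family of sets -/
def atom (A : ι → Set X) (T : Finset ι) : Set X := {x | ∀ i, x ∈ A i ↔ i ∈ T}

theorem measurableSet_atom [MeasurableSpace X] {A : ι → Set X} (hA : ∀ i, MeasurableSet (A i))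
    (T : Finset ι) : MeasurableSet (atom A T) := by
  have h1 : atom A T = ⋂ i, {x | x ∈ A i ↔ i ∈ T} := by
    ext x
    simp [atom]
  rw [h1]
  refine MeasurableSet.iInter fun i => ?_
  by_cases hi : i ∈ T
  · have h2 : {x | x ∈ A i ↔ i ∈ T} = A i := by
      ext x
      simp [hi]
    rw [h2]
    exact hA i
  · have h2 : {x | x ∈ A i ↔ i ∈ T} = (A i)ᶜ := by
      ext x
      simp [hi]
    rw [h2]
    exact (hA i).compl

theorem atom_disjoint (A : ι → Set X) {T T' : Finset ι} (h : T ≠ T') :
    Disjoint (atom A T) (atom A T') := by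
  rw [Set.disjoint_left]
  intro x hx hx'
  apply h
  ext i
  rw [← hx i, ← hx' i]

theorem atom_subset (A : ι → Set X) {T : Finset ι} {i : ι} (hi : i ∈ T) : atom A T ⊆ A i :=
  fun _ hx => (hx i).mpr hi

open Classical in
theorem eq_iUnion_atom (A : ι → Set X) (i : ι) :
    A i = ⋃ T ∈ (Finset.univ.filter (fun T : Finset ι => i ∈ T)), atom A T := by
  ext x
  simp only [mem_iUnion, Finset.mem_filter, Finset.mem_univ, true_and, exists_prop]
  constructor
  · intro hx
    refine ⟨Finset.univ.filter (fun j => x ∈ A j), ?_, ?_⟩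
    · simpa using hx
    · intro j
      simp
  · rintro ⟨T, hT, hx⟩
    exact atom_subset A hT hx

open Classical in
theorem step_eq_atoms (A : ι → Set X) (s : ι → ℝ) (x : X) :
    step A s x = ∑ T : {T : Finset ι // T.Nonempty},
      (∑ i ∈ T.1, s i) * (atom A T.1).indicator (fun _ => (1:ℝ)) x := by
  set T0 : Finset ι := Finset.univ.filter (fun j => x ∈ A j) with hT0
  have hx : x ∈ atom A T0 := by
    intro j
    simp [hT0]
  have h1 : step A s x = ∑ i ∈ T0, s i := by
    unfold step
    rw [hT0, Finset.sum_filter]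
    refine Finset.sum_congr rfl fun i _ => ?_
    by_cases hi : x ∈ A i
    · rw [indicator_of_mem hi, if_pos hi, mul_one]
    · rw [indicator_of_notMem hi, if_neg hi, mul_zero]
  rw [h1]
  by_cases hne : T0.Nonempty
  · rw [Finset.sum_eq_single (⟨T0, hne⟩ : {T : Finset ι // T.Nonempty})]
    · rw [indicator_of_mem hx, mul_one]
    · intro T _ hT
      have h2 : x ∉ atom A T.1 := by
        intro h3
        have h4 : T.1 ≠ T0 := fun h => hT (Subtype.ext h)
        exact (Set.disjoint_left.mp (atom_disjoint A h4)) h3 hx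
      rw [indicator_of_notMem h2, mul_zero]
    · intro h2
      exact absurd (Finset.mem_univ _) h2
  · rw [Finset.not_nonempty_iff_eq_empty] at hne
    rw [hne, Finset.sum_empty]
    symm
    refine Finset.sum_eq_zero fun T _ => ?_
    have h2 : x ∉ atom A T.1 := by
      intro h3
      have h4 : T.1 ≠ T0 := by
        rw [hne]
        exact T.2.ne_empty
      exact (Set.disjoint_left.mp (atom_disjoint A h4)) h3 hx
    rw [indicator_of_notMem h2, mul_zero]

open Classical in
theorem psi_step [MeasurableSpace X] {μ : Measure X} {A : ι → Set X}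
    (hA : ∀ i, MeasurableSet (A i)) (hAf : ∀ i, μ (A i) ≠ ⊤) (s : ι → ℝ) :
    psi μ (step A s) = ∑ T : {T : Finset ι // T.Nonempty}, ((μ (atom A T.1)).toReal : ℂ) *
      (Complex.exp (((∑ i ∈ T.1, s i : ℝ) : ℂ) * Complex.I) - 1) := by
  have hfin : ∀ T : {T : Finset ι // T.Nonempty}, μ (atom A T.1) ≠ ⊤ := by
    rintro ⟨T, i, hi⟩
    exact ne_top_of_le_ne_top (hAf i) (measure_mono (atom_subset A hi))
  have h1 : ∀ x, Complex.exp (step A s x * Complex.I) - 1 =
      ∑ T : {T : Finset ι // T.Nonempty}, (atom A T.1).indicator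
        (fun _ => Complex.exp (((∑ i ∈ T.1, s i : ℝ) : ℂ) * Complex.I) - 1) x := by
    intro x
    rw [step_eq_atoms]
    set T0 : Finset ι := Finset.univ.filter (fun j => x ∈ A j) with hT0
    have hx : x ∈ atom A T0 := by
      intro j
      simp [hT0]
    have hxn : ∀ T : {T : Finset ι // T.Nonempty}, T.1 ≠ T0 → x ∉ atom A T.1 := by
      intro T hT h3
      exact (Set.disjoint_left.mp (atom_disjoint A hT)) h3 hx
    by_cases hne : T0.Nonempty
    · rw [Finset.sum_eq_single (⟨T0, hne⟩ : {T : Finset ι // T.Nonempty}),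
        Finset.sum_eq_single (⟨T0, hne⟩ : {T : Finset ι // T.Nonempty})]
      · rw [indicator_of_mem hx, indicator_of_mem hx, mul_one]
      · intro T _ hT
        rw [indicator_of_notMem (hxn T (fun h => hT (Subtype.ext h)))]
      · intro h2
        exact absurd (Finset.mem_univ _) h2
      · intro T _ hT
        rw [indicator_of_notMem (hxn T (fun h => hT (Subtype.ext h))), mul_zero]
      · intro h2
        exact absurd (Finset.mem_univ _) h2
    · rw [Finset.not_nonempty_iff_eq_empty] at hne
      have h3 : ∀ T : {T : Finset ι // T.Nonempty}, x ∉ atom A T.1 := by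
        intro T
        refine hxn T ?_
        rw [hne]
        exact T.2.ne_empty
      rw [Finset.sum_eq_zero (fun T _ => by rw [indicator_of_notMem (h3 T), mul_zero]),
        Finset.sum_eq_zero (fun T _ => indicator_of_notMem (h3 T) _)]
      simp
  unfold psi
  simp only [h1]
  rw [integral_finset_sum]
  · refine Finset.sum_congr rfl fun T _ => ?_
    rw [integral_indicator_const _ (measurableSet_atom hA T.1)]
    rw [Complex.real_smul]
    rfl
  · intro T _
    exact (integrable_indicator_iff (measurableSet_atom hA T.1)).mpr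
      (integrableOn_const (hfin T))

end atoms

section cnt

variable {G : Type} [MeasurableSpace G] {haar : Measure G} {t : ℝ≥0} {P : Measure (Measure G)}

/-- the number of points in `A` -/
noncomputable def cnt (A : Set G) (ω : Measure G) : ℕ := ⌊(ω A).toReal⌋₊

theorem measurable_cnt {A : Set G} (hA : MeasurableSet A) : Measurable (cnt A) :=
  Nat.measurable_floor.comp (ENNReal.measurable_toReal.comp (Measure.measurable_coe hA))

theorem IsPoisson.ae_cnt (h : IsPoisson haar t P) {A : Set G} (hA : MeasurableSet A)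
    (hf : haar A ≠ ⊤) : ∀ᵐ ω ∂P, ω A = (cnt A ω : ℝ≥0∞) := by
  have hB : MeasurableSet {x : ℝ≥0∞ | x = ((⌊x.toReal⌋₊ : ℕ) : ℝ≥0∞)} := by
    refine measurableSet_eq_fun measurable_id ?_
    exact (measurable_from_top (f := fun n : ℕ => (n:ℝ≥0∞))).comp
      (Nat.measurable_floor.comp ENNReal.measurable_toReal)
  have h1 : ∀ᵐ x ∂(P.map (fun ω => ω A)), x = ((⌊x.toReal⌋₊ : ℕ) : ℝ≥0∞) := by
    rw [h.count A hA hf, ae_map_iff Measurable.of_discrete.aemeasurable hB]
    refine Eventually.of_forall fun n => ?_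
    simp
  exact ae_of_ae_map (Measure.measurable_coe hA).aemeasurable h1

theorem IsPoisson.char_one (h : IsPoisson haar t P) {A : Set G} (hA : MeasurableSet A)
    (hf : haar A ≠ ⊤) (s : ℝ) :
    ∫ ω, Complex.exp (((s * (cnt A ω : ℝ) : ℝ) : ℂ) * Complex.I) ∂P =
      Complex.exp ((((t • haar) A).toReal : ℂ) * (Complex.exp ((s : ℂ) * Complex.I) - 1)) := by
  have hmeas : Measurable (fun x : ℝ≥0∞ =>
      Complex.exp (((s * ((⌊x.toReal⌋₊ : ℕ) : ℝ) : ℝ) : ℂ) * Complex.I)) := by
    have h1 : Measurable (fun x : ℝ≥0∞ => ((⌊x.toReal⌋₊ : ℕ) : ℝ)) :=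
      (measurable_from_top (f := fun n : ℕ => (n:ℝ))).comp
        (Nat.measurable_floor.comp ENNReal.measurable_toReal)
    fun_prop
  have h1 : ∫ ω, Complex.exp (((s * (cnt A ω : ℝ) : ℝ) : ℂ) * Complex.I) ∂P =
      ∫ x, Complex.exp (((s * ((⌊x.toReal⌋₊ : ℕ) : ℝ) : ℝ) : ℂ) * Complex.I)
        ∂(P.map (fun ω => ω A)) := by
    rw [integral_map (Measure.measurable_coe hA).aemeasurable hmeas.aestronglyMeasurable]
    rfl
  rw [h1, h.count A hA hf, integral_map Measurable.of_discrete.aemeasurable
    hmeas.aestronglyMeasurable]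
  have h2 := charFun_map_cast_poissonMeasure (t * (haar A).toNNReal) s
  rw [charFun_apply_real, integral_map Measurable.of_discrete.aemeasurable (by fun_prop)] at h2
  have h3 : (((t • haar) A).toReal : ℂ) = ((t * (haar A).toNNReal : ℝ≥0) : ℂ) := by
    rw [Measure.smul_apply]
    norm_cast
    rw [ENNReal.smul_def, smul_eq_mul, ENNReal.toReal_mul]
    rfl
  rw [h3, ← h2]
  refine integral_congr_ae (Eventually.of_forall fun n => ?_)
  dsimp only
  rw [ENNReal.toReal_natCast, Nat.floor_natCast]
  push_cast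
  ring_nf

/-- The Poisson point process is a Poisson random measure. -/
theorem IsPoisson.prm (h : IsPoisson haar t P) (ht : t ≠ 0) :
    PRM (t • haar) P (fun ω A => cnt A ω) := by
  classical
  have hprob := h.isProb
  refine ⟨h.isProb, fun A hA => measurable_cnt hA, ?_⟩
  intro ι _ A s hA hAf
  have hAf' : ∀ i, haar (A i) ≠ ⊤ := by
    intro i hi
    apply hAf i
    rw [Measure.smul_apply, hi, ENNReal.smul_top, if_neg ht]
  have hfin : ∀ T : {T : Finset ι // T.Nonempty}, haar (atom A T.1) ≠ ⊤ := by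
    rintro ⟨T, i, hi⟩
    exact ne_top_of_le_ne_top (hAf' i) (measure_mono (atom_subset A hi))
  have hae : ∀ᵐ ω ∂P, ∀ T : {T : Finset ι // T.Nonempty},
      ω (atom A T.1) = (cnt (atom A T.1) ω : ℝ≥0∞) := by
    rw [ae_all_iff]
    intro T
    exact h.ae_cnt (measurableSet_atom hA T.1) (hfin T)
  rw [psi_step hA hAf, Complex.exp_sum]
  have h1 : ∀ᵐ ω ∂P, Complex.exp (((∑ i, s i * (cnt (A i) ω : ℝ) : ℝ) : ℂ) * Complex.I) =
      ∏ T : {T : Finset ι // T.Nonempty}, Complex.exp ((((∑ i ∈ T.1, s i) *
        (cnt (atom A T.1) ω : ℝ) : ℝ) : ℂ) * Complex.I) := by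
    filter_upwards [hae] with ω hω
    have h2 : ∀ i, (cnt (A i) ω : ℝ) = ∑ T : {T : Finset ι // T.Nonempty},
        if i ∈ T.1 then (cnt (atom A T.1) ω : ℝ) else 0 := by
      intro i
      have h3 : ω (A i) = ∑ T ∈ Finset.univ.filter (fun T : Finset ι => i ∈ T),
          ω (atom A T) := by
        conv_lhs => rw [eq_iUnion_atom A i]
        rw [measure_biUnion_finset]
        · intro T _ T' _ hTT
          exact atom_disjoint A hTT
        · intro T _
          exact measurableSet_atom hA T
      have h4 : ω (A i) = ((∑ T ∈ Finset.univ.filter (fun T : Finset ι => i ∈ T),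
          cnt (atom A T) ω : ℕ) : ℝ≥0∞) := by
        rw [h3]
        push_cast
        refine Finset.sum_congr rfl fun T hT => ?_
        exact hω ⟨T, i, (Finset.mem_filter.mp hT).2⟩
      have h5 : cnt (A i) ω = ∑ T ∈ Finset.univ.filter (fun T : Finset ι => i ∈ T),
          cnt (atom A T) ω := by
        unfold cnt at h4 ⊢
        rw [h4, ENNReal.toReal_natCast, Nat.floor_natCast]
      rw [h5]
      push_cast
      rw [← Finset.sum_filter]
      refine (Finset.sum_bij (fun T _ => T.1) ?_ ?_ ?_ ?_).symm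
      · intro T hT
        simpa using hT
      · intro T _ T' _ hTT
        exact Subtype.ext hTT
      · intro T hT
        exact ⟨⟨T, i, (Finset.mem_filter.mp hT).2⟩, by simpa using hT, rfl⟩
      · intro T _
        rfl
    rw [← Complex.exp_sum, ← Finset.sum_mul]
    congr 2
    norm_cast
    have h6 : ∑ i, s i * (cnt (A i) ω : ℝ) = ∑ i, ∑ T : {T : Finset ι // T.Nonempty},
        if i ∈ T.1 then s i * (cnt (atom A T.1) ω : ℝ) else 0 := by
      refine Finset.sum_congr rfl fun i _ => ?_
      rw [h2 i, Finset.mul_sum]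
      refine Finset.sum_congr rfl fun T _ => ?_
      split_ifs <;> simp
    rw [h6, Finset.sum_comm]
    refine Finset.sum_congr rfl fun T _ => ?_
    rw [Finset.sum_mul, ← Finset.sum_filter]
    refine Finset.sum_congr ?_ fun i _ => rfl
    ext i
    simp
  rw [integral_congr_ae h1]
  -- independence
  set n := Fintype.card {T : Finset ι // T.Nonempty} with hn
  set e : {T : Finset ι // T.Nonempty} ≃ Fin n := Fintype.equivFin _ with he
  have hind := h.indep n (fun j => atom A (e.symm j).1)
    (fun j => measurableSet_atom hA _) (fun j => hfin _) (by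
      intro j j' hjj
      refine atom_disjoint A ?_
      intro h3
      exact hjj (e.symm.injective (Subtype.ext h3)))
  have hmeas : ∀ c : ℝ, Measurable (fun x : ℝ≥0∞ =>
      Complex.exp (((c * ((⌊x.toReal⌋₊ : ℕ) : ℝ) : ℝ) : ℂ) * Complex.I)) := by
    intro c
    have h1 : Measurable (fun x : ℝ≥0∞ => ((⌊x.toReal⌋₊ : ℕ) : ℝ)) :=
      (measurable_from_top (f := fun n : ℕ => (n:ℝ))).comp
        (Nat.measurable_floor.comp ENNReal.measurable_toReal)
    fun_prop
  have h3 := hind.integral_fun_prod_comp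
    (f := fun j (x : ℝ≥0∞) => Complex.exp ((((∑ i ∈ (e.symm j).1, s i) *
      ((⌊x.toReal⌋₊ : ℕ) : ℝ) : ℝ) : ℂ) * Complex.I))
    (fun j => (Measure.measurable_coe (measurableSet_atom hA _)).aemeasurable)
    (fun j => (hmeas _).aestronglyMeasurable)
  have h4 : ∀ ω : Measure G, ∏ T : {T : Finset ι // T.Nonempty}, Complex.exp ((((∑ i ∈ T.1, s i) *
        (cnt (atom A T.1) ω : ℝ) : ℝ) : ℂ) * Complex.I) =
      ∏ j : Fin n, Complex.exp ((((∑ i ∈ (e.symm j).1, s i) *
      ((⌊(ω (atom A (e.symm j).1)).toReal⌋₊ : ℕ) : ℝ) : ℝ) : ℂ) * Complex.I) := by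
    intro ω
    rw [← e.symm.prod_comp]
    rfl
  simp only [h4]
  rw [h3, ← e.symm.prod_comp]
  refine Finset.prod_congr rfl fun j _ => ?_
  exact h.char_one (measurableSet_atom hA _) (hfin _) _

end cnt

end Pool.Agent.Y316.PC
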