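import Pool.Agent.Y316.PC.Defs

set_option autoImplicit false

/-!
# Local geometry of sofic approximations
-/

namespace Pool.Agent.Y316.PC

open MeasureTheory Set Filter Topology Pointwise
open scoped ENNReal NNReal

section pw

variable {G : Type} [Group G] {R : Set G}

theorem pw_mul {m n : ℕ} {a b : G} (ha : a ∈ R ^ m) (hb : b ∈ R ^ n) : a * b ∈ R ^ (m + n) := by
  rw [pow_add]
  exact Set.mul_mem_mul ha hb

theorem pw_mono (h1 : (1:G) ∈ R) {m n : ℕ} (hmn : m ≤ n) : R ^ m ⊆ R ^ n :=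
  Set.pow_subset_pow_right h1 hmn

theorem pw_inv (hR : R⁻¹ = R) {m : ℕ} {a : G} (ha : a ∈ R ^ m) : a⁻¹ ∈ R ^ m := by
  have h1 : (R ^ m)⁻¹ = R ^ m := by rw [← inv_pow, hR]
  rw [← Set.mem_inv, h1]
  exact ha

end pw

/-- `R` is a compact symmetric neighbourhood of `1` with `R ^ 12 ⊆ U`. -/
structure Big {G : Type} [Group G] [TopologicalSpace G] (R U : Set G) : Prop where
  one : (1 : G) ∈ interior R
  inv : R⁻¹ = R
  cpt : IsCompact R
  sub : R ^ 12 ⊆ U

section geo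

variable {G M : Type} [Group G] [TopologicalSpace G] [TopologicalSpace M] (S : LocalSpace G M)

/-- the points `g.p` with `g ∈ A` -/
def orb (A : Set G) (p : M) : Set M := (fun g => S.act g p) '' A

/-- the neighbourhood of the good points -/
def nb (R U : Set G) : Set M := ⋃ p ∈ S.good U, orb S (interior R) p

variable {S} {R U : Set G}

theorem Big.one' (hB : Big R U) : (1:G) ∈ R := interior_subset hB.one

theorem mem_nb {p : M} : p ∈ nb S R U ↔ ∃ p' ∈ S.good U, ∃ w ∈ interior R, S.act w p' = p := by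
  unfold nb orb
  simp only [mem_iUnion, mem_image, exists_prop]

theorem nb_of_good (hB : Big R U) {p : M} (hp : p ∈ S.good U) : p ∈ nb S R U :=
  mem_nb.mpr ⟨p, hp, 1, hB.one, S.one_act p⟩

theorem nb_act (_hB : Big R U) {p : M} (hp : p ∈ S.good U) {g : G} (hg : g ∈ interior R) :
    S.act g p ∈ nb S R U :=
  mem_nb.mpr ⟨p, hp, g, hg, rfl⟩

theorem Big.pw_sub (hB : Big R U) {m : ℕ} (hm : m ≤ 12) {a : G} (ha : a ∈ R ^ m) : a ∈ U :=
  hB.sub (pw_mono hB.one' hm ha)

theorem isOpen_nb (hB : Big R U) : IsOpen (nb S R U) := by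
  unfold nb
  refine isOpen_iUnion fun p => isOpen_iUnion fun hp => ?_
  refine hp.1.2.2.2 _ ?_ isOpen_interior
  intro g hg
  refine hB.pw_sub (m := 1) (by norm_num) ?_
  rw [pow_one]
  exact interior_subset hg

/-- Around a point of `nb` the action is an honest action. -/
theorem nb_spec (hB : Big R U) {p : M} (hp : p ∈ nb S R U) :
    ∃ p' ∈ S.good U, ∃ w ∈ R, S.act w p' = p ∧
      ∀ g ∈ R ^ 11, (g, p) ∈ S.dom ∧ S.act g p = S.act (g * w) p' := by
  obtain ⟨p', hp', w, hw, rfl⟩ := mem_nb.mp hp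
  have hwR : w ∈ R := interior_subset hw
  refine ⟨p', hp', w, hwR, rfl, ?_⟩
  intro g hg
  have hw1 : w ∈ R ^ 1 := by rwa [pow_one]
  exact hp'.2.2 g (hB.pw_sub (by norm_num) hg) w (hB.pw_sub (by norm_num) hw1)
    (hB.pw_sub (le_refl 12) (pw_mul hg hw1))

theorem nb_dom (hB : Big R U) {p : M} (hp : p ∈ nb S R U) {g : G} (hg : g ∈ R ^ 11) :
    (g, p) ∈ S.dom := by
  obtain ⟨p', -, w, -, -, h⟩ := nb_spec hB hp
  exact (h g hg).1

theorem nb_mul (hB : Big R U) {p : M} (hp : p ∈ nb S R U) {m n : ℕ} (hmn : m + n ≤ 11) {g h : G}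
    (hg : g ∈ R ^ m) (hh : h ∈ R ^ n) :
    (g, S.act h p) ∈ S.dom ∧ S.act g (S.act h p) = S.act (g * h) p := by
  obtain ⟨p', hp', w, hw, hpw, hs⟩ := nb_spec hB hp
  have hw1 : w ∈ R ^ 1 := by rwa [pow_one]
  have hh' : h ∈ R ^ 11 := pw_mono hB.one' (by omega) hh
  have hgh : g * h ∈ R ^ 11 := pw_mono hB.one' hmn (pw_mul hg hh)
  rw [(hs h hh').2, (hs _ hgh).2]
  have h1 := hp'.2.2 g (hB.pw_sub (by omega) hg) (h * w)
    (hB.pw_sub (by omega : n + 1 ≤ 12) (pw_mul hh hw1))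
    (by
      rw [← mul_assoc]
      exact hB.pw_sub (by omega : m + n + 1 ≤ 12) (pw_mul (pw_mul hg hh) hw1))
  rw [← mul_assoc] at h1
  exact h1

theorem nb_inj (hB : Big R U) {p : M} (hp : p ∈ nb S R U) :
    InjOn (fun g => S.act g p) (R ^ 11) := by
  obtain ⟨p', hp', w, hw, hpw, hs⟩ := nb_spec hB hp
  have hw1 : w ∈ R ^ 1 := by rwa [pow_one]
  intro g hg h hh hgh
  dsimp only at hgh
  rw [(hs g hg).2, (hs h hh).2] at hgh
  have h1 := hp'.1.2.2.1 (hB.pw_sub (le_refl 12) (pw_mul hg hw1))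
    (hB.pw_sub (le_refl 12) (pw_mul hh hw1)) hgh
  exact mul_right_cancel h1

theorem orb_act (hB : Big R U) {p : M} (hp : p ∈ nb S R U) {m n : ℕ} (hmn : m + n ≤ 11)
    {A : Set G} (hA : A ⊆ R ^ m) {h : G} (hh : h ∈ R ^ n) :
    orb S A (S.act h p) = orb S ((fun a => a * h) '' A) p := by
  unfold orb
  rw [image_image]
  exact image_congr fun a ha => (nb_mul hB hp hmn (hA ha) hh).2

theorem orb_eq_good (hB : Big R U) {p : M} (hp : p ∈ nb S R U) :
    ∃ p' ∈ S.good U, ∃ w ∈ R, ∀ A ⊆ R ^ 11, orb S A p = orb S ((fun a => a * w) '' A) p' := by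
  obtain ⟨p', hp', w, hw, hpw, hs⟩ := nb_spec hB hp
  refine ⟨p', hp', w, hw, ?_⟩
  intro A hA
  unfold orb
  rw [image_image]
  exact image_congr fun a ha => (hs a (hA ha)).2

end geo

section meas

variable {G M : Type} [Group G] [TopologicalSpace G] [IsTopologicalGroup G] [MeasurableSpace G]
  [BorelSpace G] [TopologicalSpace M] [MeasurableSpace M] [BorelSpace M]
  {S : LocalSpace G M} {R U : Set G} {haar : Measure G} {v : Measure M}

theorem image_mul_right_meas [haar.IsMulRightInvariant] (A : Set G) (w : G) :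
    haar ((fun a => a * w) '' A) = haar A := by
  have h1 : (fun a : G => a * w) '' A = (fun a => a * w⁻¹) ⁻¹' A := by
    ext x
    constructor
    · rintro ⟨a, ha, rfl⟩
      simpa using ha
    · intro hx
      exact ⟨x * w⁻¹, hx, by simp⟩
  rw [h1]
  exact measure_preimage_mul_right haar w⁻¹ A

theorem measurableSet_image_mul_right (A : Set G) (hA : MeasurableSet A) (w : G) :
    MeasurableSet ((fun a => a * w) '' A) := by
  have h1 : (fun a : G => a * w) '' A = (fun a => a * w⁻¹) ⁻¹' A := by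
    ext x
    constructor
    · rintro ⟨a, ha, rfl⟩
      simpa using ha
    · intro hx
      exact ⟨x * w⁻¹, hx, by simp⟩
  rw [h1]
  exact (continuous_mul_right w⁻¹).measurable hA

theorem vol_orb [haar.IsMulRightInvariant] (hB : Big R U) (hv : S.IsVol haar v) {p : M}
    (hp : p ∈ nb S R U) {A : Set G} (hA : A ⊆ R ^ 11) (hAm : MeasurableSet A) :
    v (orb S A p) = haar A := by
  obtain ⟨p', hp', w, hw, h⟩ := orb_eq_good hB hp
  rw [h A hA]
  unfold orb
  have hw1 : w ∈ R ^ 1 := by rwa [pow_one]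
  rw [hv p' U hp'.1 _ ?_ (measurableSet_image_mul_right A hAm w), image_mul_right_meas]
  rintro _ ⟨a, ha, rfl⟩
  exact hB.pw_sub (le_refl 12) (pw_mul (hA ha) hw1)

/-- the inverse of `orb` has the same volume -/
theorem vol_back [haar.IsMulRightInvariant] (hB : Big R U) (hv : S.IsVol haar v)
    {A : Set G} (hA : A ⊆ R ^ 4) (hAm : MeasurableSet A) (x : M) :
    v {p | p ∈ nb S R U ∧ x ∈ orb S A⁻¹ p} ≤ haar A := by
  by_cases hne : ∃ p0, p0 ∈ nb S R U ∧ x ∈ orb S A⁻¹ p0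
  · obtain ⟨p0, hp0, a0, ha0, hx0⟩ := hne
    have ha0R : a0 ∈ R ^ 4 := by
      have h1 := pw_inv hB.inv (hA ha0)
      rwa [inv_inv] at h1
    have hsub : {p | p ∈ nb S R U ∧ x ∈ orb S A⁻¹ p} ⊆ orb S ((fun a => a * a0) '' A) p0 := by
      rintro p ⟨hp, b, hb, hxb⟩
      dsimp only at hxb hx0
      have hbR : b⁻¹ ∈ R ^ 4 := hA hb
      have hbR' : b ∈ R ^ 4 := by
        have h1 := pw_inv hB.inv hbR
        rwa [inv_inv] at h1
      have h1 : S.act b⁻¹ x = p := by
        rw [← hxb]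
        exact S.inv_act b p (nb_dom hB hp (pw_mono hB.one' (by norm_num) hbR'))
      refine ⟨b⁻¹ * a0, ⟨b⁻¹, hb, rfl⟩, ?_⟩
      dsimp only
      rw [← (nb_mul hB hp0 (by norm_num : 4 + 4 ≤ 11) hbR ha0R).2, hx0, h1]
    refine (measure_mono hsub).trans ?_
    rw [vol_orb hB hv hp0 ?_ (measurableSet_image_mul_right A hAm a0), image_mul_right_meas]
    rintro _ ⟨a, ha, rfl⟩
    exact pw_mono hB.one' (by norm_num) (pw_mul (hA ha) ha0R)
  · push Not at hne
    have h1 : {p | p ∈ nb S R U ∧ x ∈ orb S A⁻¹ p} = ∅ := by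
      ext p
      simp only [mem_setOf_eq, mem_empty_iff_false, iff_false, not_and]
      exact hne p
    rw [h1, measure_empty]
    exact bot_le

/-- points with intersecting patches are close -/
theorem orb_inter (hB : Big R U) {A : Set G} (hA : A ⊆ R ^ 4) {p q : M} (hp : p ∈ nb S R U)
    (hq : q ∈ nb S R U) (h : (orb S A p ∩ orb S A q).Nonempty) : q ∈ orb S (A⁻¹ * A) p := by
  obtain ⟨x, ⟨a, ha, hxa⟩, b, hb, hxb⟩ := h
  dsimp only at hxa hxb
  have hbi := pw_inv hB.inv (hA hb)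
  have h1 : S.act b⁻¹ x = q := by
    rw [← hxb]
    exact S.inv_act b q (nb_dom hB hq (pw_mono hB.one' (by norm_num) (hA hb)))
  refine ⟨b⁻¹ * a, Set.mul_mem_mul (Set.inv_mem_inv.mpr hb) ha, ?_⟩
  dsimp only
  rw [← (nb_mul hB hp (by norm_num : 4 + 4 ≤ 11) hbi (hA ha)).2, hxa, h1]

variable [SecondCountableTopology M] [LocallyCompactSpace M] [T2Space M]

/-- joint measurability of the orbit relation -/
theorem measurableSet_rel (hB : Big R U) {K : Set G} (hK : IsCompact K) (hKR : K ⊆ R ^ 11) :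
    MeasurableSet {z : M × M | z.1 ∈ nb S R U ∧ z.2 ∈ orb S K z.1} := by
  have hopen := isOpen_nb (S := S) hB
  haveI : LocallyCompactSpace (nb S R U) := hopen.locallyCompactSpace
  have hsig : IsSigmaCompact (nb S R U) := isSigmaCompact_iff_sigmaCompactSpace.mpr inferInstance
  obtain ⟨C, hC, hCU⟩ := hsig
  have h1 : {z : M × M | z.1 ∈ nb S R U ∧ z.2 ∈ orb S K z.1} =
      ⋃ n, (fun z : G × M => (z.2, S.act z.1 z.2)) '' (K ×ˢ C n) := by
    ext ⟨p, x⟩
    simp only [mem_setOf_eq, mem_iUnion, mem_image, mem_prod, Prod.exists, Prod.mk.injEq]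
    constructor
    · rintro ⟨hp, k, hk, hkx⟩
      rw [← hCU] at hp
      obtain ⟨n, hn⟩ := mem_iUnion.mp hp
      exact ⟨n, k, p, ⟨hk, hn⟩, rfl, hkx⟩
    · rintro ⟨n, k, p', ⟨hk, hn⟩, rfl, hkx⟩
      refine ⟨?_, k, hk, hkx⟩
      rw [← hCU]
      exact mem_iUnion.mpr ⟨n, hn⟩
  rw [h1]
  refine MeasurableSet.iUnion fun n => ?_
  refine IsCompact.measurableSet ?_
  refine (hK.prod (hC n)).image_of_continuousOn ?_
  refine ContinuousOn.prodMk continuous_snd.continuousOn (S.continuousOn_act.mono ?_)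
  rintro ⟨g, p⟩ ⟨hg, hp⟩
  refine nb_dom hB ?_ (hKR hg)
  rw [← hCU]
  exact mem_iUnion.mpr ⟨n, hp⟩

theorem measurableSet_orb (hB : Big R U) {K : Set G} (hK : IsCompact K) (hKR : K ⊆ R ^ 11)
    {p : M} (hp : p ∈ nb S R U) : MeasurableSet (orb S K p) := by
  have h1 := (measurable_prodMk_left (x := p)) (measurableSet_rel (S := S) hB hK hKR)
  have h2 : (Prod.mk p ⁻¹' {z : M × M | z.1 ∈ nb S R U ∧ z.2 ∈ orb S K z.1}) = orb S K p := by
    ext x
    simp [hp]
  rwa [h2] at h1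

end meas

end Pool.Agent.Y316.PC
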