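import Pool.Agent.Y316.PC.Loc

set_option autoImplicit false
set_option linter.unusedSectionVars false

/-!
# Inversion invariance
-/

namespace Pool.Agent.Y316.PC

open MeasureTheory Set Filter Topology ProbabilityTheory Pointwise
open scoped ENNReal NNReal symmDiff

section inv

variable {G : Type} [Group G] [TopologicalSpace G] [IsTopologicalGroup G] [T2Space G]
  [LocallyCompactSpace G] [SecondCountableTopology G] [MeasurableSpace G] [BorelSpace G]

/-- Haar measure of a unimodular group is invariant under inversion. -/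
theorem haar_inv (μ : Measure G) [μ.IsHaarMeasure] [μ.IsMulRightInvariant] :
    μ.IsInvInvariant := by
  constructor
  have hfc : IsFiniteMeasureOnCompacts μ.inv := by
    constructor
    intro K hK
    rw [Measure.inv_apply]
    exact hK.inv.measure_lt_top
  let c : ℝ≥0∞ := Measure.haarScalarFactor μ.inv μ
  have hc : μ.inv = c • μ := Measure.isMulLeftInvariant_eq_smul μ.inv μ
  have : Measure.map Inv.inv (Measure.map Inv.inv μ) = c ^ 2 • μ := by
    rw [← Measure.inv_def μ, hc, Measure.map_smul, ← Measure.inv_def μ, hc, smul_smul, pow_two]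
  have μeq : μ = c ^ 2 • μ := by
    rw [Measure.map_map continuous_inv.measurable continuous_inv.measurable] at this
    simpa only [inv_involutive, Function.Involutive.comp_self, Measure.map_id]
  have K : TopologicalSpace.PositiveCompacts G := Classical.arbitrary _
  have : c ^ 2 * μ K = 1 ^ 2 * μ K := by
    conv_rhs => rw [μeq]
    simp
  have : c ^ 2 = 1 ^ 2 :=
    (ENNReal.mul_left_inj (Measure.measure_pos_of_nonempty_interior _ K.interior_nonempty).ne'
          K.isCompact.measure_lt_top.ne).1 this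
  have : c = 1 := (ENNReal.pow_right_strictMono two_ne_zero).injective this
  rw [hc, this, one_smul]

variable {haar : Measure G} [haar.IsHaarMeasure] [haar.IsMulRightInvariant] {t : ℝ≥0}
  {P : Measure (Measure G)}

theorem haar_inv_apply (A : Set G) : haar A⁻¹ = haar A := by
  have := haar_inv haar
  exact Measure.measure_inv haar A

theorem psi_inv {ι : Type} [Fintype ι] (A : ι → Set G) (s : ι → ℝ) :
    psi (t • haar) (step (fun i => (A i)⁻¹) s) = psi (t • haar) (step A s) := by
  have := haar_inv haar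
  rw [psi_smul, psi_smul]
  congr 1
  unfold psi
  exact integral_inv_eq_self (fun x => Complex.exp (step A s x * Complex.I) - 1) haar

theorem law_inv (hP : IsPoisson haar t P) (ht : t ≠ 0) {ι : Type} [Fintype ι] {A : ι → Set G}
    (hA : ∀ i, IsCompact (A i)) :
    P.map (fun ω => (fun i => cnt (A i)⁻¹ ω)) = P.map (fun ω => (fun i => cnt (A i) ω)) := by
  have hf : ∀ i, (t • haar) (A i) ≠ ⊤ := by
    intro i
    rw [Measure.smul_apply, ENNReal.smul_def]
    exact ENNReal.mul_ne_top (by simp) (hA i).measure_lt_top.ne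
  have hf' : ∀ i, (t • haar) (A i)⁻¹ ≠ ⊤ := by
    intro i
    rw [Measure.smul_apply, ENNReal.smul_def]
    exact ENNReal.mul_ne_top (by simp) (hA i).inv.measure_lt_top.ne
  exact (hP.prm ht).law_eq (hP.prm ht) (A := fun i => (A i)⁻¹) (A' := A)
    (fun i => (hA i).inv.measurableSet) hf' (fun i => (hA i).measurableSet) hf
    (fun s => psi_inv A s)

theorem integral_inv_law (hP : IsPoisson haar t P) (ht : t ≠ 0) {ι : Type} [Fintype ι]
    {A : ι → Set G} (hA : ∀ i, IsCompact (A i)) (H : (ι → ℕ) → ℝ) :
    ∫ ω, H (fun i => cnt (A i)⁻¹ ω) ∂P = ∫ ω, H (fun i => cnt (A i) ω) ∂P := by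
  have hH : Measurable H := Measurable.of_discrete
  rw [← integral_map (measurable_cnt_vec (K := fun i => (A i)⁻¹)
    (fun i => (hA i).inv.measurableSet)).aemeasurable hH.aestronglyMeasurable,
    law_inv hP ht hA, integral_map (measurable_cnt_vec (K := A)
    (fun i => (hA i).measurableSet)).aemeasurable hH.aestronglyMeasurable]

/-- continuity of translations in measure -/
theorem symm_small {K : Set G} (hK : IsCompact K) {θ : ℝ} (hθ : 0 < θ) :
    ∀ᶠ h in 𝓝 (1 : G), haar (((fun x => x * h) '' K) ∆ K) ≤ ENNReal.ofReal θ := by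
  obtain ⟨O, hKO, hO, hOm⟩ := K.exists_isOpen_lt_add (μ := haar) hK.measure_lt_top.ne
    (ENNReal.ofReal_pos.mpr (half_pos hθ)).ne'
  have hdiff : haar (O \ K) ≤ ENNReal.ofReal (θ / 2) := by
    rw [measure_sdiff hKO hK.measurableSet.nullMeasurableSet hK.measure_lt_top.ne]
    exact tsub_le_iff_left.mpr hOm.le
  have h1 : ∀ᶠ h in 𝓝 (1 : G), ∀ x ∈ K, x * h ∈ O := by
    refine hK.eventually_forall_of_forall_eventually ?_
    intro x hx
    have hc : Continuous (fun z : G × G => z.2 * z.1) := continuous_snd.mul continuous_fst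
    have h2 : O ∈ 𝓝 ((fun z : G × G => z.2 * z.1) ((1 : G), x)) := by
      refine hO.mem_nhds ?_
      simpa using hKO hx
    exact hc.continuousAt h2
  have h2 : ∀ᶠ h in 𝓝 (1 : G), ∀ x ∈ K, x * h⁻¹ ∈ O := by
    have h3 : Tendsto (fun h : G => h⁻¹) (𝓝 1) (𝓝 1) := by
      have := (continuous_inv (G := G)).tendsto 1
      rwa [inv_one] at this
    exact h3.eventually h1
  filter_upwards [h1, h2] with h hh1 hh2
  have hsub : ((fun x => x * h) '' K) ∆ K ⊆ (O \ K) ∪ (fun x => x * h) '' (O \ K) := by
    intro x hx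
    rw [Set.mem_symmDiff] at hx
    rcases hx with ⟨⟨y, hy, rfl⟩, hxK⟩ | ⟨hxK, hx⟩
    · exact Or.inl ⟨hh1 y hy, hxK⟩
    · right
      refine ⟨x * h⁻¹, ⟨hh2 x hxK, ?_⟩, by simp⟩
      intro h3
      exact hx ⟨x * h⁻¹, h3, by simp⟩
  refine (measure_mono hsub).trans ((measure_union_le _ _).trans ?_)
  rw [image_mul_right_meas]
  calc haar (O \ K) + haar (O \ K) ≤ ENNReal.ofReal (θ / 2) + ENNReal.ofReal (θ / 2) :=
        add_le_add hdiff hdiff
    _ = ENNReal.ofReal θ := by
        rw [← ENNReal.ofReal_add (by positivity) (by positivity)]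
        congr 1
        ring

end inv

end Pool.Agent.Y316.PC
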