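import Pool.Agent.Y316.PC.StA

set_option autoImplicit false
set_option linter.unusedSectionVars false

/-!
# The lower bound on one space of the sofic approximation
-/

namespace Pool.Agent.Y316.PC

open MeasureTheory Set Filter Topology ProbabilityTheory Pointwise
open scoped ENNReal NNReal symmDiff BoundedContinuousFunction

section level

variable {G M : Type} [Group G] [TopologicalSpace G] [IsTopologicalGroup G] [T2Space G]
  [LocallyCompactSpace G] [SecondCountableTopology G]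
  [MeasurableSpace G] [BorelSpace G] [TopologicalSpace M] [MeasurableSpace M] [BorelSpace M]
  [SecondCountableTopology M] [LocallyCompactSpace M] [T2Space M]
  {S : LocalSpace G M} {R U : Set G} {haar : Measure G} [haar.IsHaarMeasure]
  [haar.IsMulRightInvariant] {v : Measure M} [IsFiniteMeasure v] {t : ℝ≥0}
  {P : Measure (Measure G)}
  {Y : Type} [MetricSpace Y] [CompleteSpace Y] [SecondCountableTopology Y]
  [MeasurableSpace Y] [BorelSpace Y] [Nonempty Y] [MulAction G Y] [ContinuousSMul G Y]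

theorem level (hB : Big R U) (hv : S.IsVol haar v) (hP : IsPoisson haar t P) (ht : t ≠ 0)
    {V0 W0 : Set G} (hV0 : IsCompact V0) (hVR : V0 ⊆ R ^ 2) (hW0 : IsCompact W0)
    (hWR : W0 ⊆ interior R) (hWV : W0 ⊆ V0) (hW0' : 0 < (haar W0).toReal) {m : ℕ} (hm : m ≠ 0)
    (hmv : (m : ℝ≥0∞) * haar (V0⁻¹ * V0) < v (S.good U))
    {ι : Type} [Fintype ι] {E : ι → Set G} (hE : ∀ i, IsCompact (E i))
    (hER : ∀ i, (E i)⁻¹ ⊆ R) {ι0 : Type} [Fintype ι0] {E0 : ι0 → Set G}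
    (hE0 : ∀ i, IsCompact (E0 i)) (hE0R : ∀ i, (E0 i)⁻¹ ⊆ R) (hKV : ∀ i, (E0 i)⁻¹ * W0 ⊆ V0)
    (F : (ι → ℕ) → Y) (F0 : (ι0 → ℕ) → Y) {ρ : Y → Y → ℝ} {D : ℝ} (hD : 0 < D)
    (hρc : Continuous (fun z : Y × Y => ρ z.1 z.2)) (hρ0 : ∀ y, ρ y y = 0)
    (hρs : ∀ x y, ρ x y = ρ y x) (hρt : ∀ x y z, ρ x z ≤ ρ x y + ρ y z)
    (hρD : ∀ x y, ρ x y ≤ D) {C U' : Set G} (hUC : U' ⊆ C) {L : Finset G} (hLC : ↑L ⊆ C)
    (hCR : C ⊆ interior R) {θ δ : ℝ} (hθ : 0 < θ) (hδ : 0 < δ)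
    (hnet : ∀ g ∈ C, ∃ g' ∈ L, (∀ i, haar (((fun a => a * g) '' (E i)⁻¹) ∆
      ((fun a => a * g') '' (E i)⁻¹)) ≤ ENNReal.ofReal θ) ∧
      ∀ y ∈ range F, ρ (g' • y) (g • y) ≤ δ / 8)
    {κ : ℝ} (hκ : 0 < κ) (hκδ : κ ≤ δ / 8)
    (hfa : ∀ g ∈ C, ∫ ω, ρ (F (fun i => cnt (E i) (ω.map (fun x => g * x))))
        (g • F (fun i => cnt (E i) ω)) ∂P ≤ κ)
    {Jf : Type} [Fintype Jf] {f : Jf → (Y →ᵇ ℝ)} {νp : ProbabilityMeasure Y} {η : ℝ}
    (hη : 0 < η) (hκη : κ ≤ η / 8)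
    (hfb : ∀ j, |∫ ω, f j (F (fun i => cnt (E i) ω)) ∂P - ∫ y, f j y ∂(νp : Measure Y)| ≤ κ)
    {O : Set (ProbabilityMeasure Y)} (hO : ∀ κ : ProbabilityMeasure Y,
        (∀ j, |∫ y, f j y ∂(κ : Measure Y) - ∫ y, f j y ∂(νp : Measure Y)| < η) → κ ∈ O)
    {κ0 : ℝ} (hκ0 : 0 < κ0)
    (hfc : ∫ ω, ρ (F (fun i => cnt (E i) ω)) (F0 (fun i => cnt (E0 i) ω)) ∂P ≤ 2 * κ0)
    {a : ℝ}
    (ha : a ≤ ∫ ω, ∫ ω', ρ (F0 (fun i => cnt (E0 i) ω)) (F0 (fun i => cnt (E0 i) ω')) ∂P ∂P)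
    {b : ℝ} (hb : 0 ≤ b) (hgood : v (S.good U)ᶜ ≤ ENNReal.ofReal b)
    (hV : 0 < (v univ).toReal) (hDb : D * b ≤ δ / 8 * (v univ).toReal)
    (hfb' : ∀ j, 2 * ‖f j‖ * b ≤ η / 4 * (v univ).toReal)
    (hθD : D * (16 * t * (Fintype.card ι * θ)) ≤ δ / 8)
    (hV1 : L.card * ((2 * D) ^ 2 * (haar (R ^ 4)).toReal / ((δ / 8) ^ 2 * (v univ).toReal)) ≤
      1 / 16)
    (hV2 : ∑ j, (2 * ‖f j‖) ^ 2 * (haar (R ^ 4)).toReal / ((η / 4) ^ 2 * (v univ).toReal) ≤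
      1 / 16)
    {e : ℝ} (he : 0 < e)
    (hee : 4 * e * (v univ).toReal ≤ m * (haar W0).toReal * a / 4 -
      2 * (16 * (2 * κ0) * (m * (haar W0).toReal))) {n : ℕ} (hn : n ≠ 0)
    (hnq : (n : ℝ) ^ 2 * (4 * Real.exp (-(m * a / (4 * D)))) < 1) :
    ((Real.log n : ℝ) : EReal) ≤ logSep v ρ e (Map S v ρ U' δ O) := by
  have hρnn : ∀ x y, 0 ≤ ρ x y := by
    intro x y
    have h1 := hρt x y x
    rw [hρ0, hρs y x] at h1
    linarith
  obtain ⟨p, hp, hd⟩ := greedy hB hv hV0 hVR m hmv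
  have hVne : v univ ≠ 0 := fun h => by rw [h] at hV; simp at hV
  obtain ⟨ν, r, hνp, hr, hae, hsum, hrs⟩ := exists_mix (S := S) hB hV0 hVR hp hd hVne t
  have hWR' : W0 ⊆ R ^ 11 := hB.sub11 (hWR.trans interior_subset)
  have hZj : ∀ j, MeasurableSet (orb S W0 (p j)) := fun j =>
    measurableSet_orb hB hW0 hWR' (nb_of_good hB (hp j))
  have hZ : MeasurableSet (⋃ j, orb S W0 (p j)) := MeasurableSet.iUnion hZj
  have hZn : (⋃ j, orb S W0 (p j)) ⊆ nb S R U := by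
    refine iUnion_subset fun j => ?_
    rintro _ ⟨w, hw, rfl⟩
    exact nb_act hB (hp j) (hWR hw)
  have hdW : Pairwise (Function.onFun Disjoint (fun j => orb S W0 (p j))) := by
    intro i j hij
    exact (hd hij).mono (image_mono hWV) (image_mono hWV)
  have hZv : (v (⋃ j, orb S W0 (p j))).toReal = m * (haar W0).toReal := by
    rw [measure_iUnion hdW hZj, tsum_fintype]
    have h1 : ∀ j, v (orb S W0 (p j)) = haar W0 := fun j =>
      vol_orb hB hv (nb_of_good hB (hp j)) hWR' hW0.measurableSet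
    simp only [h1, Finset.sum_const, Finset.card_univ, Fintype.card_fin, nsmul_eq_mul]
    rw [ENNReal.toReal_mul, ENNReal.toReal_natCast]
  have hZv0 : 0 < (v (⋃ j, orb S W0 (p j))).toReal := by
    rw [hZv]
    have : (0:ℝ) < m := by exact_mod_cast Nat.pos_of_ne_zero hm
    positivity
  obtain ⟨A, hA, hA2, hAgood⟩ := stageA hB hv hP ht hsum hrs hE hER hE0 hE0R F F0 hD hρnn hρt hρD
    hLC hCR hθ hδ hnet hκ hκδ hfa hη hκη hfb hκ0 hfc hZ hZn hZv0 hb hgood hV hDb hfb' hθD hV1 hV2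
  have hJm : Jm (fun (ω : Option (Fin m) → ℕ × (ℕ → M)) A => numS ω A) := jm_numS
  have hFm : Measurable F := Measurable.of_discrete
  have hF0m : Measurable F0 := Measurable.of_discrete
  have hφm : Measurable (fun z : M × (Option (Fin m) → ℕ × (ℕ → M)) =>
      F (cv S R U numS (fun i => (E i)⁻¹) z.2 z.1)) :=
    hFm.comp (measurable_cv (S := S) hB hJm (fun i => (hE i).inv) fun i => hB.sub11 (hER i))
  have hφ0m : Measurable (fun z : M × (Option (Fin m) → ℕ × (ℕ → M)) =>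
      F0 (cv S R U numS (fun i => (E0 i)⁻¹) z.2 z.1)) :=
    hF0m.comp (measurable_cv (S := S) hB hJm (fun i => (hE0 i).inv) fun i => hB.sub11 (hE0R i))
  have hsb := sep_bound hB hv hP ht hV0 hVR hW0 hWR hWV hW0' hp hd hr hae
    (K := fun i => (E0 i)⁻¹) (fun i => (hE0 i).inv) hE0R hKV
    (fun c c' => ρ (F0 c) (F0 c')) hD (fun c c' => hρnn _ _) (fun c c' => hρD _ _) (a := a) (by
      refine ha.trans (le_of_eq ?_)
      refine double_law (measurable_cnt_vec fun i => (hE0 i).measurableSet)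
        (measurable_cnt_vec (K := fun i => (E0 i)⁻¹) fun i => (hE0 i).inv.measurableSet) ?_
        (fun c c' => ρ (F0 c) (F0 c'))
      exact (law_inv hP ht hE0).symm)
  refine stageB (v := v) (Q := mixS ν r)
    (φ := fun ω x => F (cv S R U numS (fun i => (E i)⁻¹) ω x))
    (φ0 := fun ω x => F0 (cv S R U numS (fun i => (E0 i)⁻¹) ω x)) hφm hφ0m hρc hρ0 hρs hρt hρD
    (Z := ⋃ j, orb S W0 (p j)) hA hA2 ?_ (err := 16 * (2 * κ0) * (m * (haar W0).toReal)) ?_ hV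
    (τ := m * (haar W0).toReal * a / 4)
    (Real.exp_pos _).le hsb he hee hn hnq
  · intro ω hω
    obtain ⟨h1, h2, h3⟩ := hAgood ω hω
    have hm1 : Measurable (fun x => F (cv S R U numS (fun i => (E i)⁻¹) ω x)) :=
      hFm.comp (jm_comp (b := fun _ : M => ω) hB hJm (fun i => (hE i).inv)
        (fun i => hB.sub11 (hER i)) measurable_id measurable_const)
    refine ⟨hm1, ?_, ?_⟩
    · intro g hg
      rw [div_lt_iff₀ hV]
      exact h1 g (hUC hg)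
    · exact weak_mem hm1 hVne hO h2
  · intro ω hω
    obtain ⟨h1, h2, h3⟩ := hAgood ω hω
    rw [hZv] at h3
    exact h3


end level

end Pool.Agent.Y316.PC
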