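import Pool.Agent.Y316.PC.PRM

set_option autoImplicit false

/-!
# Mixed binomial processes and their superpositions
-/

namespace Pool.Agent.Y316.PC

open MeasureTheory Set Filter Topology ProbabilityTheory
open scoped ENNReal NNReal

section one

variable {M : Type}

/-- number of points in `A` -/
noncomputable def num (ω : ℕ × (ℕ → M)) (A : Set M) : ℕ :=
  ∑ j ∈ Finset.range ω.1, A.indicator (fun _ => 1) (ω.2 j)

variable [MeasurableSpace M]

theorem measurable_num {A : Set M} (hA : MeasurableSet A) :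
    Measurable (fun ω : ℕ × (ℕ → M) => num ω A) := by
  refine measurable_from_prod_countable_right fun n => ?_
  show Measurable (fun x : ℕ → M => ∑ j ∈ Finset.range n, A.indicator (fun _ => (1:ℕ)) (x j))
  refine Finset.measurable_sum _ fun j _ => ?_
  exact (measurable_const.indicator hA).comp (measurable_pi_apply j)

theorem measurable_num_rel {Z : Type} [MeasurableSpace Z] {R : Set (Z × M)}
    (hR : MeasurableSet R) :
    Measurable (fun z : Z × (ℕ × (ℕ → M)) => num z.2 {x | (z.1, x) ∈ R}) := by
  have h1 : Measurable (fun w : ℕ × (Z × (ℕ → M)) =>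
      ∑ j ∈ Finset.range w.1, R.indicator (fun _ => (1:ℕ)) (w.2.1, w.2.2 j)) := by
    refine measurable_from_prod_countable_right fun n => ?_
    show Measurable (fun w : Z × (ℕ → M) =>
      ∑ j ∈ Finset.range n, R.indicator (fun _ => (1:ℕ)) (w.1, w.2 j))
    refine Finset.measurable_sum _ fun j _ => ?_
    refine (measurable_const.indicator hR).comp ?_
    exact measurable_fst.prodMk ((measurable_pi_apply j).comp measurable_snd)
  exact h1.comp ((measurable_fst.comp measurable_snd).prodMk
    (measurable_fst.prodMk (measurable_snd.comp measurable_snd)))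

/-- the mixed binomial process with intensity `r • ν` -/
noncomputable def mixd (ν : Measure M) [IsProbabilityMeasure ν] (r : ℝ≥0) :
    Measure (ℕ × (ℕ → M)) :=
  (poissonMeasure r).prod (Measure.infinitePi (fun _ : ℕ => ν))

instance (ν : Measure M) [IsProbabilityMeasure ν] (r : ℝ≥0) : IsProbabilityMeasure (mixd ν r) := by
  unfold mixd
  infer_instance

theorem integral_prod_range (ν : Measure M) [IsProbabilityMeasure ν] (f : M → ℂ)
    (hf : Measurable f) (n : ℕ) :
    ∫ x : ℕ → M, ∏ j ∈ Finset.range n, f (x j) ∂(Measure.infinitePi (fun _ : ℕ => ν)) =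
      (∫ x, f x ∂ν) ^ n := by
  have h1 : ∀ x : ℕ → M, ∏ j ∈ Finset.range n, f (x j) =
      ∏ j : Finset.range n, f ((Finset.range n).restrict x j) := by
    intro x
    rw [← Finset.prod_coe_sort]
    rfl
  simp only [h1]
  have h2 := Measure.infinitePi_map_restrict (μ := fun _ : ℕ => ν) (I := Finset.range n)
  have h3 : ∫ x : ℕ → M, ∏ j : Finset.range n, f ((Finset.range n).restrict x j)
      ∂(Measure.infinitePi (fun _ : ℕ => ν)) =
      ∫ y : (Finset.range n) → M, ∏ j : Finset.range n, f (y j)
        ∂((Measure.infinitePi (fun _ : ℕ => ν)).map (Finset.range n).restrict) := by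
    rw [integral_map]
    · exact (Finset.measurable_restrict _).aemeasurable
    · refine Measurable.aestronglyMeasurable ?_
      refine Finset.measurable_prod _ fun j _ => ?_
      exact hf.comp (measurable_pi_apply j)
  rw [h3, h2, integral_fintype_prod_eq_prod (fun (_ : Finset.range n) (x : M) => f x)]
  rw [Finset.prod_const, Finset.card_univ, Fintype.card_coe, Finset.card_range]

theorem sum_num {ι : Type} [Fintype ι] (A : ι → Set M) (s : ι → ℝ) (ω : ℕ × (ℕ → M)) :
    ∑ i, s i * (num ω (A i) : ℝ) = ∑ j ∈ Finset.range ω.1, step A s (ω.2 j) := by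
  unfold num step
  rw [Finset.sum_comm]
  refine Finset.sum_congr rfl fun i _ => ?_
  rw [← Finset.mul_sum]
  congr 1
  push_cast
  refine Finset.sum_congr rfl fun j _ => ?_
  by_cases h : ω.2 j ∈ A i
  · rw [indicator_of_mem h, indicator_of_mem h]
    norm_num
  · rw [indicator_of_notMem h, indicator_of_notMem h]
    norm_num

theorem measurable_step {ι : Type} [Fintype ι] {A : ι → Set M} (hA : ∀ i, MeasurableSet (A i))
    (s : ι → ℝ) : Measurable (step A s) := by
  unfold step
  refine Finset.measurable_sum _ fun i _ => ?_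
  exact (measurable_const.indicator (hA i)).const_mul (s i)

theorem norm_cexp_mul_I (x : ℝ) : ‖Complex.exp ((x : ℂ) * Complex.I)‖ = 1 :=
  Complex.norm_exp_ofReal_mul_I x

theorem integrable_cexp {Ω : Type} [MeasurableSpace Ω] (Q : Measure Ω) [IsFiniteMeasure Q]
    {f : Ω → ℝ} (hf : Measurable f) :
    Integrable (fun ω => Complex.exp ((f ω : ℂ) * Complex.I)) Q := by
  refine Integrable.of_bound (C := 1) ?_ ?_
  · exact (by fun_prop : Measurable (fun ω => Complex.exp ((f ω : ℂ) * Complex.I))).aestronglyMeasurable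
  · exact Eventually.of_forall fun ω => (norm_cexp_mul_I _).le

theorem mixd_char (ν : Measure M) [IsProbabilityMeasure ν] (r : ℝ≥0) {ι : Type} [Fintype ι]
    {A : ι → Set M} (hA : ∀ i, MeasurableSet (A i)) (s : ι → ℝ) :
    ∫ ω, Complex.exp (((∑ i, s i * (num ω (A i) : ℝ) : ℝ) : ℂ) * Complex.I) ∂(mixd ν r) =
      Complex.exp ((r : ℂ) * psi ν (step A s)) := by
  have hstep := measurable_step hA s
  have hm : Measurable (fun ω : ℕ × (ℕ → M) => ∑ i, s i * (num ω (A i) : ℝ)) := by
    refine Finset.measurable_sum _ fun i _ => ?_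
    refine Measurable.const_mul ?_ (s i)
    exact (measurable_from_top (f := fun n : ℕ => (n:ℝ))).comp (measurable_num (hA i))
  unfold mixd
  rw [integral_prod _ (integrable_cexp _ hm)]
  have h1 : ∀ n : ℕ, ∫ x : ℕ → M, Complex.exp (((∑ i, s i * (num (n, x) (A i) : ℝ) : ℝ) : ℂ) *
      Complex.I) ∂(Measure.infinitePi (fun _ : ℕ => ν)) =
      (∫ x, Complex.exp ((step A s x : ℂ) * Complex.I) ∂ν) ^ n := by
    intro n
    rw [← integral_prod_range ν (fun x => Complex.exp ((step A s x : ℂ) * Complex.I))
      (by fun_prop) n]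
    refine integral_congr_ae (Eventually.of_forall fun x => ?_)
    dsimp only
    rw [sum_num, ← Complex.exp_sum, ← Finset.sum_mul]
    push_cast
    rfl
  simp only [h1]
  set z := ∫ x, Complex.exp ((step A s x : ℂ) * Complex.I) ∂ν with hz
  have h2 : psi ν (step A s) = z - 1 := by
    unfold psi
    rw [integral_sub (integrable_cexp ν hstep) (integrable_const _)]
    simp [hz]
  rw [integral_poissonMeasure r, h2]
  calc ∑' a, (Real.exp (-r) * (r:ℝ) ^ a / a.factorial : ℝ) • (z ^ a)
      = ∑' a, ((Real.exp (-r) : ℝ) : ℂ) * (((r : ℂ) * z) ^ a / a.factorial) := by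
        congr with a
        rw [Complex.real_smul]
        push_cast
        rw [mul_pow]
        ring_nf
    _ = (Real.exp (-r) : ℝ) * ∑' a, (((r : ℂ) * z) ^ a / a.factorial) := tsum_mul_left
    _ = (Real.exp (-r) : ℝ) * Complex.exp ((r : ℂ) * z) := by
        rw [(NormedSpace.expSeries_div_hasSum_exp ((r : ℂ) * z)).tsum_eq, Complex.exp_eq_exp_ℂ]
    _ = Complex.exp ((r : ℂ) * (z - 1)) := by
        rw [Complex.ofReal_exp, ← Complex.exp_add]
        push_cast
        ring_nf

theorem lintegral_id_poisson (r : ℝ≥0) : ∫⁻ n, (n : ℝ≥0∞) ∂(poissonMeasure r) = r := by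
  unfold poissonMeasure
  rw [lintegral_sum_measure]
  simp only [lintegral_smul_measure, lintegral_dirac, smul_eq_mul]
  rw [tsum_eq_zero_add' ENNReal.summable]
  have h1 : ∀ n : ℕ, ENNReal.ofReal (Real.exp (-r) * (r:ℝ) ^ (n + 1) / (n + 1).factorial) *
      ((n + 1 : ℕ) : ℝ≥0∞) = r * ENNReal.ofReal (Real.exp (-r) * (r:ℝ) ^ n / n.factorial) := by
    intro n
    rw [← ENNReal.ofReal_natCast (n + 1), ← ENNReal.ofReal_coe_nnreal (p := r),
      ← ENNReal.ofReal_mul (by positivity), ← ENNReal.ofReal_mul (by positivity)]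
    congr 1
    rw [Nat.factorial_succ]
    push_cast
    field_simp
    ring
  simp only [h1, Nat.cast_zero, mul_zero, zero_add]
  rw [ENNReal.tsum_mul_left]
  have h2 : ∑' n : ℕ, ENNReal.ofReal (Real.exp (-r) * (r:ℝ) ^ n / n.factorial) = 1 := by
    rw [← ENNReal.ofReal_tsum_of_nonneg (fun n => by positivity)
      (hasSum_one_poissonMeasure r).summable, (hasSum_one_poissonMeasure r).tsum_eq,
      ENNReal.ofReal_one]
  rw [h2, mul_one]

theorem lintegral_num_univ (ν : Measure M) [IsProbabilityMeasure ν] (r : ℝ≥0) :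
    ∫⁻ ω, (ω.1 : ℝ≥0∞) ∂(mixd ν r) = r := by
  unfold mixd
  rw [lintegral_prod (fun ω : ℕ × (ℕ → M) => (ω.1 : ℝ≥0∞)) (by fun_prop)]
  simp only [lintegral_const, measure_univ, mul_one]
  exact lintegral_id_poisson r

end one

section super

variable {M J : Type} [MeasurableSpace M] [Fintype J]

/-- number of points of the superposition in `A` -/
noncomputable def numS (ω : J → ℕ × (ℕ → M)) (A : Set M) : ℕ := ∑ j, num (ω j) A

/-- the product measure -/
noncomputable def mixS (ν : J → Measure M) [∀ j, IsProbabilityMeasure (ν j)] (r : J → ℝ≥0) :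
    Measure (J → ℕ × (ℕ → M)) := Measure.pi fun j => mixd (ν j) (r j)

instance (ν : J → Measure M) [∀ j, IsProbabilityMeasure (ν j)] (r : J → ℝ≥0) :
    IsProbabilityMeasure (mixS ν r) := by
  unfold mixS
  infer_instance

theorem psi_sum {f : M → ℝ} (hf : Measurable f) (ν : J → Measure M)
    [∀ j, IsProbabilityMeasure (ν j)] (r : J → ℝ≥0) :
    psi (∑ j, r j • ν j) f = ∑ j, (r j : ℂ) * psi (ν j) f := by
  unfold psi
  rw [integral_finsetSum_measure]
  · refine Finset.sum_congr rfl fun j _ => ?_
    rw [integral_smul_nnreal_measure]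
    rfl
  · intro j _
    refine Integrable.smul_measure_nnreal ?_
    exact (integrable_cexp (ν j) hf).sub (integrable_const _)

/-- The superposition is a Poisson random measure. -/
theorem prm_mixS (ν : J → Measure M) [∀ j, IsProbabilityMeasure (ν j)] (r : J → ℝ≥0) :
    PRM (∑ j, r j • ν j) (mixS ν r) numS := by
  refine ⟨inferInstance, ?_, ?_⟩
  · intro A hA
    unfold numS
    refine Finset.measurable_sum _ fun j _ => ?_
    exact (measurable_num hA).comp (measurable_pi_apply j)
  · intro ι _ A s hA _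
    rw [psi_sum (measurable_step hA s), Complex.exp_sum]
    have h1 : ∀ ω : J → ℕ × (ℕ → M),
        Complex.exp (((∑ i, s i * (numS ω (A i) : ℝ) : ℝ) : ℂ) * Complex.I) =
        ∏ j, Complex.exp (((∑ i, s i * (num (ω j) (A i) : ℝ) : ℝ) : ℂ) * Complex.I) := by
      intro ω
      rw [← Complex.exp_sum, ← Finset.sum_mul]
      congr 2
      norm_cast
      rw [Finset.sum_comm]
      refine Finset.sum_congr rfl fun i _ => ?_
      unfold numS
      rw [← Finset.mul_sum]
      push_cast
      rfl
    simp only [h1]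
    unfold mixS
    rw [integral_fintype_prod_eq_prod (fun j (x : ℕ × (ℕ → M)) =>
      Complex.exp (((∑ i, s i * (num x (A i) : ℝ) : ℝ) : ℂ) * Complex.I))]
    refine Finset.prod_congr rfl fun j _ => ?_
    exact mixd_char (ν j) (r j) hA s

theorem lintegral_numS_univ (ν : J → Measure M) [∀ j, IsProbabilityMeasure (ν j)]
    (r : J → ℝ≥0) :
    ∫⁻ ω, (∑ j, ((ω j).1 : ℝ≥0∞)) ∂(mixS ν r) = ∑ j, (r j : ℝ≥0∞) := by
  rw [lintegral_finsetSum _ (fun j _ => by fun_prop)]
  refine Finset.sum_congr rfl fun j _ => ?_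
  have h1 := (measurePreserving_eval (fun j => mixd (ν j) (r j)) j).lintegral_comp
    (f := fun x : ℕ × (ℕ → M) => (x.1 : ℝ≥0∞)) (by fun_prop)
  exact h1.trans (lintegral_num_univ (ν j) (r j))

end super

end Pool.Agent.Y316.PC
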