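import Mathlib

set_option autoImplicit false

/-!
# A variance bound for integrals of weakly dependent variables
-/

namespace Pool.Agent.Y316.PC

open MeasureTheory Set Filter Topology
open scoped ENNReal NNReal

theorem var_bound {Ω M : Type} [MeasurableSpace Ω] [MeasurableSpace M] (Q : Measure Ω)
    [IsProbabilityMeasure Q] (v : Measure M) [IsFiniteMeasure v] {Z : Set M}
    (hZ : MeasurableSet Z) {h : M × Ω → ℝ} (hm : Measurable h) {C b : ℝ} (hC0 : 0 ≤ C)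
    (hb0 : 0 ≤ b) (hC : ∀ z, |h z| ≤ C) {Rl : Set (M × M)} (hRl : MeasurableSet Rl)
    (hdec : ∀ p q, p ∈ Z → q ∈ Z → (p, q) ∉ Rl → ∫ ω, h (p, ω) * h (q, ω) ∂Q = 0)
    (hvol : ∀ p ∈ Z, (v {q | (p, q) ∈ Rl}).toReal ≤ b) :
    ∫ ω, (∫ p in Z, h (p, ω) ∂v) ^ 2 ∂Q ≤ C ^ 2 * b * (v univ).toReal := by
  set w := v.restrict Z with hw
  have hmul : Measurable (fun z : (M × M) × Ω => h (z.1.1, z.2) * h (z.1.2, z.2)) := by
    refine Measurable.mul (hm.comp ?_) (hm.comp ?_) <;> fun_prop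
  have hbd : ∀ p q ω, |h (p, ω) * h (q, ω)| ≤ C ^ 2 := by
    intro p q ω
    rw [abs_mul, pow_two]
    exact mul_le_mul (hC _) (hC _) (abs_nonneg _) hC0
  have hint : Integrable (fun z : (M × M) × Ω => h (z.1.1, z.2) * h (z.1.2, z.2))
      ((w.prod w).prod Q) := by
    refine Integrable.of_bound hmul.aestronglyMeasurable (C ^ 2) ?_
    exact Eventually.of_forall fun z => by rw [Real.norm_eq_abs]; exact hbd _ _ _
  have h1 : ∫ ω, (∫ p in Z, h (p, ω) ∂v) ^ 2 ∂Q =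
      ∫ ω, (∫ z : M × M, h (z.1, ω) * h (z.2, ω) ∂(w.prod w)) ∂Q := by
    refine integral_congr_ae (Eventually.of_forall fun ω => ?_)
    dsimp only
    rw [pow_two]
    exact (integral_prod_mul (fun p => h (p, ω)) (fun q => h (q, ω))).symm
  have h2 : ∫ ω, (∫ z : M × M, h (z.1, ω) * h (z.2, ω) ∂(w.prod w)) ∂Q =
      ∫ z : M × M, (∫ ω, h (z.1, ω) * h (z.2, ω) ∂Q) ∂(w.prod w) :=
    (integral_integral_swap (f := fun (z : M × M) (ω : Ω) => h (z.1, ω) * h (z.2, ω)) hint).symm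
  rw [h1, h2]
  have hZae : ∀ᵐ p ∂w, p ∈ Z := ae_restrict_mem hZ
  have hZZ : ∀ᵐ z : M × M ∂(w.prod w), z.1 ∈ Z ∧ z.2 ∈ Z := by
    have e1 : ∀ᵐ z : M × M ∂(w.prod w), z.1 ∈ Z := Measure.quasiMeasurePreserving_fst.ae hZae
    have e2 : ∀ᵐ z : M × M ∂(w.prod w), z.2 ∈ Z := Measure.quasiMeasurePreserving_snd.ae hZae
    filter_upwards [e1, e2] with z h1 h2 using ⟨h1, h2⟩
  have h3 : ∫ z : M × M, (∫ ω, h (z.1, ω) * h (z.2, ω) ∂Q) ∂(w.prod w) ≤
      ∫ z : M × M, Rl.indicator (fun _ => C ^ 2) z ∂(w.prod w) := by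
    refine integral_mono_ae ?_ ?_ ?_
    · exact hint.integral_prod_left
    · exact (integrable_indicator_iff hRl).mpr (integrableOn_const (measure_ne_top _ _))
    · filter_upwards [hZZ] with z hz
      by_cases hzR : z ∈ Rl
      · rw [indicator_of_mem hzR]
        refine (le_abs_self _).trans ?_
        have h4 := norm_integral_le_of_norm_le_const (μ := Q) (C := C ^ 2)
          (f := fun ω => h (z.1, ω) * h (z.2, ω))
          (Eventually.of_forall fun ω => by rw [Real.norm_eq_abs]; exact hbd _ _ _)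
        rw [probReal_univ, mul_one, Real.norm_eq_abs] at h4
        exact h4
      · rw [indicator_of_notMem hzR]
        exact (hdec z.1 z.2 hz.1 hz.2 hzR).le
  refine h3.trans ?_
  rw [integral_indicator_const _ hRl, smul_eq_mul, measureReal_def]
  have h5 : (w.prod w) Rl ≤ ENNReal.ofReal (b * (v univ).toReal) := by
    rw [Measure.prod_apply hRl]
    have h6 : ∀ᵐ p ∂w, w (Prod.mk p ⁻¹' Rl) ≤ ENNReal.ofReal b := by
      filter_upwards [hZae] with p hp
      have h7 : v {q | (p, q) ∈ Rl} ≤ ENNReal.ofReal b := by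
        rw [← ENNReal.ofReal_toReal (measure_ne_top v {q | (p, q) ∈ Rl})]
        exact ENNReal.ofReal_le_ofReal (hvol p hp)
      exact (Measure.restrict_apply_le _ _).trans h7
    refine (lintegral_mono_ae h6).trans ?_
    rw [lintegral_const, ENNReal.ofReal_mul hb0, ENNReal.ofReal_toReal (measure_ne_top _ _)]
    gcongr
    exact Measure.restrict_le_self
  have hb : 0 ≤ b * (v univ).toReal := mul_nonneg hb0 ENNReal.toReal_nonneg
  have h6 : ((w.prod w) Rl).toReal ≤ b * (v univ).toReal := by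
    have := ENNReal.toReal_mono ENNReal.ofReal_ne_top h5
    rwa [ENNReal.toReal_ofReal hb] at this
  calc ((w.prod w) Rl).toReal * C ^ 2 ≤ (b * (v univ).toReal) * C ^ 2 := by gcongr
    _ = _ := by ring

/-- Chebyshev's inequality -/
theorem cheb {Ω M : Type} [MeasurableSpace Ω] [MeasurableSpace M] (Q : Measure Ω)
    [IsProbabilityMeasure Q] (v : Measure M) [IsFiniteMeasure v] {Z : Set M}
    (hZ : MeasurableSet Z) {h : M × Ω → ℝ} (hm : Measurable h) {C b : ℝ} (hC0 : 0 ≤ C)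
    (hb0 : 0 ≤ b) (hC : ∀ z, |h z| ≤ C) {Rl : Set (M × M)} (hRl : MeasurableSet Rl)
    (hdec : ∀ p q, p ∈ Z → q ∈ Z → (p, q) ∉ Rl → ∫ ω, h (p, ω) * h (q, ω) ∂Q = 0)
    (hvol : ∀ p ∈ Z, (v {q | (p, q) ∈ Rl}).toReal ≤ b) {δ : ℝ} (hδ : 0 < δ)
    (hV : 0 < (v univ).toReal) :
    Q {ω | δ * (v univ).toReal ≤ |∫ p in Z, h (p, ω) ∂v|} ≤
      ENNReal.ofReal (C ^ 2 * b / (δ ^ 2 * (v univ).toReal)) := by
  set V := (v univ).toReal with hVdef
  have h1 := var_bound Q v hZ hm hC0 hb0 hC hRl hdec hvol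
  have hXm : StronglyMeasurable (fun ω => ∫ p in Z, h (p, ω) ∂v) := by
    exact (hm.stronglyMeasurable).integral_prod_left'
  have hXb : ∀ ω, |∫ p in Z, h (p, ω) ∂v| ≤ C * V := by
    intro ω
    have h2 := norm_integral_le_of_norm_le_const (μ := v.restrict Z) (C := C)
      (f := fun p => h (p, ω)) (Eventually.of_forall fun p => by
        rw [Real.norm_eq_abs]; exact hC _)
    rw [Real.norm_eq_abs] at h2
    refine h2.trans (mul_le_mul_of_nonneg_left ?_ hC0)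
    rw [measureReal_def]
    exact ENNReal.toReal_mono (measure_ne_top _ _) (Measure.restrict_apply_le _ _)
  have hint : Integrable (fun ω => (∫ p in Z, h (p, ω) ∂v) ^ 2) Q := by
    refine Integrable.of_bound (hXm.pow 2).aestronglyMeasurable ((C * V) ^ 2) ?_
    refine Eventually.of_forall fun ω => ?_
    rw [Real.norm_eq_abs, abs_pow]
    exact pow_le_pow_left₀ (abs_nonneg _) (hXb ω) 2
  have h2 := mul_meas_ge_le_integral_of_nonneg (μ := Q)
    (f := fun ω => (∫ p in Z, h (p, ω) ∂v) ^ 2)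
    (Eventually.of_forall fun ω => sq_nonneg _) hint ((δ * V) ^ 2)
  have h3 : {ω | δ * V ≤ |∫ p in Z, h (p, ω) ∂v|} ⊆
      {ω | (δ * V) ^ 2 ≤ (∫ p in Z, h (p, ω) ∂v) ^ 2} := by
    intro ω hω
    have hω' : δ * V ≤ |∫ p in Z, h (p, ω) ∂v| := hω
    show (δ * V) ^ 2 ≤ (∫ p in Z, h (p, ω) ∂v) ^ 2
    rw [← sq_abs (∫ p in Z, h (p, ω) ∂v)]
    exact pow_le_pow_left₀ (by positivity) hω' 2
  refine (measure_mono h3).trans ?_
  rw [← ENNReal.ofReal_toReal (measure_ne_top Q _)]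
  refine ENNReal.ofReal_le_ofReal ?_
  rw [le_div_iff₀ (by positivity)]
  have h4 : (δ * V) ^ 2 * Q.real {ω | (δ * V) ^ 2 ≤ (∫ p in Z, h (p, ω) ∂v) ^ 2} ≤
      C ^ 2 * b * V := h2.trans h1
  rw [measureReal_def] at h4
  have h5 : (Q {ω | (δ * V) ^ 2 ≤ (∫ p in Z, h (p, ω) ∂v) ^ 2}).toReal * (δ ^ 2 * V) * V ≤
      C ^ 2 * b * V := by
    calc _ = (δ * V) ^ 2 * (Q {ω | (δ * V) ^ 2 ≤ (∫ p in Z, h (p, ω) ∂v) ^ 2}).toReal := by ring
      _ ≤ _ := h4
  exact le_of_mul_le_mul_right h5 hV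

end Pool.Agent.Y316.PC
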