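import Pool.Agent.Y316.PC.Geo
import Pool.Agent.Y316.PC.App
import Pool.Agent.Y316.PC.Mix
import Pool.Agent.Y316.PC.Var

set_option autoImplicit false
set_option linter.unusedSectionVars false

/-!
# Local statistics of the Poisson process on a sofic approximation
-/

namespace Pool.Agent.Y316.PC

open MeasureTheory Set Filter Topology ProbabilityTheory Pointwise
open scoped ENNReal NNReal

theorem isCompact_pw {G : Type} [Group G] [TopologicalSpace G] [IsTopologicalGroup G] {R : Set G}
    (hR : IsCompact R) (n : ℕ) : IsCompact (R ^ n) := by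
  induction n with
  | zero =>
    rw [pow_zero]
    exact isCompact_singleton
  | succ n ih =>
    rw [pow_succ]
    exact ih.mul hR

/-- joint measurability of the counts -/
def Jm {M Ω : Type} [MeasurableSpace M] [MeasurableSpace Ω] (N : Ω → Set M → ℕ) : Prop :=
  ∀ Rl : Set (M × M), MeasurableSet Rl →
    Measurable (fun z : M × Ω => N z.2 {x | (z.1, x) ∈ Rl})

theorem jm_numS {M J : Type} [MeasurableSpace M] [Fintype J] :
    Jm (fun (ω : J → ℕ × (ℕ → M)) A => numS ω A) := by
  intro Rl hRl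
  unfold numS
  refine Finset.measurable_sum _ fun j _ => ?_
  have h1 := measurable_num_rel (M := M) hRl
  exact h1.comp (measurable_fst.prodMk ((measurable_pi_apply j).comp measurable_snd))

section geo

variable {G M : Type} [Group G] [TopologicalSpace G] [TopologicalSpace M]

/-- the orbit relation -/
def rel (S : LocalSpace G M) (R U K : Set G) : Set (M × M) :=
  {z | z.1 ∈ nb S R U ∧ z.2 ∈ orb S K z.1}

/-- counts seen from `p` -/
def cv {Ω ι : Type} (S : LocalSpace G M) (R U : Set G) (N : Ω → Set M → ℕ) (K : ι → Set G)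
    (ω : Ω) (p : M) : ι → ℕ :=
  fun i => N ω {x | (p, x) ∈ rel S R U (K i)}

theorem rel_of_nb {S : LocalSpace G M} {R U K : Set G} {p : M} (hp : p ∈ nb S R U) :
    {x | (p, x) ∈ rel S R U K} = orb S K p := by
  ext x
  exact ⟨fun h => h.2, fun h => ⟨hp, h⟩⟩

theorem cv_of_nb {Ω ι : Type} {S : LocalSpace G M} {R U : Set G} {N : Ω → Set M → ℕ}
    {K : ι → Set G} {p : M} (hp : p ∈ nb S R U) (ω : Ω) :
    cv S R U N K ω p = fun i => N ω (orb S (K i) p) := by
  funext i
  unfold cv
  rw [rel_of_nb hp]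

end geo

section loc

variable {G M Ω : Type} [Group G] [TopologicalSpace G] [IsTopologicalGroup G] [T2Space G]
  [MeasurableSpace G] [BorelSpace G] [TopologicalSpace M] [MeasurableSpace M] [BorelSpace M]
  [SecondCountableTopology M] [LocallyCompactSpace M] [T2Space M] [MeasurableSpace Ω]
  {S : LocalSpace G M} {R U : Set G} {haar : Measure G} {v : Measure M} {t : ℝ≥0}
  {P : Measure (Measure G)} {Q : Measure Ω} {N : Ω → Set M → ℕ}

theorem measurableSet_rel' (hB : Big R U) {K : Set G} (hK : IsCompact K) (hKR : K ⊆ R ^ 11) :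
    MeasurableSet (rel S R U K) := measurableSet_rel (S := S) hB hK hKR

theorem measurable_cv (hB : Big R U) (hJ : Jm N) {ι : Type} {K : ι → Set G}
    (hK : ∀ i, IsCompact (K i)) (hKR : ∀ i, K i ⊆ R ^ 11) :
    Measurable (fun z : M × Ω => cv S R U N K z.2 z.1) :=
  measurable_pi_lambda _ fun i => hJ _ (measurableSet_rel' hB (hK i) (hKR i))

theorem atom_orb (hB : Big R U) {ι : Type} [Fintype ι] {K : ι → Set G}
    (hKR : ∀ i, K i ⊆ R ^ 11) {p : M} (hp : p ∈ nb S R U) {T : Finset ι} (hT : T.Nonempty) :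
    atom (fun i => orb S (K i) p) T = orb S (atom K T) p := by
  obtain ⟨i0, hi0⟩ := hT
  have hinj := nb_inj (S := S) hB hp
  ext x
  constructor
  · intro hx
    obtain ⟨a, ha, rfl⟩ := (hx i0).mpr hi0
    refine ⟨a, ?_, rfl⟩
    intro i
    rw [← hx i]
    constructor
    · intro hai
      exact ⟨a, hai, rfl⟩
    · rintro ⟨b, hb, hba⟩
      have := hinj (hKR i hb) (hKR i0 ha) hba
      rwa [← this]
  · rintro ⟨a, ha, rfl⟩ i
    rw [← ha i]
    constructor
    · rintro ⟨b, hb, hba⟩
      have := hinj (hKR i hb) (hKR i0 (atom_subset K hi0 ha)) hba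
      rwa [← this]
    · intro hai
      exact ⟨a, hai, rfl⟩

theorem psi_orb [haar.IsMulRightInvariant] [IsFiniteMeasureOnCompacts haar] [IsFiniteMeasure v]
    (hB : Big R U) (hv : S.IsVol haar v) {ι : Type} [Fintype ι] {K : ι → Set G}
    (hK : ∀ i, IsCompact (K i)) (hKR : ∀ i, K i ⊆ R ^ 11) {p : M} (hp : p ∈ nb S R U)
    (s : ι → ℝ) :
    psi (t • v) (step (fun i => orb S (K i) p) s) = psi (t • haar) (step K s) := by
  have hf : ∀ i, (t • haar) (K i) ≠ ⊤ := by
    intro i
    rw [Measure.smul_apply, ENNReal.smul_def]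
    exact ENNReal.mul_ne_top (by simp) (hK i).measure_lt_top.ne
  have hf' : ∀ i, (t • v) (orb S (K i) p) ≠ ⊤ := fun i => measure_ne_top _ _
  rw [psi_step (fun i => measurableSet_orb hB (hK i) (hKR i) hp) hf',
    psi_step (fun i => (hK i).measurableSet) hf]
  refine Finset.sum_congr rfl fun T _ => ?_
  rw [atom_orb hB hKR hp T.2, Measure.smul_apply, Measure.smul_apply, vol_orb hB hv hp]
  · obtain ⟨i0, hi0⟩ := T.2
    exact (atom_subset K hi0).trans (hKR i0)
  · exact measurableSet_atom (fun i => (hK i).measurableSet) T.1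

/-- the law of the counts seen from `p` -/
theorem law_cv [haar.IsMulRightInvariant] [IsFiniteMeasureOnCompacts haar] [IsFiniteMeasure v]
    (hB : Big R U) (hv : S.IsVol haar v) (hP : IsPoisson haar t P) (ht : t ≠ 0)
    (hN : PRM (t • v) Q N) {ι : Type} [Fintype ι] {K : ι → Set G}
    (hK : ∀ i, IsCompact (K i)) (hKR : ∀ i, K i ⊆ R ^ 11) {p : M} (hp : p ∈ nb S R U) :
    Q.map (fun ω => cv S R U N K ω p) = P.map (fun ω => (fun i => cnt (K i) ω)) := by
  have hf : ∀ i, (t • haar) (K i) ≠ ⊤ := by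
    intro i
    rw [Measure.smul_apply, ENNReal.smul_def]
    exact ENNReal.mul_ne_top (by simp) (hK i).measure_lt_top.ne
  have hf' : ∀ i, (t • v) (orb S (K i) p) ≠ ⊤ := fun i => measure_ne_top _ _
  have h1 := hN.law_eq (hP.prm ht) (A := fun i => orb S (K i) p) (A' := K)
    (fun i => measurableSet_orb hB (hK i) (hKR i) hp) hf' (fun i => (hK i).measurableSet) hf
    (fun s => psi_orb hB hv hK hKR hp s)
  rw [← h1]
  congr 1
  funext ω
  exact cv_of_nb hp ω

theorem integral_cv [haar.IsMulRightInvariant] [IsFiniteMeasureOnCompacts haar]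
    [IsFiniteMeasure v] (hB : Big R U) (hv : S.IsVol haar v) (hP : IsPoisson haar t P)
    (ht : t ≠ 0) (hN : PRM (t • v) Q N) {ι : Type} [Fintype ι] {K : ι → Set G}
    (hK : ∀ i, IsCompact (K i)) (hKR : ∀ i, K i ⊆ R ^ 11) {p : M} (hp : p ∈ nb S R U)
    (H : (ι → ℕ) → ℝ) :
    ∫ ω, H (cv S R U N K ω p) ∂Q = ∫ ω, H (fun i => cnt (K i) ω) ∂P := by
  have hH : Measurable H := Measurable.of_discrete
  have hm1 : Measurable (fun ω => cv S R U N K ω p) := by
    have h2 : (fun ω => cv S R U N K ω p) = fun ω => (fun i => N ω (orb S (K i) p)) := by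
      funext ω
      exact cv_of_nb hp ω
    rw [h2]
    exact hN.measurable_vec (fun i => measurableSet_orb hB (hK i) (hKR i) hp)
  have hm2 := measurable_cnt_vec (K := K) (fun i => (hK i).measurableSet)
  have h1 := law_cv hB hv hP ht hN hK hKR hp
  rw [← integral_map hm1.aemeasurable hH.aestronglyMeasurable, h1,
    integral_map hm2.aemeasurable hH.aestronglyMeasurable]

theorem psi_add {X : Type} [MeasurableSpace X] {μ : Measure X} [IsFiniteMeasure μ] {f g : X → ℝ}
    (hf : Measurable f) (hg : Measurable g) (h : ∀ x, f x = 0 ∨ g x = 0) :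
    psi μ (fun x => f x + g x) = psi μ f + psi μ g := by
  unfold psi
  have i1 : Integrable (fun x => Complex.exp ((f x : ℂ) * Complex.I) - 1) μ :=
    (integrable_cexp μ hf).sub (integrable_const _)
  have i2 : Integrable (fun x => Complex.exp ((g x : ℂ) * Complex.I) - 1) μ :=
    (integrable_cexp μ hg).sub (integrable_const _)
  rw [← integral_add i1 i2]
  refine integral_congr_ae (Eventually.of_forall fun x => ?_)
  dsimp only
  rcases h x with h1 | h1
  · rw [h1]
    simp
  · rw [h1]
    simp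

theorem indep_cv [haar.IsMulRightInvariant] [IsFiniteMeasureOnCompacts haar]
    [IsFiniteMeasure v] (hB : Big R U) (hN : PRM (t • v) Q N) {ι : Type} [Fintype ι]
    {K : ι → Set G} (hK : ∀ i, IsCompact (K i)) (hKR : ∀ i, K i ⊆ R ^ 2) {p q : M}
    (hp : p ∈ nb S R U) (hq : q ∈ nb S R U) (hpq : (p, q) ∉ rel S R U (R ^ 4)) :
    IndepFun (fun ω => cv S R U N K ω p) (fun ω => cv S R U N K ω q) Q := by
  have hKR' : ∀ i, K i ⊆ R ^ 11 := fun i => (hKR i).trans (pw_mono hB.one' (by norm_num))
  have hmp : ∀ i, MeasurableSet (orb S (K i) p) := fun i => measurableSet_orb hB (hK i) (hKR' i) hp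
  have hmq : ∀ i, MeasurableSet (orb S (K i) q) := fun i => measurableSet_orb hB (hK i) (hKR' i) hq
  have h1 : (fun ω => cv S R U N K ω p) = fun ω => (fun i => N ω (orb S (K i) p)) := by
    funext ω
    exact cv_of_nb hp ω
  have h2 : (fun ω => cv S R U N K ω q) = fun ω => (fun i => N ω (orb S (K i) q)) := by
    funext ω
    exact cv_of_nb hq ω
  rw [h1, h2]
  refine hN.indep hmp (fun i => measure_ne_top _ _) hmq (fun i => measure_ne_top _ _) ?_
  intro s s'
  refine psi_add (measurable_step hmp s) (measurable_step hmq s') ?_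
  intro x
  by_contra hcon
  push Not at hcon
  have e1 : ∃ i, x ∈ orb S (K i) p := by
    by_contra h3
    push Not at h3
    apply hcon.1
    unfold step
    exact Finset.sum_eq_zero fun i _ => by rw [indicator_of_notMem (h3 i), mul_zero]
  have e2 : ∃ i, x ∈ orb S (K i) q := by
    by_contra h3
    push Not at h3
    apply hcon.2
    unfold step
    exact Finset.sum_eq_zero fun i _ => by rw [indicator_of_notMem (h3 i), mul_zero]
  obtain ⟨i, hi⟩ := e1
  obtain ⟨j, hj⟩ := e2
  apply hpq
  refine ⟨hp, ?_⟩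
  have h3 := orb_inter (S := S) hB (A := R ^ 2) (pw_mono hB.one' (by norm_num)) hp hq
    ⟨x, image_mono (hKR i) hi, image_mono (hKR j) hj⟩
  have h4 : (R ^ 2)⁻¹ * R ^ 2 = R ^ 4 := by
    rw [← inv_pow, hB.inv, ← pow_add]
  rwa [h4] at h3

/-- the law of large numbers for local functionals -/
theorem lln [haar.IsMulRightInvariant] [IsFiniteMeasureOnCompacts haar]
    [IsFiniteMeasure v] (hB : Big R U) (hv : S.IsVol haar v) (hP : IsPoisson haar t P)
    (ht : t ≠ 0) (hN : PRM (t • v) Q N) (hJ : Jm N) {ι : Type} [Fintype ι] {K : ι → Set G}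
    (hK : ∀ i, IsCompact (K i)) (hKR : ∀ i, K i ⊆ R ^ 2) {Z : Set M} (hZ : MeasurableSet Z)
    (hZn : Z ⊆ nb S R U) {H : (ι → ℕ) → ℝ} {D : ℝ} (hD0 : 0 ≤ D) (hD : ∀ c, |H c| ≤ D) {δ : ℝ}
    (hδ : 0 < δ) (hV : 0 < (v univ).toReal) :
    Q {ω | δ * (v univ).toReal ≤ |∫ p in Z, H (cv S R U N K ω p) ∂v -
        (v Z).toReal * ∫ ω, H (fun i => cnt (K i) ω) ∂P|} ≤
      ENNReal.ofReal ((2 * D) ^ 2 * (haar (R ^ 4)).toReal / (δ ^ 2 * (v univ).toReal)) := by
  have := hN.prob
  have := hP.isProb
  have hKR' : ∀ i, K i ⊆ R ^ 11 := fun i => (hKR i).trans (pw_mono hB.one' (by norm_num))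
  set m := ∫ ω, H (fun i => cnt (K i) ω) ∂P with hm
  have hmD : |m| ≤ D := by
    have h1 := norm_integral_le_of_norm_le_const (μ := P) (C := D)
      (f := fun ω => H (fun i => cnt (K i) ω)) (Eventually.of_forall fun ω => by
        rw [Real.norm_eq_abs]; exact hD _)
    rwa [probReal_univ, mul_one, Real.norm_eq_abs] at h1
  have hH : Measurable H := Measurable.of_discrete
  have hcv := measurable_cv (S := S) hB hJ hK hKR'
  set h : M × Ω → ℝ := fun z => H (cv S R U N K z.2 z.1) - m with hh
  have hhm : Measurable h := (hH.comp hcv).sub_const m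
  have hhC : ∀ z, |h z| ≤ 2 * D := by
    intro z
    calc |h z| ≤ |H (cv S R U N K z.2 z.1)| + |m| := abs_sub _ _
      _ ≤ D + D := add_le_add (hD _) hmD
      _ = 2 * D := by ring
  have hR4 : IsCompact (R ^ 4) := isCompact_pw hB.cpt 4
  have hR4' : R ^ 4 ⊆ R ^ 11 := pw_mono hB.one' (by norm_num)
  have hmp : ∀ p ∈ nb S R U, Measurable (fun ω => cv S R U N K ω p) := by
    intro p hp
    exact hcv.comp (measurable_const.prodMk measurable_id)
  have key := cheb Q v hZ hhm (C := 2 * D) (b := (haar (R ^ 4)).toReal) (by positivity)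
    ENNReal.toReal_nonneg hhC (measurableSet_rel' (S := S) hB hR4 hR4') ?_ ?_ hδ hV
  · have e1 : ∀ ω, ∫ p in Z, h (p, ω) ∂v = ∫ p in Z, H (cv S R U N K ω p) ∂v - (v Z).toReal * m := by
      intro ω
      have hint : Integrable (fun p => H (cv S R U N K ω p)) (v.restrict Z) := by
        refine Integrable.of_bound ?_ D ?_
        · exact (hH.comp (hcv.comp (measurable_id.prodMk measurable_const))).aestronglyMeasurable
        · exact Eventually.of_forall fun p => by rw [Real.norm_eq_abs]; exact hD _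
      rw [hh]
      dsimp only
      rw [integral_sub hint (integrable_const _), setIntegral_const, smul_eq_mul, measureReal_def]
    simp only [e1] at key
    exact key
  · intro p q hp hq hpq
    have hi := indep_cv (haar := haar) hB hN hK hKR (hZn hp) (hZn hq) hpq
    have hi2 := hi.comp (φ := fun c => H c - m) (ψ := fun c => H c - m)
      (hH.sub_const m) (hH.sub_const m)
    have h3 := hi2.integral_fun_mul_eq_mul_integral
      ((hH.sub_const m).comp (hmp p (hZn hp))).aestronglyMeasurable
      ((hH.sub_const m).comp (hmp q (hZn hq))).aestronglyMeasurable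
    have h4 : ∫ ω, (H (cv S R U N K ω p) - m) ∂Q = 0 := by
      have h5 := integral_cv hB hv hP ht hN hK hKR' (hZn hp) (fun c => H c - m)
      rw [h5, integral_sub _ (integrable_const _)]
      · simp [hm]
      · refine Integrable.of_bound ?_ D ?_
        · exact (hH.comp (measurable_cnt_vec fun i => (hK i).measurableSet)).aestronglyMeasurable
        · exact Eventually.of_forall fun p => by rw [Real.norm_eq_abs]; exact hD _
    have h5 : ∫ ω, h (p, ω) * h (q, ω) ∂Q = (∫ ω, (H (cv S R U N K ω p) - m) ∂Q) *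
        ∫ ω, (H (cv S R U N K ω q) - m) ∂Q := h3
    rw [h5, h4, zero_mul]
  · intro p hp
    rw [rel_of_nb (hZn hp), vol_orb hB hv (hZn hp) hR4' hR4.measurableSet]

end loc

end Pool.Agent.Y316.PC
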