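import Pool.Agent.Y316.PC.Defs

set_option autoImplicit false

/-!
# Poisson random measures through characteristic functionals
-/

namespace Pool.Agent.Y316.PC

open MeasureTheory Set Filter Topology ProbabilityTheory
open scoped ENNReal NNReal

/-- `∑ s_i 1_{A_i}` -/
noncomputable def step {X ι : Type} [Fintype ι] (A : ι → Set X) (s : ι → ℝ) (x : X) : ℝ :=
  ∑ i, s i * (A i).indicator (fun _ => (1:ℝ)) x

/-- the exponent of the characteristic functional -/
noncomputable def psi {X : Type} [MeasurableSpace X] (μ : Measure X) (f : X → ℝ) : ℂ :=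
  ∫ x, (Complex.exp (f x * Complex.I) - 1) ∂μ

/-- `N` is a Poisson random measure with intensity `μ` on `X`, defined on `(Ω, Q)`. -/
structure PRM {X Ω : Type} [MeasurableSpace X] [MeasurableSpace Ω] (μ : Measure X)
    (Q : Measure Ω) (N : Ω → Set X → ℕ) : Prop where
  prob : IsProbabilityMeasure Q
  meas : ∀ A, MeasurableSet A → Measurable (fun ω => N ω A)
  char : ∀ (ι : Type) [Fintype ι] (A : ι → Set X) (s : ι → ℝ), (∀ i, MeasurableSet (A i)) →
    (∀ i, μ (A i) ≠ ⊤) →
    ∫ ω, Complex.exp (((∑ i, s i * (N ω (A i) : ℝ) : ℝ) : ℂ) * Complex.I) ∂Q =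
      Complex.exp (psi μ (step A s))

section law

variable {ι : Type} [Fintype ι]

/-- integer vectors as real vectors -/
noncomputable def emb (ι : Type) [Fintype ι] (c : ι → ℕ) : EuclideanSpace ℝ ι :=
  WithLp.toLp 2 (fun i => (c i : ℝ))

theorem emb_apply (c : ι → ℕ) (i : ι) : emb ι c i = (c i : ℝ) := rfl

theorem measurable_emb : Measurable (emb ι) := by
  have h1 : Measurable (fun c : ι → ℕ => (fun i => (c i : ℝ))) := by
    refine measurable_pi_lambda _ fun i => ?_
    exact (measurable_from_top (f := fun n : ℕ => (n:ℝ))).comp (measurable_pi_apply i)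
  exact (WithLp.measurable_toLp 2 (ι → ℝ)).comp h1

theorem emb_injective : Function.Injective (emb ι) := by
  intro c d h
  funext i
  have h1 := congrArg (fun x : EuclideanSpace ℝ ι => x i) h
  simp only [emb_apply] at h1
  exact_mod_cast h1

theorem measurableEmbedding_emb : MeasurableEmbedding (emb ι) :=
  measurable_emb.measurableEmbedding emb_injective

/-- the integer part of a real vector -/
noncomputable def flr (ι : Type) [Fintype ι] (x : EuclideanSpace ℝ ι) : ι → ℕ := fun i => ⌊x i⌋₊

theorem measurable_flr : Measurable (flr ι) := by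
  refine measurable_pi_lambda _ fun i => ?_
  refine Nat.measurable_floor.comp ?_
  exact (measurable_pi_apply i).comp (WithLp.measurable_ofLp 2 (ι → ℝ))

theorem flr_emb (c : ι → ℕ) : flr ι (emb ι c) = c := by
  funext i
  unfold flr
  rw [emb_apply, Nat.floor_natCast]

theorem inner_emb (c : ι → ℕ) (t : EuclideanSpace ℝ ι) :
    inner ℝ (emb ι c) t = ∑ i, t i * (c i : ℝ) := by
  rw [PiLp.inner_apply]
  rfl

variable {X Ω X' Ω' : Type} [MeasurableSpace X] [MeasurableSpace Ω] [MeasurableSpace X']
  [MeasurableSpace Ω'] {μ : Measure X} {Q : Measure Ω} {N : Ω → Set X → ℕ}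
  {μ' : Measure X'} {Q' : Measure Ω'} {N' : Ω' → Set X' → ℕ}

theorem PRM.measurable_vec (h : PRM μ Q N) {A : ι → Set X} (hA : ∀ i, MeasurableSet (A i)) :
    Measurable (fun ω => (fun i => N ω (A i))) :=
  measurable_pi_lambda _ fun i => h.meas _ (hA i)

theorem charFun_vec (h : PRM μ Q N) {A : ι → Set X} (hA : ∀ i, MeasurableSet (A i))
    (hA' : ∀ i, μ (A i) ≠ ⊤) (t : EuclideanSpace ℝ ι) :
    charFun (Q.map (fun ω => emb ι (fun i => N ω (A i)))) t =
      Complex.exp (psi μ (step A t)) := by
  rw [charFun_apply, integral_map]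
  · rw [← h.char ι A t hA hA']
    refine integral_congr_ae (Eventually.of_forall fun ω => ?_)
    dsimp only
    rw [inner_emb]
  · exact (measurable_emb.comp (h.measurable_vec hA)).aemeasurable
  · fun_prop

/-- equality of the finite dimensional laws -/
theorem PRM.law_eq (h : PRM μ Q N) (h' : PRM μ' Q' N') {A : ι → Set X} {A' : ι → Set X'}
    (hA : ∀ i, MeasurableSet (A i)) (hAf : ∀ i, μ (A i) ≠ ⊤)
    (hA' : ∀ i, MeasurableSet (A' i)) (hAf' : ∀ i, μ' (A' i) ≠ ⊤)
    (hpsi : ∀ s : ι → ℝ, psi μ (step A s) = psi μ' (step A' s)) :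
    Q.map (fun ω => (fun i => N ω (A i))) = Q'.map (fun ω => (fun i => N' ω (A' i))) := by
  have := h.prob
  have := h'.prob
  apply measurableEmbedding_emb.map_injective
  rw [Measure.map_map measurable_emb (h.measurable_vec hA),
    Measure.map_map measurable_emb (h'.measurable_vec hA')]
  have e1 : IsProbabilityMeasure (Q.map (emb ι ∘ fun ω => (fun i => N ω (A i)))) :=
    Measure.isProbabilityMeasure_map (measurable_emb.comp (h.measurable_vec hA)).aemeasurable
  have e2 : IsProbabilityMeasure (Q'.map (emb ι ∘ fun ω => (fun i => N' ω (A' i)))) :=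
    Measure.isProbabilityMeasure_map (measurable_emb.comp (h'.measurable_vec hA')).aemeasurable
  refine Measure.ext_of_charFun ?_
  funext t
  have h1 := charFun_vec h hA hAf t
  have h2 := charFun_vec h' hA' hAf' t
  rw [hpsi] at h1
  exact h1.trans h2.symm

theorem step_sum {X ι κ : Type} [Fintype ι] [Fintype κ] (A : ι → Set X) (B : κ → Set X)
    (s : ι → ℝ) (s' : κ → ℝ) (x : X) :
    step (Sum.elim A B) (Sum.elim s s') x = step A s x + step B s' x := by
  unfold step
  rw [Fintype.sum_sum_type]
  rfl

/-- independence of the counts of two families of sets -/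
theorem PRM.indep (h : PRM μ Q N) {κ : Type} [Fintype κ] {A : ι → Set X} {B : κ → Set X}
    (hA : ∀ i, MeasurableSet (A i)) (hAf : ∀ i, μ (A i) ≠ ⊤)
    (hB : ∀ i, MeasurableSet (B i)) (hBf : ∀ i, μ (B i) ≠ ⊤)
    (hpsi : ∀ (s : ι → ℝ) (s' : κ → ℝ), psi μ (fun x => step A s x + step B s' x) =
      psi μ (step A s) + psi μ (step B s')) :
    IndepFun (fun ω => (fun i => N ω (A i))) (fun ω => (fun i => N ω (B i))) Q := by
  have := h.prob
  have mA := h.measurable_vec hA
  have mB := h.measurable_vec hB
  have key : IndepFun (fun ω => emb ι (fun i => N ω (A i))) (fun ω => emb κ (fun i => N ω (B i)))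
      Q := by
    have mA' : Measurable (fun ω => emb ι (fun i => N ω (A i))) := measurable_emb.comp mA
    have mB' : Measurable (fun ω => emb κ (fun i => N ω (B i))) := measurable_emb.comp mB
    refine (indepFun_iff_charFun_prod mA'.aemeasurable mB'.aemeasurable).mpr ?_
    intro t
    rw [charFun_vec h hA hAf, charFun_vec h hB hBf, ← Complex.exp_add, ← hpsi, charFun_apply,
      integral_map]
    · have hAB : ∀ i, MeasurableSet (Sum.elim A B i) := by
        rintro (i | i)
        · exact hA i
        · exact hB i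
      have hABf : ∀ i, μ (Sum.elim A B i) ≠ ⊤ := by
        rintro (i | i)
        · exact hAf i
        · exact hBf i
      have h1 := h.char (ι ⊕ κ) (Sum.elim A B) (Sum.elim (t.ofLp.1) (t.ofLp.2)) hAB hABf
      have h2 : step (Sum.elim A B) (Sum.elim (t.ofLp.1 : ι → ℝ) (t.ofLp.2 : κ → ℝ)) =
          fun x => step A t.ofLp.1 x + step B t.ofLp.2 x := by
        funext x
        exact step_sum A B _ _ x
      rw [h2] at h1
      rw [← h1]
      refine integral_congr_ae (Eventually.of_forall fun ω => ?_)
      dsimp only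
      rw [WithLp.prod_inner_apply, inner_emb, inner_emb, Fintype.sum_sum_type]
      rfl
    · exact ((WithLp.measurable_toLp 2 _).comp
        ((measurable_emb.comp mA).prodMk (measurable_emb.comp mB))).aemeasurable
    · fun_prop
  have h3 := key.comp measurable_flr measurable_flr
  have h4 : (flr ι ∘ fun ω => emb ι (fun i => N ω (A i))) = fun ω => (fun i => N ω (A i)) := by
    funext ω
    exact flr_emb _
  have h5 : (flr κ ∘ fun ω => emb κ (fun i => N ω (B i))) = fun ω => (fun i => N ω (B i)) := by
    funext ω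
    exact flr_emb _
  rwa [h4, h5] at h3

end law

end Pool.Agent.Y316.PC
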