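import Pool.Agent.Y316.PC.Level

set_option autoImplicit false
set_option linter.unusedSectionVars false

/-!
# Positivity of the mean distance of a nontrivial factor
-/

namespace Pool.Agent.Y316.PC

open MeasureTheory Set Filter Topology ProbabilityTheory Pointwise
open scoped ENNReal NNReal symmDiff BoundedContinuousFunction

section pos

variable {G : Type} [Group G] [TopologicalSpace G] [IsTopologicalGroup G] [T2Space G]
  [LocallyCompactSpace G] [SecondCountableTopology G]
  [MeasurableSpace G] [BorelSpace G] {haar : Measure G} [haar.IsHaarMeasure]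
  [haar.IsMulRightInvariant] {t : ℝ≥0} {P : Measure (Measure G)}
  {Y : Type} [TopologicalSpace Y] [SecondCountableTopology Y] [T2Space Y]
  [MeasurableSpace Y] [BorelSpace Y] [MulAction G Y] [ContinuousSMul G Y]

theorem IsGenerating.nonneg {ρ : Y → Y → ℝ} (hρ : IsGenerating G ρ) (x y : Y) : 0 ≤ ρ x y := by
  have h1 := hρ.triangle x y x
  rw [hρ.self, hρ.symm y x] at h1
  linarith

/-- the mean distance of a nontrivial factor is positive -/
theorem pos_mean (hP : IsPoisson haar t P) (ht : t ≠ 0) {π : Measure G → Y} (hπ : Measurable π)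
    (heq : ∀ g : G, ∀ᵐ ω ∂P, π (ω.map (fun x => g * x)) = g • π ω)
    (hnt : ∀ y, P.map π ≠ Measure.dirac y) {ρ : Y → Y → ℝ} (hρ : IsGenerating G ρ) :
    0 < ∫ ω, ∫ ω', ρ (π ω) (π ω') ∂P ∂P := by
  have hprob := hP.isProb
  obtain ⟨D, hD⟩ := hρ.bounded
  have hρm : Measurable (fun z : Y × Y => ρ z.1 z.2) := hρ.continuous.measurable
  have hm : Measurable (fun z : Measure G × Measure G => ρ (π z.1) (π z.2)) :=
    hρm.comp ((hπ.comp measurable_fst).prodMk (hπ.comp measurable_snd))
  have hi : Integrable (fun z : Measure G × Measure G => ρ (π z.1) (π z.2)) (P.prod P) := by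
    refine Integrable.of_bound hm.aestronglyMeasurable D (Eventually.of_forall fun z => ?_)
    rw [Real.norm_eq_abs, abs_of_nonneg (hρ.nonneg _ _)]
    exact hD _ _
  have h0 : 0 ≤ ∫ ω, ∫ ω', ρ (π ω) (π ω') ∂P ∂P :=
    integral_nonneg fun ω => integral_nonneg fun ω' => hρ.nonneg _ _
  refine lt_of_le_of_ne h0 fun hz => ?_
  rw [← integral_prod (fun z : Measure G × Measure G => ρ (π z.1) (π z.2)) hi] at hz
  have h1 : ∀ᵐ z ∂(P.prod P), ρ (π z.1) (π z.2) = 0 := by
    have := (integral_eq_zero_iff_of_nonneg (fun z => hρ.nonneg _ _) hi).mp hz.symm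
    exact this
  have h2 : ∀ g : G, ∀ᵐ z ∂(P.prod P), ρ (g • π z.1) (g • π z.2) = 0 := by
    intro g
    have hT : MeasurePreserving (fun ω : Measure G => ω.map (fun x => g * x)) P P :=
      ⟨measurable_translate g, hP.invariant ht g⟩
    have hTT := (hT.prod hT).quasiMeasurePreserving.ae h1
    have e1 := Measure.quasiMeasurePreserving_fst (μ := P) (ν := P) |>.ae (heq g)
    have e2 := Measure.quasiMeasurePreserving_snd (μ := P) (ν := P) |>.ae (heq g)
    filter_upwards [hTT, e1, e2] with z hz h3 h4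
    rw [← h3, ← h4]
    exact hz
  obtain ⟨T, hTc, hTd⟩ := TopologicalSpace.exists_countable_dense G
  have h3 : ∀ᵐ z ∂(P.prod P), ∀ g ∈ T, ρ (g • π z.1) (g • π z.2) = 0 :=
    (ae_ball_iff hTc).mpr fun g _ => h2 g
  have h4 : ∀ᵐ z ∂(P.prod P), π z.1 = π z.2 := by
    filter_upwards [h3] with z hz
    by_contra hne
    obtain ⟨g, hg⟩ := hρ.generating _ _ hne
    have hc : Continuous (fun g : G => ρ (g • π z.1) (g • π z.2)) :=
      hρ.continuous.comp ((continuous_id.smul continuous_const).prodMk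
        (continuous_id.smul continuous_const))
    have h5 : (fun g : G => ρ (g • π z.1) (g • π z.2)) = fun _ => 0 :=
      Continuous.ext_on hTd hc continuous_const fun g hg => hz g hg
    have h6 : ρ (g • π z.1) (g • π z.2) = 0 := congrFun h5 g
    rw [h6] at hg
    exact lt_irrefl _ hg
  have h5 : ∀ᵐ ω ∂P, ∀ᵐ ω' ∂P, π ω = π ω' := Measure.ae_ae_of_ae_prod h4
  obtain ⟨ω0, h6⟩ := h5.exists
  refine hnt (π ω0) ?_
  have h7 : π =ᵐ[P] fun _ => π ω0 := by
    filter_upwards [h6] with ω hω using hω.symm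
  rw [Measure.map_congr h7, Measure.map_const, measure_univ, one_smul]

/-- the mean distance of an approximation -/
theorem mean_approx [IsProbabilityMeasure P] {π u : Measure G → Y} (hπ : Measurable π)
    (hu : Measurable u) {ρ : Y → Y → ℝ} (hρc : Continuous (fun z : Y × Y => ρ z.1 z.2))
    (hρnn : ∀ x y, 0 ≤ ρ x y)
    (hρs : ∀ x y, ρ x y = ρ y x) (hρt : ∀ x y z, ρ x z ≤ ρ x y + ρ y z) {D : ℝ}
    (hρD : ∀ x y, ρ x y ≤ D) {κ : ℝ} (hκ : ∫ ω, ρ (π ω) (u ω) ∂P ≤ κ) :
    ∫ ω, ∫ ω', ρ (π ω) (π ω') ∂P ∂P - 2 * κ ≤ ∫ ω, ∫ ω', ρ (u ω) (u ω') ∂P ∂P := by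
  have hρm : Measurable (fun z : Y × Y => ρ z.1 z.2) := hρc.measurable
  have hint : ∀ (f g : Measure G → Y), Measurable f → Measurable g →
      Integrable (fun ω => ρ (f ω) (g ω)) P := by
    intro f g hf hg
    refine Integrable.of_bound (hρm.comp (hf.prodMk hg)).aestronglyMeasurable D
      (Eventually.of_forall fun x => ?_)
    rw [Real.norm_eq_abs, abs_of_nonneg (hρnn _ _)]
    exact hρD _ _
  have hint2 : ∀ (f g : Measure G → Y), Measurable f → Measurable g →
      Integrable (fun ω => ∫ ω', ρ (f ω) (g ω') ∂P) P := by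
    intro f g hf hg
    have h1 : Integrable (fun z : Measure G × Measure G => ρ (f z.1) (g z.2)) (P.prod P) := by
      refine Integrable.of_bound (hρm.comp ((hf.comp measurable_fst).prodMk
        (hg.comp measurable_snd))).aestronglyMeasurable D (Eventually.of_forall fun z => ?_)
      rw [Real.norm_eq_abs, abs_of_nonneg (hρnn _ _)]
      exact hρD _ _
    exact h1.integral_prod_left
  have h1 : ∀ ω, ∫ ω', ρ (π ω) (π ω') ∂P ≤
      ρ (π ω) (u ω) + ∫ ω', ρ (u ω) (u ω') ∂P + ∫ ω', ρ (π ω') (u ω') ∂P := by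
    intro ω
    have h2 : ∫ ω', ρ (π ω) (π ω') ∂P ≤
        ∫ ω', ((ρ (π ω) (u ω) + ρ (u ω) (u ω')) + ρ (π ω') (u ω')) ∂P := by
      refine integral_mono (hint _ _ measurable_const hπ)
        (((integrable_const _).add (hint _ _ measurable_const hu)).add (hint _ _ hπ hu))
        fun ω' => ?_
      have h3 := hρt (π ω) (u ω) (π ω')
      have h4 := hρt (u ω) (u ω') (π ω')
      rw [hρs (u ω') (π ω')] at h4
      dsimp only
      linarith
    have i1 : Integrable (fun ω' => ρ (π ω) (u ω) + ρ (u ω) (u ω')) P :=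
      (integrable_const _).add (hint _ _ measurable_const hu)
    rw [integral_add i1 (hint _ _ hπ hu), integral_add (integrable_const _)
      (hint _ _ measurable_const hu), integral_const, probReal_univ, one_smul] at h2
    exact h2
  have h2 : ∫ ω, ∫ ω', ρ (π ω) (π ω') ∂P ∂P ≤
      ∫ ω, ((ρ (π ω) (u ω) + ∫ ω', ρ (u ω) (u ω') ∂P) + ∫ ω', ρ (π ω') (u ω') ∂P) ∂P :=
    integral_mono (hint2 _ _ hπ hπ) (((hint _ _ hπ hu).add (hint2 _ _ hu hu)).add
      (integrable_const _)) h1
  have i1 : Integrable (fun ω => ρ (π ω) (u ω) + ∫ ω', ρ (u ω) (u ω') ∂P) P :=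
    (hint _ _ hπ hu).add (hint2 _ _ hu hu)
  rw [integral_add i1 (integrable_const _), integral_add (hint _ _ hπ hu) (hint2 _ _ hu hu),
    integral_const, probReal_univ, one_smul] at h2
  linarith

end pos

end Pool.Agent.Y316.PC
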