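import Pool.Agent.Y316.PC.Block

set_option autoImplicit false
set_option linter.unusedSectionVars false

/-!
# Separation of independent samples
-/

namespace Pool.Agent.Y316.PC

open MeasureTheory Set Filter Topology ProbabilityTheory Pointwise
open scoped ENNReal NNReal symmDiff BoundedContinuousFunction

/-- the partition into the patches and the rest -/
def Bl {G M : Type} [Group G] [TopologicalSpace G] [TopologicalSpace M] (S : LocalSpace G M)
    (V0 : Set G) {m : ℕ} (p : Fin m → M) : Option (Fin m) → Set M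
  | none => (⋃ j, orb S V0 (p j))ᶜ
  | some j => orb S V0 (p j)

section sep

variable {G M : Type} [Group G] [TopologicalSpace G] [IsTopologicalGroup G] [T2Space G]
  [LocallyCompactSpace G] [SecondCountableTopology G]
  [MeasurableSpace G] [BorelSpace G] [TopologicalSpace M] [MeasurableSpace M] [BorelSpace M]
  [SecondCountableTopology M] [LocallyCompactSpace M] [T2Space M]
  {S : LocalSpace G M} {R U : Set G} {haar : Measure G} [haar.IsHaarMeasure]
  [haar.IsMulRightInvariant] {v : Measure M} [IsFiniteMeasure v] {t : ℝ≥0}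
  {P : Measure (Measure G)}

theorem measurableSet_Bl (hB : Big R U) {V0 : Set G} (hV0 : IsCompact V0) (hVR : V0 ⊆ R ^ 2)
    {m : ℕ} {p : Fin m → M} (hp : ∀ j, p j ∈ S.good U) (o : Option (Fin m)) :
    MeasurableSet (Bl S V0 p o) := by
  have h1 : ∀ j, MeasurableSet (orb S V0 (p j)) := fun j =>
    measurableSet_orb hB hV0 (hVR.trans (pw_mono hB.one' (by norm_num))) (nb_of_good hB (hp j))
  cases o with
  | none => exact (MeasurableSet.iUnion h1).compl
  | some j => exact h1 j

theorem disjoint_Bl {V0 : Set G} {m : ℕ} {p : Fin m → M}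
    (hd : Pairwise (fun i j => Disjoint (orb S V0 (p i)) (orb S V0 (p j)))) :
    Pairwise (fun i j => Disjoint (Bl S V0 p i) (Bl S V0 p j)) := by
  intro i j hij
  cases i with
  | none =>
    cases j with
    | none => exact absurd rfl hij
    | some j =>
      refine Set.disjoint_left.mpr fun x hx hx' => hx ?_
      exact mem_iUnion.mpr ⟨j, hx'⟩
  | some i =>
    cases j with
    | none =>
      refine Set.disjoint_left.mpr fun x hx hx' => hx' ?_
      exact mem_iUnion.mpr ⟨i, hx⟩
    | some j => exact hd fun h => hij (by rw [h])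

theorem iUnion_Bl {V0 : Set G} {m : ℕ} {p : Fin m → M} : ⋃ o, Bl S V0 p o = univ := by
  rw [eq_univ_iff_forall]
  intro x
  rw [mem_iUnion]
  by_cases h : x ∈ ⋃ j, orb S V0 (p j)
  · obtain ⟨j, hj⟩ := mem_iUnion.mp h
    exact ⟨some j, hj⟩
  · exact ⟨none, h⟩

/-- the mixture -/
theorem exists_mix (hB : Big R U) {V0 : Set G} (hV0 : IsCompact V0) (hVR : V0 ⊆ R ^ 2)
    {m : ℕ} {p : Fin m → M} (hp : ∀ j, p j ∈ S.good U)
    (hd : Pairwise (fun i j => Disjoint (orb S V0 (p i)) (orb S V0 (p j)))) (hV : v univ ≠ 0)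
    (t : ℝ≥0) :
    ∃ (ν : Option (Fin m) → Measure M) (r : Option (Fin m) → ℝ≥0),
      (∀ o, IsProbabilityMeasure (ν o)) ∧ (∀ o, r o • ν o = t • v.restrict (Bl S V0 p o)) ∧
      (∀ o, r o = 0 ∨ ∀ᵐ x ∂(ν o), x ∈ Bl S V0 p o) ∧ ∑ o, r o • ν o = t • v ∧
      (∑ o, (r o : ℝ≥0∞)) = t * v univ := by
  have hm := fun o => measurableSet_Bl hB hV0 hVR hp o
  choose ν h1 h2 h3 using fun o => mixture_one v hV t (hm o)
  refine ⟨ν, fun o => t * (v (Bl S V0 p o)).toNNReal, h1, h2, ?_, ?_, ?_⟩
  · intro o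
    by_cases h : v (Bl S V0 p o) = 0
    · left
      show t * (v (Bl S V0 p o)).toNNReal = 0
      rw [h]
      simp
    · exact Or.inr (h3 o h)
  · simp only [h2]
    rw [← Finset.smul_sum]
    congr 1
    have h4 := Measure.restrict_iUnion (μ := v) (disjoint_Bl hd) hm
    rw [iUnion_Bl, Measure.restrict_univ, Measure.sum_fintype] at h4
    exact h4.symm
  · have h4 : v univ = ∑ o, v (Bl S V0 p o) := by
      rw [← iUnion_Bl (S := S) (V0 := V0) (p := p), measure_iUnion (disjoint_Bl hd) hm,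
        tsum_fintype]
    rw [h4, Finset.mul_sum]
    refine Finset.sum_congr rfl fun o _ => ?_
    rw [ENNReal.coe_mul, ENNReal.coe_toNNReal (measure_ne_top _ _)]

theorem ae_all_points {J : Type} [Fintype J] {ν : J → Measure M} [∀ j, IsProbabilityMeasure (ν j)]
    {r : J → ℝ≥0} {B : J → Set M} (h : ∀ j, r j = 0 ∨ ∀ᵐ x ∂(ν j), x ∈ B j) :
    ∀ᵐ ω ∂(mixS ν r), ∀ j, ∀ k < (ω j).1, (ω j).2 k ∈ B j := by
  rw [ae_all_iff]
  intro j
  have h1 := ae_points (ν j) (r j) (h j)
  have h2 := (measurePreserving_eval (fun j => mixd (ν j) (r j)) j).quasiMeasurePreserving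
  exact h2.ae h1

/-- the patches `orb W0 (p j)` consist of good neighbours, and their `K`-patches lie in the block -/
theorem patch_sub (hB : Big R U) {V0 W0 : Set G} {m : ℕ} {p : Fin m → M}
    (hp : ∀ j, p j ∈ S.good U) (hWR : W0 ⊆ interior R) {ι : Type} {K : ι → Set G}
    (hKR : ∀ i, K i ⊆ R) (hKV : ∀ i, K i * W0 ⊆ V0) (j : Fin m) {x : M}
    (hx : x ∈ orb S W0 (p j)) : x ∈ nb S R U ∧ ∀ i, orb S (K i) x ⊆ Bl S V0 p (some j) := by
  obtain ⟨w, hw, rfl⟩ := hx
  refine ⟨nb_act hB (hp j) (hWR hw), fun i => ?_⟩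
  dsimp only
  rw [orb_act hB (nb_of_good hB (hp j)) (m := 1) (n := 1) (by norm_num)
    (by rw [pow_one]; exact hKR i) (by rw [pow_one]; exact interior_subset (hWR hw))]
  refine image_mono ?_
  rintro _ ⟨a, ha, rfl⟩
  exact hKV i (Set.mul_mem_mul ha hw)

/-- two independent samples are far apart with overwhelming probability -/
theorem sep_bound (hB : Big R U) (hv : S.IsVol haar v) (hP : IsPoisson haar t P) (ht : t ≠ 0)
    {V0 W0 : Set G} (hV0 : IsCompact V0) (hVR : V0 ⊆ R ^ 2) (hW0 : IsCompact W0)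
    (hWR : W0 ⊆ interior R) (hWV : W0 ⊆ V0) (hW0' : 0 < (haar W0).toReal) {m : ℕ}
    {p : Fin m → M} (hp : ∀ j, p j ∈ S.good U)
    (hd : Pairwise (fun i j => Disjoint (orb S V0 (p i)) (orb S V0 (p j))))
    {ν : Option (Fin m) → Measure M} {r : Option (Fin m) → ℝ≥0}
    [hν : ∀ o, IsProbabilityMeasure (ν o)] (hr : ∀ o, r o • ν o = t • v.restrict (Bl S V0 p o))
    (hae : ∀ o, r o = 0 ∨ ∀ᵐ x ∂(ν o), x ∈ Bl S V0 p o)
    {ι : Type} [Fintype ι] {K : ι → Set G}
    (hK : ∀ i, IsCompact (K i)) (hKR : ∀ i, K i ⊆ R) (hKV : ∀ i, K i * W0 ⊆ V0)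
    (H : (ι → ℕ) → (ι → ℕ) → ℝ) {D a : ℝ} (hD : 0 < D) (hH0 : ∀ c c', 0 ≤ H c c')
    (hHD : ∀ c c', H c c' ≤ D)
    (ha : a ≤ ∫ ω, ∫ ω', H (fun i => cnt (K i) ω) (fun i => cnt (K i) ω') ∂P ∂P) :
    ((mixS ν r).prod (mixS ν r)) {z | ∫ x in ⋃ j, orb S W0 (p j),
      H (cv S R U numS K z.1 x) (cv S R U numS K z.2 x) ∂v ≤ m * (haar W0).toReal * a / 4} ≤
      ENNReal.ofReal (Real.exp (-(m * a / (4 * D)))) := by
  set h0 := (haar W0).toReal with hh0
  have hKR' : ∀ i, K i ⊆ R ^ 11 := by
    intro i x hx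
    refine pw_mono hB.one' (by norm_num : 1 ≤ 11) ?_
    rw [pow_one]
    exact hKR i hx
  have hWR' : W0 ⊆ R ^ 11 := by
    intro x hx
    refine pw_mono hB.one' (by norm_num : 1 ≤ 11) ?_
    rw [pow_one]
    exact interior_subset (hWR hx)
  have hZm : ∀ j, MeasurableSet (orb S W0 (p j)) := fun j =>
    measurableSet_orb hB hW0 hWR' (nb_of_good hB (hp j))
  have hpat := fun (j : Fin m) (x : M) (hx : x ∈ orb S W0 (p j)) =>
    patch_sub hB hp hWR hKR hKV j hx
  have hvol : ∀ j, (v (orb S W0 (p j))).toReal = h0 := fun j => by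
    rw [vol_orb hB hv (nb_of_good hB (hp j)) hWR' hW0.measurableSet]
  set X : Type := ℕ × (ℕ → M) with hX
  set f : Option (Fin m) → X → X → ℝ := fun o x y =>
    o.elim 0 (fun j => ∫ q in orb S W0 (p j), H (cv S R U num K x q) (cv S R U num K y q) ∂v)
    with hf
  set b : Option (Fin m) → ℝ := fun o => o.elim 0 (fun _ => h0 * a) with hb
  have hHm : Measurable (fun z : (ι → ℕ) × (ι → ℕ) => H z.1 z.2) := Measurable.of_discrete
  have hfm : ∀ o, Measurable (fun z : X × X => f o z.1 z.2) := by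
    intro o
    cases o with
    | none => exact measurable_const
    | some j =>
      have h1 : Measurable (fun w : (X × X) × M =>
          H (cv S R U num K w.1.1 w.2) (cv S R U num K w.1.2 w.2)) :=
        hHm.comp ((jm_comp hB jm_num hK hKR' measurable_snd
          (measurable_fst.comp measurable_fst)).prodMk
          (jm_comp hB jm_num hK hKR' measurable_snd (measurable_snd.comp measurable_fst)))
      exact (h1.stronglyMeasurable.integral_prod_right'
        (ν := v.restrict (orb S W0 (p j)))).measurable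
  have hf0 : ∀ o x y, 0 ≤ f o x y := by
    intro o x y
    cases o with
    | none => exact le_refl 0
    | some j => exact integral_nonneg fun q => hH0 _ _
  have hfD : ∀ o x y, f o x y ≤ D * h0 := by
    intro o x y
    cases o with
    | none => exact mul_nonneg hD.le hW0'.le
    | some j =>
      have h1 := norm_integral_le_of_norm_le_const (μ := v.restrict (orb S W0 (p j))) (C := D)
        (f := fun q => H (cv S R U num K x q) (cv S R U num K y q))
        (Eventually.of_forall fun q => by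
          rw [Real.norm_eq_abs, abs_of_nonneg (hH0 _ _)]; exact hHD _ _)
      rw [measureReal_def, Measure.restrict_apply_univ, hvol] at h1
      exact (le_abs_self _).trans h1
  have hfa : ∀ o, b o ≤ ∫ x, ∫ y, f o x y ∂(mixd (ν o) (r o)) ∂(mixd (ν o) (r o)) := by
    intro o
    cases o with
    | none =>
      have h1 : ∫ x, ∫ y, f none x y ∂(mixd (ν none) (r none)) ∂(mixd (ν none) (r none)) = 0 := by
        simp [hf]
      rw [h1]
      exact le_refl 0
    | some j =>
      have h1 := mean_block hB hv hP ht (measurableSet_Bl hB hV0 hVR hp (some j))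
        (hr (some j)) hK hKR' (hZm j) (fun x hx => (hpat j x hx).1)
        (fun x hx i => (hpat j x hx).2 i) H (D := D)
        (fun c c' => by rw [abs_of_nonneg (hH0 _ _)]; exact hHD _ _)
      rw [hvol] at h1
      have h2 : h0 * a ≤ h0 * ∫ ω, ∫ ω', H (fun i => cnt (K i) ω) (fun i => cnt (K i) ω') ∂P ∂P :=
        mul_le_mul_of_nonneg_left ha hW0'.le
      exact h2.trans h1.symm.le
  have hDh : 0 < D * h0 := mul_pos hD hW0'
  have key := cher (fun o => mixd (ν o) (r o)) hfm hDh hf0 hfD hfa (m * h0 * a / 4)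
  have hbs : ∑ o, b o = m * (h0 * a) := by
    rw [Fintype.sum_option]
    simp [hb]
  have hexp : m * h0 * a / 4 / (D * h0) - (∑ o, b o) / (2 * (D * h0)) = -(m * a / (4 * D)) := by
    rw [hbs]
    field_simp
    ring
  rw [hexp] at key
  refine le_trans ?_ key
  have hpts := ae_all_points (ν := ν) (r := r) hae
  have hpts2 : ∀ᵐ z ∂((mixS ν r).prod (mixS ν r)),
      (∀ j, ∀ k < (z.1 j).1, (z.1 j).2 k ∈ Bl S V0 p j) ∧
      (∀ j, ∀ k < (z.2 j).1, (z.2 j).2 k ∈ Bl S V0 p j) := by
    have e1 := Measure.quasiMeasurePreserving_fst (μ := mixS ν r) (ν := mixS ν r) |>.ae hpts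
    have e2 := Measure.quasiMeasurePreserving_snd (μ := mixS ν r) (ν := mixS ν r) |>.ae hpts
    filter_upwards [e1, e2] with z h1 h2 using ⟨h1, h2⟩
  refine measure_mono_ae ?_
  filter_upwards [hpts2] with z hz hzm
  have hzm' : ∫ x in ⋃ j, orb S W0 (p j),
      H (cv S R U numS K z.1 x) (cv S R U numS K z.2 x) ∂v ≤ m * h0 * a / 4 := hzm
  show ∑ o, f o (z.1 o) (z.2 o) ≤ m * h0 * a / 4
  refine le_trans (le_of_eq ?_) hzm'
  have hdW : Pairwise (Function.onFun Disjoint (fun j => orb S W0 (p j))) := by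
    intro i j hij
    exact (hd hij).mono (image_mono hWV) (image_mono hWV)
  rw [integral_iUnion_fintype hZm hdW]
  · rw [Fintype.sum_option]
    have h1 : f none (z.1 none) (z.2 none) = 0 := rfl
    rw [h1, zero_add]
    refine Finset.sum_congr rfl fun j _ => ?_
    show ∫ q in orb S W0 (p j), H (cv S R U num K (z.1 (some j)) q)
      (cv S R U num K (z.2 (some j)) q) ∂v = _
    refine setIntegral_congr_fun (hZm j) fun q hq => ?_
    obtain ⟨hqn, hqB⟩ := hpat j q hq
    show H (cv S R U num K (z.1 (some j)) q) (cv S R U num K (z.2 (some j)) q) =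
      H (cv S R U numS K z.1 q) (cv S R U numS K z.2 q)
    rw [cv_of_nb hqn, cv_of_nb hqn, cv_of_nb hqn, cv_of_nb hqn]
    have e1 : (fun i => numS z.1 (orb S (K i) q)) = fun i => num (z.1 (some j)) (orb S (K i) q) := by
      funext i
      exact numS_block (disjoint_Bl hd) hz.1 (hqB i)
    have e2 : (fun i => numS z.2 (orb S (K i) q)) = fun i => num (z.2 (some j)) (orb S (K i) q) := by
      funext i
      exact numS_block (disjoint_Bl hd) hz.2 (hqB i)
    rw [e1, e2]
  · intro j
    refine Integrable.integrableOn ?_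
    refine Integrable.of_bound ?_ D (Eventually.of_forall fun z => by
      rw [Real.norm_eq_abs, abs_of_nonneg (hH0 _ _)]; exact hHD _ _)
    have hJm : Jm (fun (ω : Option (Fin m) → ℕ × (ℕ → M)) A => numS ω A) := jm_numS
    exact (hHm.comp ((jm_comp (b := fun _ : M => z.1) hB hJm hK hKR' measurable_id
      measurable_const).prodMk (jm_comp (b := fun _ : M => z.2) hB hJm hK hKR' measurable_id
      measurable_const))).aestronglyMeasurable

end sep

end Pool.Agent.Y316.PC
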