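import Pool.Agent.Y316.PC.StB

set_option autoImplicit false
set_option linter.unusedSectionVars false

/-!
# The event on which the Poisson map is a good microstate
-/

namespace Pool.Agent.Y316.PC

open MeasureTheory Set Filter Topology ProbabilityTheory Pointwise
open scoped ENNReal NNReal symmDiff BoundedContinuousFunction

section sta

variable {G M : Type} [Group G] [TopologicalSpace G] [IsTopologicalGroup G] [T2Space G]
  [LocallyCompactSpace G] [SecondCountableTopology G]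
  [MeasurableSpace G] [BorelSpace G] [TopologicalSpace M] [MeasurableSpace M] [BorelSpace M]
  [SecondCountableTopology M] [LocallyCompactSpace M] [T2Space M]
  {S : LocalSpace G M} {R U : Set G} {haar : Measure G} [haar.IsHaarMeasure]
  [haar.IsMulRightInvariant] {v : Measure M} [IsFiniteMeasure v] {t : ℝ≥0}
  {P : Measure (Measure G)}
  {Y : Type} [MetricSpace Y] [CompleteSpace Y] [SecondCountableTopology Y]
  [MeasurableSpace Y] [BorelSpace Y] [Nonempty Y] [MulAction G Y] [ContinuousSMul G Y]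

theorem Big.sub11 (hB : Big R U) {A : Set G} (hA : A ⊆ R) : A ⊆ R ^ 11 := by
  intro x hx
  refine pw_mono hB.one' (by norm_num : 1 ≤ 11) ?_
  rw [pow_one]
  exact hA hx

/-- the number of points is under control -/
theorem few_points {J : Type} [Fintype J] {ν : J → Measure M} {r : J → ℝ≥0}
    [∀ j, IsProbabilityMeasure (ν j)] (hrs : (∑ j, (r j : ℝ≥0∞)) = t * v univ) (ht : t ≠ 0)
    (hV : 0 < (v univ).toReal) :
    (mixS ν r) {ω | ENNReal.ofReal (16 * (t * (v univ).toReal)) ≤ ∑ j, ((ω j).1 : ℝ≥0∞)} ≤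
      ENNReal.ofReal (1 / 16) := by
  have ht' : (0:ℝ) < t := by
    have := pos_iff_ne_zero.mpr ht
    exact_mod_cast this
  have hme : Measurable (fun ω : J → ℕ × (ℕ → M) => ∑ j, ((ω j).1 : ℝ≥0∞)) := by
    refine Finset.measurable_sum _ fun j _ => ?_
    exact (measurable_from_top (f := fun n : ℕ => (n:ℝ≥0∞))).comp
      (measurable_fst.comp (measurable_pi_apply j))
  have h1 := meas_ge_le_lintegral_div (μ := mixS ν r)
    (f := fun ω : J → ℕ × (ℕ → M) => ∑ j, ((ω j).1 : ℝ≥0∞))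
    hme.aemeasurable (ε := ENNReal.ofReal (16 * (t * (v univ).toReal)))
    (ENNReal.ofReal_pos.mpr (by positivity)).ne' ENNReal.ofReal_ne_top
  refine h1.trans ?_
  rw [lintegral_numS_univ, hrs]
  have h2 : (t : ℝ≥0∞) * v univ = ENNReal.ofReal (t * (v univ).toReal) := by
    rw [ENNReal.ofReal_mul ht'.le, ENNReal.ofReal_toReal (measure_ne_top _ _),
      ENNReal.ofReal_coe_nnreal]
  rw [h2, ← ENNReal.ofReal_div_of_pos (by positivity)]
  refine ENNReal.ofReal_le_ofReal (le_of_eq ?_)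
  field_simp

theorem integrable_equi (hB : Big R U) {J : Type} [Fintype J] {ι : Type} [Fintype ι]
    {K : ι → Set G} (hK : ∀ i, IsCompact (K i)) (hKR : ∀ i, K i ⊆ R)
    (F : (ι → ℕ) → Y) {ρ : Y → Y → ℝ} (hρ0 : ∀ x y, 0 ≤ ρ x y) {D : ℝ} (hρD : ∀ x y, ρ x y ≤ D)
    {g : G} (hg : g ∈ R) (ω : J → ℕ × (ℕ → M)) :
    Integrable (fun p => ρ (F (cv S R U numS K ω (S.act g p)))
      (g • F (cv S R U numS K ω p))) (v.restrict (Zg S R U g)) := by
  set K1 : ι → Set G := fun i => (fun a => a * g) '' K i with hK1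
  have hK1c : ∀ i, IsCompact (K1 i) := fun i => (hK i).image (continuous_id.mul continuous_const)
  have hK1R : ∀ i, K1 i ⊆ R ^ 11 := by
    rintro i _ ⟨a, ha, rfl⟩
    refine pw_mono hB.one' (by norm_num : 2 ≤ 11) ?_
    rw [pow_two]
    exact Set.mul_mem_mul (hKR i ha) hg
  have hJm : Jm (fun (ω : J → ℕ × (ℕ → M)) A => numS ω A) := jm_numS
  have hHm : Measurable (fun z : (ι → ℕ) × (ι → ℕ) => ρ (F z.1) (g • F z.2)) :=
    Measurable.of_discrete
  have hm : Measurable (fun p => ρ (F (cv S R U numS K1 ω p)) (g • F (cv S R U numS K ω p))) :=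
    hHm.comp ((jm_comp (b := fun _ : M => ω) hB hJm hK1c hK1R measurable_id
      measurable_const).prodMk (jm_comp (b := fun _ : M => ω) hB hJm hK
      (fun i => hB.sub11 (hKR i)) measurable_id measurable_const))
  have hi : Integrable (fun p => ρ (F (cv S R U numS K1 ω p)) (g • F (cv S R U numS K ω p)))
      (v.restrict (Zg S R U g)) := by
    refine Integrable.of_bound hm.aestronglyMeasurable D (Eventually.of_forall fun x => ?_)
    rw [Real.norm_eq_abs, abs_of_nonneg (hρ0 _ _)]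
    exact hρD _ _
  refine hi.congr ?_
  filter_upwards [ae_restrict_mem (isOpen_Zg (S := S) hB hg).measurableSet] with p hp
  rw [cv_act hB hKR hg hp]

/-- the error between two approximations -/
theorem err_event (hB : Big R U) (hv : S.IsVol haar v) (hP : IsPoisson haar t P) (ht : t ≠ 0)
    {Ω : Type} [MeasurableSpace Ω] {Q : Measure Ω} {N : Ω → Set M → ℕ} (hN : PRM (t • v) Q N)
    (hJ : Jm N)
    {ι : Type} [Fintype ι] {E : ι → Set G} (hE : ∀ i, IsCompact (E i))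
    (hER : ∀ i, (E i)⁻¹ ⊆ R) {ι0 : Type} [Fintype ι0] {E0 : ι0 → Set G}
    (hE0 : ∀ i, IsCompact (E0 i)) (hE0R : ∀ i, (E0 i)⁻¹ ⊆ R)
    (F : (ι → ℕ) → Y) (F0 : (ι0 → ℕ) → Y) {ρ : Y → Y → ℝ} (hρ0 : ∀ x y, 0 ≤ ρ x y) {D : ℝ}
    (hρD : ∀ x y, ρ x y ≤ D) {c : ℝ} (hc0 : 0 < c)
    (hc : ∫ ω, ρ (F (fun i => cnt (E i) ω)) (F0 (fun i => cnt (E0 i) ω)) ∂P ≤ c)
    {Z : Set M} (hZ : MeasurableSet Z) (hZn : Z ⊆ nb S R U) (hZv : 0 < (v Z).toReal) :
    Q {ω | 16 * c * (v Z).toReal ≤ ∫ p in Z, ρ (F (cv S R U N (fun i => (E i)⁻¹) ω p))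
      (F0 (cv S R U N (fun i => (E0 i)⁻¹) ω p)) ∂v} ≤ ENNReal.ofReal (1 / 16) := by
  set A : ι ⊕ ι0 → Set G := Sum.elim E E0 with hA
  have hAc : ∀ i, IsCompact (A i) := by
    rintro (i | i)
    · exact hE i
    · exact hE0 i
  have hAR : ∀ i, (A i)⁻¹ ⊆ R ^ 11 := by
    rintro (i | i)
    · exact hB.sub11 (hER i)
    · exact hB.sub11 (hE0R i)
  set H : (ι ⊕ ι0 → ℕ) → ℝ := fun c => ρ (F (fun i => c (Sum.inl i))) (F0 (fun i => c (Sum.inr i)))
    with hH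
  have h1 := integral_inv_law hP ht hAc H
  exact markov_int hB hv hP ht hN hJ (K := fun i => (A i)⁻¹) (fun i => (hAc i).inv) hAR hZ hZn H
    (D := D) (fun c => hρD _ _) (fun c => hρ0 _ _) hc0 (h1.le.trans hc) hZv (by norm_num : (0:ℝ) < 16)

/-- the good event -/
theorem stageA (hB : Big R U) (hv : S.IsVol haar v) (hP : IsPoisson haar t P) (ht : t ≠ 0)
    {J : Type} [Fintype J] {ν : J → Measure M} {r : J → ℝ≥0} [∀ j, IsProbabilityMeasure (ν j)]
    (hsum : ∑ j, r j • ν j = t • v) (hrs : (∑ j, (r j : ℝ≥0∞)) = t * v univ)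
    {ι : Type} [Fintype ι] {E : ι → Set G} (hE : ∀ i, IsCompact (E i))
    (hER : ∀ i, (E i)⁻¹ ⊆ R) {ι0 : Type} [Fintype ι0] {E0 : ι0 → Set G}
    (hE0 : ∀ i, IsCompact (E0 i)) (hE0R : ∀ i, (E0 i)⁻¹ ⊆ R)
    (F : (ι → ℕ) → Y) (F0 : (ι0 → ℕ) → Y) {ρ : Y → Y → ℝ} {D : ℝ} (hD : 0 < D)
    (hρ0 : ∀ x y, 0 ≤ ρ x y) (hρt : ∀ x y z, ρ x z ≤ ρ x y + ρ y z) (hρD : ∀ x y, ρ x y ≤ D)
    {C : Set G} {L : Finset G} (hLC : ↑L ⊆ C) (hCR : C ⊆ interior R) {θ δ : ℝ} (hθ : 0 < θ)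
    (hδ : 0 < δ)
    (hnet : ∀ g ∈ C, ∃ g' ∈ L, (∀ i, haar (((fun a => a * g) '' (E i)⁻¹) ∆
      ((fun a => a * g') '' (E i)⁻¹)) ≤ ENNReal.ofReal θ) ∧
      ∀ y ∈ range F, ρ (g' • y) (g • y) ≤ δ / 8)
    {κ : ℝ} (hκ : 0 < κ) (hκδ : κ ≤ δ / 8)
    (hfa : ∀ g ∈ C, ∫ ω, ρ (F (fun i => cnt (E i) (ω.map (fun x => g * x))))
        (g • F (fun i => cnt (E i) ω)) ∂P ≤ κ)
    {Jf : Type} [Fintype Jf] {f : Jf → (Y →ᵇ ℝ)} {μ : Jf → ℝ} {η : ℝ} (hη : 0 < η)
    (hκη : κ ≤ η / 8) (hfb : ∀ j, |∫ ω, f j (F (fun i => cnt (E i) ω)) ∂P - μ j| ≤ κ)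
    {κ0 : ℝ} (hκ0 : 0 < κ0)
    (hfc : ∫ ω, ρ (F (fun i => cnt (E i) ω)) (F0 (fun i => cnt (E0 i) ω)) ∂P ≤ 2 * κ0)
    {Z : Set M} (hZ : MeasurableSet Z) (hZn : Z ⊆ nb S R U) (hZv : 0 < (v Z).toReal)
    {b : ℝ} (hb : 0 ≤ b) (hgood : v (S.good U)ᶜ ≤ ENNReal.ofReal b)
    (hV : 0 < (v univ).toReal) (hDb : D * b ≤ δ / 8 * (v univ).toReal)
    (hfb' : ∀ j, 2 * ‖f j‖ * b ≤ η / 4 * (v univ).toReal)
    (hθD : D * (16 * t * (Fintype.card ι * θ)) ≤ δ / 8)
    (hV1 : L.card * ((2 * D) ^ 2 * (haar (R ^ 4)).toReal / ((δ / 8) ^ 2 * (v univ).toReal)) ≤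
      1 / 16)
    (hV2 : ∑ j, (2 * ‖f j‖) ^ 2 * (haar (R ^ 4)).toReal / ((η / 4) ^ 2 * (v univ).toReal) ≤
      1 / 16) :
    ∃ A : Set (J → ℕ × (ℕ → M)), MeasurableSet A ∧ ENNReal.ofReal (1 / 2) ≤ (mixS ν r) A ∧
      ∀ ω ∈ A, (∀ g ∈ C, ∫ p in {p | (g, p) ∈ S.dom},
          ρ (F (cv S R U numS (fun i => (E i)⁻¹) ω (S.act g p)))
            (g • F (cv S R U numS (fun i => (E i)⁻¹) ω p)) ∂v < δ * (v univ).toReal) ∧
        (∀ j, |∫ p, f j (F (cv S R U numS (fun i => (E i)⁻¹) ω p)) ∂v -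
          μ j * (v univ).toReal| < η * (v univ).toReal) ∧
        ∫ p in Z, ρ (F (cv S R U numS (fun i => (E i)⁻¹) ω p))
          (F0 (cv S R U numS (fun i => (E0 i)⁻¹) ω p)) ∂v ≤ 16 * (2 * κ0) * (v Z).toReal := by
  set Q := mixS ν r with hQ
  set V := (v univ).toReal with hVd
  have hN : PRM (t • v) Q numS := by
    rw [← hsum]
    exact prm_mixS ν r
  have hJm : Jm (fun (ω : J → ℕ × (ℕ → M)) A => numS ω A) := jm_numS
  have hCR' : ∀ g ∈ C, g ∈ R := fun g hg => interior_subset (hCR hg)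
  set B1 : Set (J → ℕ × (ℕ → M)) :=
    {ω | ENNReal.ofReal (16 * (t * V)) ≤ ∑ j, ((ω j).1 : ℝ≥0∞)} with hB1
  set B2 : G → Set (J → ℕ × (ℕ → M)) := fun g => {ω | (κ + δ / 8) * V ≤ ∫ p in Zg S R U g,
      ρ (F (cv S R U numS (fun i => (E i)⁻¹) ω (S.act g p)))
        (g • F (cv S R U numS (fun i => (E i)⁻¹) ω p)) ∂v} with hB2
  set B3 : Jf → Set (J → ℕ × (ℕ → M)) := fun j => {ω | (η / 4 + κ) * V + 2 * ‖f j‖ * b ≤
      |∫ p, f j (F (cv S R U numS (fun i => (E i)⁻¹) ω p)) ∂v - μ j * V|} with hB3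
  set B4 : Set (J → ℕ × (ℕ → M)) := {ω | 16 * (2 * κ0) * (v Z).toReal ≤
    ∫ p in Z, ρ (F (cv S R U numS (fun i => (E i)⁻¹) ω p))
      (F0 (cv S R U numS (fun i => (E0 i)⁻¹) ω p)) ∂v} with hB4
  have q1 : Q B1 ≤ ENNReal.ofReal (1 / 16) := few_points hrs ht hV
  have q2 : Q (⋃ g ∈ L, B2 g) ≤ ENNReal.ofReal (1 / 16) := by
    refine (measure_biUnion_finset_le _ _).trans ?_
    have h1 : ∀ g ∈ L, Q (B2 g) ≤ ENNReal.ofReal ((2 * D) ^ 2 * (haar (R ^ 4)).toReal /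
        ((δ / 8) ^ 2 * V)) := by
      intro g hg
      exact equi_one hB hv hP ht hN hJm hE hER F hρ0 hρD (hCR' g (hLC hg)) hκ.le
        (hfa g (hLC hg)) (by positivity) hV
    refine (Finset.sum_le_sum h1).trans ?_
    rw [Finset.sum_const, nsmul_eq_mul, ← ENNReal.ofReal_natCast,
      ← ENNReal.ofReal_mul (by positivity)]
    exact ENNReal.ofReal_le_ofReal hV1
  have q3 : Q (⋃ j ∈ (Finset.univ : Finset Jf), B3 j) ≤ ENNReal.ofReal (1 / 16) := by
    refine (measure_biUnion_finset_le _ _).trans ?_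
    have h1 : ∀ j ∈ (Finset.univ : Finset Jf), Q (B3 j) ≤
        ENNReal.ofReal ((2 * ‖f j‖) ^ 2 * (haar (R ^ 4)).toReal / ((η / 4) ^ 2 * V)) := by
      intro j _
      exact weak_one hB hv hP ht hN hJm hE hER F (f j) (hfb j) hb hgood (by positivity) hV
    refine (Finset.sum_le_sum h1).trans ?_
    rw [← ENNReal.ofReal_sum_of_nonneg fun j _ => by positivity]
    exact ENNReal.ofReal_le_ofReal hV2
  have q4 : Q B4 ≤ ENNReal.ofReal (1 / 16) :=
    err_event hB hv hP ht hN hJm hE hER hE0 hE0R F F0 hρ0 hρD (by positivity) hfc hZ hZn hZv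
  set Bad := ((B1 ∪ ⋃ g ∈ L, B2 g) ∪ ⋃ j ∈ (Finset.univ : Finset Jf), B3 j) ∪ B4 with hBad
  have qB : Q Bad ≤ ENNReal.ofReal (1 / 2) := by
    refine (measure_union_le _ _).trans ?_
    refine (add_le_add (measure_union_le _ _) le_rfl).trans ?_
    refine (add_le_add (add_le_add (measure_union_le _ _) le_rfl) le_rfl).trans ?_
    refine (add_le_add (add_le_add (add_le_add q1 q2) q3) q4).trans ?_
    rw [← ENNReal.ofReal_add (by norm_num) (by norm_num), ← ENNReal.ofReal_add (by norm_num)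
      (by norm_num), ← ENNReal.ofReal_add (by norm_num) (by norm_num)]
    exact ENNReal.ofReal_le_ofReal (by norm_num)
  refine ⟨(toMeasurable Q Bad)ᶜ, (measurableSet_toMeasurable _ _).compl, ?_, ?_⟩
  · rw [prob_compl_eq_one_sub (measurableSet_toMeasurable _ _), measure_toMeasurable]
    have h1 : ENNReal.ofReal (1 / 2) ≤ 1 - ENNReal.ofReal (1 / 2) := by
      rw [← ENNReal.ofReal_one, ← ENNReal.ofReal_sub _ (by norm_num)]
      exact ENNReal.ofReal_le_ofReal (by norm_num)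
    exact h1.trans (tsub_le_tsub_left qB 1)
  · intro ω hω
    have hωB : ω ∉ Bad := fun h => hω (subset_toMeasurable Q Bad h)
    rw [hBad, mem_union, not_or, mem_union, not_or, mem_union, not_or] at hωB
    obtain ⟨⟨⟨h1, h2⟩, h3⟩, h4⟩ := hωB
    have h1' : ∑ j, ((ω j).1 : ℝ≥0∞) ≤ ENNReal.ofReal (16 * (t * V)) := (not_le.mp h1).le
    have h2' : ∀ g ∈ L, ∫ p in Zg S R U g, ρ (F (cv S R U numS (fun i => (E i)⁻¹) ω (S.act g p)))
        (g • F (cv S R U numS (fun i => (E i)⁻¹) ω p)) ∂v < (κ + δ / 8) * V := by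
      intro g hg
      by_contra hcon
      exact h2 (mem_biUnion (Finset.mem_coe.mpr hg) (not_lt.mp hcon))
    have h3' : ∀ j, |∫ p, f j (F (cv S R U numS (fun i => (E i)⁻¹) ω p)) ∂v - μ j * V| <
        (η / 4 + κ) * V + 2 * ‖f j‖ * b := by
      intro j
      by_contra hcon
      exact h3 (mem_biUnion (Finset.mem_coe.mpr (Finset.mem_univ j)) (not_lt.mp hcon))
    refine ⟨?_, ?_, (not_le.mp h4).le⟩
    · intro g hg
      obtain ⟨g', hg', hn1, hn2⟩ := hnet g hg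
      have h5 := equi_all (S := S) hB hv (K := fun i => (E i)⁻¹) (fun i => (hE i).inv) hER F
        hρ0 hρD hD.le hρt
        (hCR hg) (hCR (hLC hg')) hθ (by positivity : 0 < δ / 8) hn1 hn2
        (n0 := 16 * (t * V)) (by positivity) h1' hb hgood
        (integrable_equi hB (fun i => (hE i).inv) hER F hρ0 hρD (hCR' g' (hLC hg')) ω)
      have h6 := h2' g' hg'
      have h7 : D * (16 * (t * V) * (Fintype.card ι * θ)) ≤ δ / 8 * V := by
        have := mul_le_mul_of_nonneg_right hθD hV.le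
        linarith
      have h8 : κ * V ≤ δ / 8 * V := mul_le_mul_of_nonneg_right hκδ hV.le
      have h9 : 0 < δ * V := mul_pos hδ hV
      linarith
    · intro j
      refine (h3' j).trans_le ?_
      have h5 := hfb' j
      have h6 : κ * V ≤ η / 8 * V := mul_le_mul_of_nonneg_right hκη hV.le
      have h9 : 0 < η * V := mul_pos hη hV
      linarith

end sta

end Pool.Agent.Y316.PC
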