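import Pool.Agent.Y316.PC.Sep

set_option autoImplicit false
set_option linter.unusedSectionVars false

/-!
# A lower bound for the number of separated maps
-/

namespace Pool.Agent.Y316.PC

open MeasureTheory Set Filter Topology ProbabilityTheory Pointwise
open scoped ENNReal NNReal symmDiff BoundedContinuousFunction

section stb

variable {G M : Type} [Group G] [TopologicalSpace G] [IsTopologicalGroup G] [T2Space G]
  [LocallyCompactSpace G] [SecondCountableTopology G]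
  [MeasurableSpace G] [BorelSpace G] [TopologicalSpace M] [MeasurableSpace M] [BorelSpace M]
  [SecondCountableTopology M] [LocallyCompactSpace M] [T2Space M]
  {S : LocalSpace G M} {R U : Set G} {haar : Measure G} [haar.IsHaarMeasure]
  [haar.IsMulRightInvariant] {v : Measure M} [IsFiniteMeasure v] {t : ℝ≥0}
  {P : Measure (Measure G)}
  {Y : Type} [TopologicalSpace Y] [MeasurableSpace Y] [BorelSpace Y]
  [SecondCountableTopology Y]

/-- a separated family indexed by sample points gives a lower bound of `logSep` -/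
theorem logSep_ge {Ω : Type} {ρ : Y → Y → ℝ} (hρ0 : ∀ y, ρ y y = 0) {e : ℝ} {Φ : Set (M → Y)}
    {φ : Ω → M → Y} {s : Finset Ω} (hs : ∀ x ∈ s, φ x ∈ Φ) {e' : ℝ} (he : 0 < e) (hee : e < e')
    (hsep : ∀ x ∈ s, ∀ y ∈ s, x ≠ y → e' ≤ (∫ p, ρ (φ x p) (φ y p) ∂v) / (v univ).toReal)
    (hn : s.card ≠ 0) : ((Real.log s.card : ℝ) : EReal) ≤ logSep v ρ e Φ := by
  classical
  have hinj : Set.InjOn φ s := by
    intro x hx y hy hxy
    by_contra hne
    have h1 := hsep x hx y hy hne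
    rw [hxy] at h1
    simp only [hρ0, integral_zero, zero_div] at h1
    linarith
  have hcard : (s.image φ).card = s.card := Finset.card_image_of_injOn hinj
  have hmem : s.image φ ∈ {s : Finset (M → Y) | s.Nonempty ∧ ↑s ⊆ Φ ∧ ∀ φ ∈ s, ∀ ψ ∈ s, φ ≠ ψ →
      e < (∫ p, ρ (φ p) (ψ p) ∂v) / (v univ).toReal} := by
    refine ⟨?_, ?_, ?_⟩
    · rw [← Finset.card_pos, hcard]
      exact Nat.pos_of_ne_zero hn
    · intro f hf
      rw [Finset.mem_coe, Finset.mem_image] at hf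
      obtain ⟨x, hx, rfl⟩ := hf
      exact hs x hx
    · intro f hf g hg hfg
      rw [Finset.mem_image] at hf hg
      obtain ⟨x, hx, rfl⟩ := hf
      obtain ⟨y, hy, rfl⟩ := hg
      exact hee.trans_le (hsep x hx y hy fun h => hfg (by rw [h]))
  have h2 := le_iSup₂ (f := fun (s : Finset (M → Y)) (_ : s ∈ {s : Finset (M → Y) |
    s.Nonempty ∧ ↑s ⊆ Φ ∧ ∀ φ ∈ s, ∀ ψ ∈ s, φ ≠ ψ →
      e < (∫ p, ρ (φ p) (ψ p) ∂v) / (v univ).toReal}) => ((Real.log s.card : ℝ) : EReal))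
    (s.image φ) hmem
  rw [hcard] at h2
  exact h2

/-- the extraction step -/
theorem stageB {Ω : Type} [MeasurableSpace Ω] {Q : Measure Ω} [IsProbabilityMeasure Q]
    {φ φ0 : Ω → M → Y} (hφm : Measurable (fun z : M × Ω => φ z.2 z.1))
    (hφ0m : Measurable (fun z : M × Ω => φ0 z.2 z.1)) {ρ : Y → Y → ℝ} {D : ℝ}
    (hρc : Continuous (fun z : Y × Y => ρ z.1 z.2)) (hρ0 : ∀ y, ρ y y = 0)
    (hρs : ∀ x y, ρ x y = ρ y x) (hρt : ∀ x y z, ρ x z ≤ ρ x y + ρ y z)
    (hρD : ∀ x y, ρ x y ≤ D) {Z : Set M}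
    {A : Set Ω} (hA : MeasurableSet A)
    (hA2 : ENNReal.ofReal (1 / 2) ≤ Q A) {Φ : Set (M → Y)}
    (hAΦ : ∀ ω ∈ A, φ ω ∈ Φ) {err : ℝ}
    (hAe : ∀ ω ∈ A, ∫ x in Z, ρ (φ ω x) (φ0 ω x) ∂v ≤ err) (hV : 0 < (v univ).toReal)
    {τ q : ℝ} (hq0 : 0 ≤ q)
    (hsb : (Q.prod Q) {z | ∫ x in Z, ρ (φ0 z.1 x) (φ0 z.2 x) ∂v ≤ τ} ≤ ENNReal.ofReal q)
    {e : ℝ} (he : 0 < e) (hee : 4 * e * (v univ).toReal ≤ τ - 2 * err) {n : ℕ}
    (hn : n ≠ 0) (hnq : (n : ℝ) ^ 2 * (4 * q) < 1) :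
    ((Real.log n : ℝ) : EReal) ≤ logSep v ρ e Φ := by
  have hρnn : ∀ x y, 0 ≤ ρ x y := by
    intro x y
    have h1 := hρt x y x
    rw [hρ0, hρs y x] at h1
    linarith
  have hρm : Measurable (fun z : Y × Y => ρ z.1 z.2) := hρc.measurable
  have hm1 : ∀ ω, Measurable (φ ω) := fun ω => hφm.comp (measurable_id.prodMk measurable_const)
  have hm0 : ∀ ω, Measurable (φ0 ω) := fun ω => hφ0m.comp (measurable_id.prodMk measurable_const)
  have hint : ∀ (f g : M → Y), Measurable f → Measurable g → ∀ μ : Measure M, IsFiniteMeasure μ →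
      Integrable (fun x => ρ (f x) (g x)) μ := by
    intro f g hf hg μ hμ
    refine Integrable.of_bound (hρm.comp (hf.prodMk hg)).aestronglyMeasurable D
      (Eventually.of_forall fun x => ?_)
    rw [Real.norm_eq_abs, abs_of_nonneg (hρnn _ _)]
    exact hρD _ _
  set d : Ω → Ω → ℝ := fun ω ω' => (∫ x, ρ (φ ω x) (φ ω' x) ∂v) / (v univ).toReal with hd'
  have hd0 : ∀ ω, d ω ω = 0 := by
    intro ω
    simp only [hd', hρ0, integral_zero, zero_div]
  have hds : ∀ ω ω', d ω ω' = d ω' ω := by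
    intro ω ω'
    simp only [hd']
    congr 2
    funext x
    exact hρs _ _
  have hdt : ∀ ω ω' ω'', d ω ω'' ≤ d ω ω' + d ω' ω'' := by
    intro ω ω' ω''
    simp only [hd']
    rw [← add_div, ← integral_add (hint _ _ (hm1 _) (hm1 _) v inferInstance)
      (hint _ _ (hm1 _) (hm1 _) v inferInstance)]
    refine div_le_div_of_nonneg_right ?_ hV.le
    exact integral_mono (hint _ _ (hm1 _) (hm1 _) v inferInstance)
      ((hint _ _ (hm1 _) (hm1 _) v inferInstance).add (hint _ _ (hm1 _) (hm1 _) v inferInstance))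
      fun x => hρt _ _ _
  have hdm : Measurable (fun z : Ω × Ω => d z.1 z.2) := by
    have h1 : Measurable (fun w : (Ω × Ω) × M => ρ (φ w.1.1 w.2) (φ w.1.2 w.2)) :=
      hρm.comp ((hφm.comp (measurable_snd.prodMk (measurable_fst.comp measurable_fst))).prodMk
        (hφm.comp (measurable_snd.prodMk (measurable_snd.comp measurable_fst))))
    exact (h1.stronglyMeasurable.integral_prod_right' (ν := v)).measurable.div_const _
  have hq : (Q.prod Q) {z | z.1 ∈ A ∧ z.2 ∈ A ∧ d z.1 z.2 < 2 * (2 * e)} ≤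
      ENNReal.ofReal q := by
    refine (measure_mono ?_).trans hsb
    rintro ⟨ω, ω'⟩ ⟨h1, h2, h3⟩
    dsimp only at h1 h2 h3
    show ∫ x in Z, ρ (φ0 ω x) (φ0 ω' x) ∂v ≤ τ
    have e1 : ∫ x, ρ (φ ω x) (φ ω' x) ∂v < 4 * e * (v univ).toReal := by
      simp only [hd'] at h3
      rw [div_lt_iff₀ hV] at h3
      linarith
    have e2 : ∫ x in Z, ρ (φ ω x) (φ ω' x) ∂v ≤ ∫ x, ρ (φ ω x) (φ ω' x) ∂v :=
      setIntegral_le_integral (hint _ _ (hm1 _) (hm1 _) v inferInstance)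
        (Eventually.of_forall fun x => hρnn _ _)
    have e3 : ∫ x in Z, ρ (φ0 ω x) (φ0 ω' x) ∂v ≤
        ∫ x in Z, (ρ (φ ω x) (φ0 ω x) + ρ (φ ω x) (φ ω' x) + ρ (φ ω' x) (φ0 ω' x)) ∂v := by
      refine integral_mono (hint _ _ (hm0 _) (hm0 _) _ inferInstance)
        (((hint _ _ (hm1 _) (hm0 _) _ inferInstance).add
          (hint _ _ (hm1 _) (hm1 _) _ inferInstance)).add
          (hint _ _ (hm1 _) (hm0 _) _ inferInstance)) fun x => ?_
      have h4 := hρt (φ0 ω x) (φ ω x) (φ0 ω' x)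
      have h5 := hρt (φ ω x) (φ ω' x) (φ0 ω' x)
      rw [hρs (φ0 ω x) (φ ω x)] at h4
      dsimp only
      linarith
    have i1 := hint _ _ (hm1 ω) (hm0 ω) (v.restrict Z) inferInstance
    have i2 := hint _ _ (hm1 ω) (hm1 ω') (v.restrict Z) inferInstance
    have i3 := hint _ _ (hm1 ω') (hm0 ω') (v.restrict Z) inferInstance
    have i12 : Integrable (fun x => ρ (φ ω x) (φ0 ω x) + ρ (φ ω x) (φ ω' x)) (v.restrict Z) :=
      i1.add i2
    rw [integral_add i12 i3, integral_add i1 i2] at e3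
    have e4 := hAe ω h1
    have e5 := hAe ω' h2
    linarith
  obtain ⟨s, hs, hsA, hsep⟩ := extract Q hA hA2 hd0 hds hdt hdm
    (e := 2 * e) (by linarith) hq0 hq n hnq
  have h6 := logSep_ge (v := v) (Φ := Φ) (φ := φ) (s := s) hρ0 (fun x hx => hAΦ x (hsA hx)) he
    (by linarith : e < 2 * e) hsep (by rw [hs]; exact hn)
  rwa [hs] at h6

end stb

end Pool.Agent.Y316.PC
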